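import Pool.Agent.H474.SYM.Tst

/-!
# Duality: from the mean of a sum of kernels to a Lipschitz test function
-/

set_option autoImplicit false
set_option linter.unusedSectionVars false

open Complex Filter Topology Set MeasureTheory
open scoped ComplexConjugate

namespace Pool.Agent.H474.SYM

open Pool.Agent.H474.SHP (pg Gg gw_cnt gwb gw_evn pg_cont pg_even Gg_pos Gg_ge)
open H385 (kapw gw)

/-- the cut-off -/
noncomputable def cut (t : ℝ) : ℝ := max 0 (min 1 (2 - t))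

lemma cut_nn (t : ℝ) : 0 ≤ cut t := le_max_left _ _

lemma cut_le (t : ℝ) : cut t ≤ 1 := max_le zero_le_one (min_le_left _ _)

lemma cut_one {t : ℝ} (h : t ≤ 1) : cut t = 1 := by
  unfold cut
  rw [min_eq_left (by linarith), max_eq_right zero_le_one]

lemma cut_zero {t : ℝ} (h : 2 ≤ t) : cut t = 0 := by
  unfold cut
  exact max_eq_left ((min_le_right _ _).trans (by linarith))

lemma cut_lip (s t : ℝ) : |cut s - cut t| ≤ |s - t| := by
  unfold cut
  have h1 := abs_max_sub_max_le_max 0 (min 1 (2 - s)) 0 (min 1 (2 - t))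
  have h2 := abs_min_sub_min_le_max 1 (2 - s) 1 (2 - t)
  have e : |2 - s - (2 - t)| = |s - t| := by rw [abs_sub_comm]; congr 1; ring
  rw [sub_self, abs_zero, e] at h2
  rw [sub_self, abs_zero] at h1
  refine h1.trans (max_le (abs_nonneg _) (h2.trans (max_le (abs_nonneg _) le_rfl)))

section

variable {γ Λ : ℝ}

/-- the cut-off in the plane -/
noncomputable def gg (R κ B : ℝ) (z : ℂ) : ℝ := cut (|z.re| / (2 * R)) * cut (|z.im| * κ / B)

lemma gg_nn (R κ B : ℝ) (z : ℂ) : 0 ≤ gg R κ B z := mul_nonneg (cut_nn _) (cut_nn _)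

lemma gg_le (R κ B : ℝ) (z : ℂ) : gg R κ B z ≤ 1 := by
  unfold gg
  calc _ ≤ 1 * (1 : ℝ) := mul_le_mul (cut_le _) (cut_le _) (cut_nn _) zero_le_one
    _ = 1 := one_mul 1

lemma gg_lip {R κ B : ℝ} (hR : 0 < R) (hRκ : 1 / (2 * R) ≤ κ) (hκ : 0 < κ) (hB : 1 ≤ B) (z w : ℂ) :
    |gg R κ B z - gg R κ B w| ≤ 2 * κ * ‖z - w‖ := by
  unfold gg
  set a := cut (|z.re| / (2 * R))
  set b := cut (|z.im| * κ / B)
  set a' := cut (|w.re| / (2 * R))
  set b' := cut (|w.im| * κ / B)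
  have h1 : |a - a'| ≤ κ * ‖z - w‖ := by
    refine (cut_lip _ _).trans ?_
    rw [← sub_div, abs_div, abs_of_pos (by positivity : 0 < 2 * R)]
    have h2 : |(|z.re| - |w.re|)| ≤ ‖z - w‖ := by
      refine (abs_abs_sub_abs_le_abs_sub _ _).trans ?_
      rw [← Complex.sub_re]
      exact abs_re_le_norm _
    calc |(|z.re| - |w.re|)| / (2 * R) = |(|z.re| - |w.re|)| * (1 / (2 * R)) := by ring
      _ ≤ ‖z - w‖ * κ := mul_le_mul h2 hRκ (by positivity) (norm_nonneg _)
      _ = _ := mul_comm _ _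
  have h2 : |b - b'| ≤ κ * ‖z - w‖ := by
    refine (cut_lip _ _).trans ?_
    rw [← sub_div, ← sub_mul, abs_div, abs_of_pos (by linarith : 0 < B), abs_mul, abs_of_pos hκ]
    have h3 : |(|z.im| - |w.im|)| ≤ ‖z - w‖ := by
      refine (abs_abs_sub_abs_le_abs_sub _ _).trans ?_
      rw [← Complex.sub_im]
      exact abs_im_le_norm _
    rw [div_le_iff₀ (by linarith)]
    have h4 : 0 ≤ κ * ‖z - w‖ := by positivity
    calc |(|z.im| - |w.im|)| * κ ≤ ‖z - w‖ * κ := mul_le_mul_of_nonneg_right h3 hκ.le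
      _ = κ * ‖z - w‖ := mul_comm _ _
      _ ≤ κ * ‖z - w‖ * B := le_mul_of_one_le_right h4 hB
  have e : a * b - a' * b' = (a - a') * b + a' * (b - b') := by ring
  rw [e]
  refine (abs_add_le _ _).trans ?_
  rw [abs_mul, abs_mul, abs_of_nonneg (cut_nn _ : 0 ≤ b), abs_of_nonneg (cut_nn _ : 0 ≤ a')]
  have h3 : |a - a'| * b ≤ κ * ‖z - w‖ := (mul_le_of_le_one_right (abs_nonneg _) (cut_le _)).trans h1
  have h4 : a' * |b - b'| ≤ κ * ‖z - w‖ := (mul_le_of_le_one_left (abs_nonneg _) (cut_le _)).trans h2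
  linarith

lemma gg_zero {R κ B : ℝ} (hB : 0 < B) {z : ℂ} (hz : 2 * B ≤ |z.im| * κ) : gg R κ B z = 0 := by
  unfold gg
  rw [cut_zero (t := |z.im| * κ / B) (by rw [le_div_iff₀ hB]; exact hz), mul_zero]

/-- the function with the cut-off -/
noncomputable def FF (γ Λ : ℝ) (u : ℝ → ℂ) (R κ B : ℝ) (z : ℂ) : ℝ := (ff γ Λ u z).re * gg R κ B z

variable {u : ℝ → ℂ} (hu : Measurable u) (hu1 : ∀ s, ‖u s‖ ≤ 1)

include hu hu1

lemma ff_core (h0 : 0 < γ) (hπ : γ < Real.pi) {κ B : ℝ} (hΛ : 0 < Λ) (hΛκ : Λ ≤ κ) (hB : 1 ≤ B)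
    (hBκ : 4 * B ≤ κ) {z : ℂ} (hz : |z.im| * κ ≤ 2 * B) :
    |z.im| ≤ 1 / 2 ∧ ‖ff γ Λ u z‖ ≤ Kc γ * Real.exp (2 * B) := by
  have hκ : 0 < κ := by linarith
  have h1 : |z.im| ≤ 1 / 2 := by
    have : |z.im| * κ ≤ 1 / 2 * κ := by linarith
    exact le_of_mul_le_mul_right this hκ
  refine ⟨h1, (ff_bd hu hu1 h0 hπ hΛ h1).trans ?_⟩
  refine mul_le_mul_of_nonneg_left (Real.exp_le_exp.2 ?_) (Kc_pos h0 hπ).le
  have : Λ * |z.im| ≤ κ * |z.im| := mul_le_mul_of_nonneg_right hΛκ (abs_nonneg _)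
  linarith

lemma FF_bd (h0 : 0 < γ) (hπ : γ < Real.pi) {R κ B : ℝ} (hΛ : 0 < Λ) (hΛκ : Λ ≤ κ) (hB : 1 ≤ B)
    (hBκ : 4 * B ≤ κ) (z : ℂ) : |FF γ Λ u R κ B z| ≤ Kc γ * Real.exp (2 * B) := by
  unfold FF
  have hK := Kc_pos h0 hπ
  by_cases hz : 2 * B ≤ |z.im| * κ
  · rw [gg_zero (by linarith) hz, mul_zero, abs_zero]; positivity
  · push Not at hz
    obtain ⟨-, h2⟩ := ff_core hu hu1 h0 hπ hΛ hΛκ hB hBκ hz.le
    rw [abs_mul, abs_of_nonneg (gg_nn R κ B z)]
    calc _ ≤ ‖ff γ Λ u z‖ * 1 := mul_le_mul (abs_re_le_norm _) (gg_le R κ B z) (gg_nn R κ B z) (norm_nonneg _)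
      _ ≤ _ := by rw [mul_one]; exact h2

lemma FF_lip (h0 : 0 < γ) (hπ : γ < Real.pi) {R κ B : ℝ} (hΛ : 4 ≤ Λ) (hΛκ : Λ ≤ κ) (hR : 0 < R)
    (hRκ : 1 / (2 * R) ≤ κ) (hB : 1 ≤ B) (hBκ : 4 * B ≤ κ) (z w : ℂ) :
    |FF γ Λ u R κ B z - FF γ Λ u R κ B w| ≤ 3 * (Kc γ * Real.exp (2 * B)) * κ * ‖z - w‖ := by
  have hκ : 0 < κ := by linarith
  have hΛ0 : 0 < Λ := by linarith
  have hK := Kc_pos h0 hπ
  set M := Kc γ * Real.exp (2 * B) with hM
  have hM0 : 0 < M := by positivity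
  have hgl := gg_lip (R := R) (κ := κ) (B := B) hR hRκ hκ hB
  have hn0 : 0 ≤ ‖z - w‖ := norm_nonneg _
  -- one point is outside
  have hout : ∀ a b : ℂ, 2 * B ≤ |b.im| * κ → |FF γ Λ u R κ B a - FF γ Λ u R κ B b| ≤
      M * (2 * κ * ‖a - b‖) := by
    intro a b hb
    have e1 : gg R κ B b = 0 := gg_zero (by linarith) hb
    have e2 : FF γ Λ u R κ B b = 0 := by unfold FF; rw [e1, mul_zero]
    rw [e2, sub_zero]
    by_cases ha : 2 * B ≤ |a.im| * κ
    · have e3 : FF γ Λ u R κ B a = 0 := by unfold FF; rw [gg_zero (by linarith) ha, mul_zero]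
      rw [e3, abs_zero]
      positivity
    · push Not at ha
      obtain ⟨-, h2⟩ := ff_core hu hu1 h0 hπ hΛ0 hΛκ hB hBκ ha.le
      unfold FF
      rw [abs_mul]
      refine mul_le_mul ((abs_re_le_norm _).trans h2) ?_ (abs_nonneg _) hM0.le
      have := hgl a b
      rwa [e1, sub_zero] at this
  have hfin : M * (2 * κ * ‖z - w‖) ≤ 3 * M * κ * ‖z - w‖ := by
    have : 0 ≤ M * κ * ‖z - w‖ := by positivity
    linarith
  by_cases hw : 2 * B ≤ |w.im| * κ
  · exact (hout z w hw).trans hfin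
  by_cases hz : 2 * B ≤ |z.im| * κ
  · rw [abs_sub_comm]
    refine (hout w z hz).trans ?_
    rw [norm_sub_rev w z]
    exact hfin
  push Not at hz hw
  obtain ⟨z1, z2⟩ := ff_core hu hu1 h0 hπ hΛ0 hΛκ hB hBκ hz.le
  obtain ⟨w1, w2⟩ := ff_core hu hu1 h0 hπ hΛ0 hΛκ hB hBκ hw.le
  have hY : 2 * B / κ ≤ 1 / 2 := by rw [div_le_div_iff₀ hκ (by norm_num)]; linarith
  have h1 := ff_lip hu hu1 h0 hπ hΛ (z := z) (w := w) (Y := 2 * B / κ)
    (by rw [le_div_iff₀ hκ]; exact hz.le) (by rw [le_div_iff₀ hκ]; exact hw.le) hY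
  have h2 : Real.exp (Λ * (2 * B / κ)) ≤ Real.exp (2 * B) := by
    apply Real.exp_le_exp.2
    have e : Λ * (2 * B / κ) = (Λ * (2 * B)) / κ := by ring
    rw [e, div_le_iff₀ hκ]
    nlinarith
  have h3 : ‖ff γ Λ u z - ff γ Λ u w‖ ≤ M * κ * ‖z - w‖ := by
    refine h1.trans ?_
    rw [hM]
    gcongr
  have e : FF γ Λ u R κ B z - FF γ Λ u R κ B w = (ff γ Λ u z - ff γ Λ u w).re * gg R κ B z +
      (ff γ Λ u w).re * (gg R κ B z - gg R κ B w) := by
    unfold FF; rw [Complex.sub_re]; ring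
  rw [e]
  refine (abs_add_le _ _).trans ?_
  rw [abs_mul, abs_mul, abs_of_nonneg (gg_nn R κ B z)]
  have h4 : |(ff γ Λ u z - ff γ Λ u w).re| * gg R κ B z ≤ M * κ * ‖z - w‖ :=
    (mul_le_of_le_one_right (abs_nonneg _) (gg_le R κ B z)).trans ((abs_re_le_norm _).trans h3)
  have h5 : |(ff γ Λ u w).re| * |gg R κ B z - gg R κ B w| ≤ M * (2 * κ * ‖z - w‖) :=
    mul_le_mul ((abs_re_le_norm _).trans w2) (hgl z w) (abs_nonneg _) hM0.le
  linarith

end

/-- **Duality** -/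
theorem dual {γ Λ : ℝ} (h0 : 0 < γ) (hπ : γ < Real.pi) {R κ B : ℝ} (hΛ : 4 ≤ Λ) (hΛκ : Λ ≤ κ) (hR : 0 < R)
    (hRκ : 1 / (2 * R) ≤ κ) (hB : 1 ≤ B) (hBκ : 4 * B ≤ κ) {α : Type*} (J : Finset α) (p : α → ℂ)
    (a : α → ℝ) (hp : ∀ j ∈ J, |(p j).im| ≤ 1 / 2) :
    ∃ F : ℂ → ℝ, (∀ z, |F z| ≤ 1) ∧ (∀ z w, |F z - F w| ≤ κ * ‖z - w‖) ∧
      (∀ z : ℂ, 4 * R ≤ |z.re| → F z = 0) ∧
      Λ * ∫ s in (-R)..R, ‖∑ j ∈ J, (a j : ℂ) * pg γ Λ (p j - s) ^ 2‖ ≤
        3 * (Kc γ * Real.exp (2 * B)) * ∑ j ∈ J, a j * F (p j) +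
        Kc γ * (∑ j ∈ J.filter (fun j => |(p j).re| < 4 * R ∧ B ≤ |(p j).im| * κ),
          |a j| * Real.exp (Λ * |(p j).im|)) +
        (∑ j ∈ J, |a j|) * (Λ * (2 * R * (Gg γ ^ 2 * Real.exp (Λ / 2) * Real.exp (1 - R ^ 2 / 2)))) := by
  classical
  have hκ : 0 < κ := by linarith
  have hΛ0 : 0 < Λ := by linarith
  have hK := Kc_pos h0 hπ
  set M := 3 * (Kc γ * Real.exp (2 * B)) with hM
  have hM0 : 0 < M := by positivity
  set V : ℝ → ℂ := fun s => ∑ j ∈ J, (a j : ℂ) * pg γ Λ (p j - s) ^ 2 with hV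
  have hVc : Continuous V := by
    have := pg_cont (γ := γ) Λ
    simp only [hV]
    fun_prop
  set u : ℝ → ℂ := (Icc (-R) R).indicator fun s => conj (V s) / ‖V s‖ with hud
  have hu : Measurable u := by
    refine Measurable.indicator ?_ measurableSet_Icc
    have h1 : Measurable fun s => conj (V s) := (Complex.continuous_conj.comp hVc).measurable
    have h2 : Measurable fun s => ((‖V s‖ : ℝ) : ℂ) := (Complex.continuous_ofReal.comp hVc.norm).measurable
    exact h1.div h2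
  have hu1 : ∀ s, ‖u s‖ ≤ 1 := by
    intro s
    simp only [hud]
    by_cases hs : s ∈ Icc (-R) R
    · rw [indicator_of_mem hs, norm_div, Complex.norm_conj, Complex.norm_real, norm_norm]
      exact div_self_le_one _
    · rw [indicator_of_notMem hs, norm_zero]; exact zero_le_one
  have hu0 : ∀ s, R < |s| → u s = 0 := by
    intro s hs
    simp only [hud]
    rw [indicator_of_notMem]
    intro h
    have := abs_le.2 h
    linarith
  refine ⟨fun z => FF γ Λ u R κ B z / M, fun z => ?_, fun z w => ?_, fun z hz => ?_, ?_⟩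
  · rw [abs_div, abs_of_pos hM0, div_le_one hM0]
    refine (FF_bd hu hu1 h0 hπ hΛ0 hΛκ hB hBκ z).trans ?_
    have : 0 < Kc γ * Real.exp (2 * B) := by positivity
    linarith
  · rw [← sub_div, abs_div, abs_of_pos hM0, div_le_iff₀ hM0]
    refine (FF_lip hu hu1 h0 hπ hΛ hΛκ hR hRκ hB hBκ z w).trans (le_of_eq ?_)
    ring
  · change FF γ Λ u R κ B z / M = 0
    unfold FF gg
    rw [cut_zero (t := |z.re| / (2 * R)) (by rw [le_div_iff₀ (by positivity)]; linarith)]
    simp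
  · -- the main identity
    have hmain : ∑ j ∈ J, (a j : ℂ) * ff γ Λ u (p j) = ((Λ * ∫ s in (-R)..R, ‖V s‖ : ℝ) : ℂ) := by
      have h1 : ∀ j ∈ J, (a j : ℂ) * ff γ Λ u (p j) =
          Λ * ∫ s : ℝ, (a j : ℂ) * (u s * pg γ Λ (p j - s) ^ 2) := by
        intro j _
        unfold ff
        rw [integral_const_mul]
        ring
      rw [Finset.sum_congr rfl h1, ← Finset.mul_sum, ← integral_finsetSum _ fun j _ =>
        (u_int hu hu1 h0 hπ hΛ0 (p j)).const_mul _]
      have h2 : ∀ s : ℝ, ∑ j ∈ J, (a j : ℂ) * (u s * pg γ Λ (p j - s) ^ 2) =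
          (Icc (-R) R).indicator (fun s => ((‖V s‖ : ℝ) : ℂ)) s := by
        intro s
        have h3 : ∑ j ∈ J, (a j : ℂ) * (u s * pg γ Λ (p j - s) ^ 2) = u s * V s := by
          simp only [hV]
          rw [Finset.mul_sum]
          exact Finset.sum_congr rfl fun j _ => by ring
        rw [h3]
        simp only [hud]
        by_cases hs : s ∈ Icc (-R) R
        · rw [indicator_of_mem hs, indicator_of_mem hs]
          by_cases hz : V s = 0
          · rw [hz]; simp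
          · have hn : ((‖V s‖ : ℝ) : ℂ) ≠ 0 := by
              rw [Ne, Complex.ofReal_eq_zero]; exact norm_ne_zero_iff.2 hz
            rw [div_mul_eq_mul_div, mul_comm (conj (V s)), Complex.mul_conj, Complex.normSq_eq_norm_sq,
              div_eq_iff hn]
            push_cast; ring
        · rw [indicator_of_notMem hs, indicator_of_notMem hs, zero_mul]
      simp_rw [h2]
      rw [integral_indicator measurableSet_Icc, integral_Icc_eq_integral_Ioc,
        ← intervalIntegral.integral_of_le (by linarith), intervalIntegral.integral_ofReal]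
      push_cast
      rfl
    have hre : ∑ j ∈ J, a j * (ff γ Λ u (p j)).re = Λ * ∫ s in (-R)..R, ‖V s‖ := by
      have h1 := congrArg Complex.re hmain
      rw [Complex.ofReal_re, Complex.re_sum] at h1
      rw [← h1]
      exact Finset.sum_congr rfl fun j _ => by rw [Complex.re_ofReal_mul]
    rw [← hre]
    set tiny := Λ * (2 * R * (Gg γ ^ 2 * Real.exp (Λ / 2) * Real.exp (1 - R ^ 2 / 2))) with htiny
    have hG := Gg_pos h0 hπ
    have htiny0 : 0 ≤ tiny := by positivity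
    have hterm : ∀ j ∈ J, a j * (ff γ Λ u (p j)).re ≤ M * (a j * (FF γ Λ u R κ B (p j) / M)) +
        Kc γ * (if |(p j).re| < 4 * R ∧ B ≤ |(p j).im| * κ then |a j| * Real.exp (Λ * |(p j).im|) else 0) +
        |a j| * tiny := by
      intro j hj
      have e1 : M * (a j * (FF γ Λ u R κ B (p j) / M)) = a j * (ff γ Λ u (p j)).re * gg R κ B (p j) := by
        unfold FF; field_simp
      rw [e1]
      set x := a j * (ff γ Λ u (p j)).re with hx
      have hxa : |x| ≤ |a j| * ‖ff γ Λ u (p j)‖ := by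
        rw [hx, abs_mul]
        exact mul_le_mul_of_nonneg_left (abs_re_le_norm _) (abs_nonneg _)
      have hx2 : x * (1 - gg R κ B (p j)) ≤ |x| := by
        have h1 := gg_nn R κ B (p j)
        have h2 := gg_le R κ B (p j)
        calc x * (1 - gg R κ B (p j)) ≤ |x| * (1 - gg R κ B (p j)) :=
              mul_le_mul_of_nonneg_right (le_abs_self _) (by linarith)
          _ ≤ |x| * 1 := mul_le_mul_of_nonneg_left (by linarith) (abs_nonneg _)
          _ = _ := mul_one _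
      have hif : 0 ≤ Kc γ * (if |(p j).re| < 4 * R ∧ B ≤ |(p j).im| * κ then
          |a j| * Real.exp (Λ * |(p j).im|) else 0) := by
        refine mul_nonneg hK.le ?_
        split_ifs
        · positivity
        · exact le_rfl
      have hat : 0 ≤ |a j| * tiny := by positivity
      by_cases hbig : 2 * R ≤ |(p j).re|
      · have h1 := ff_far hu hu1 h0 hπ hΛ0 hR.le hu0 (hp j hj) hbig
        have h2 : |a j| * ‖ff γ Λ u (p j)‖ ≤ |a j| * tiny :=
          mul_le_mul_of_nonneg_left h1 (abs_nonneg _)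
        have : x = x * gg R κ B (p j) + x * (1 - gg R κ B (p j)) := by ring
        linarith
      · push Not at hbig
        by_cases hB' : B ≤ |(p j).im| * κ
        · rw [if_pos ⟨by linarith, hB'⟩]
          have h1 := ff_bd hu hu1 h0 hπ hΛ0 (hp j hj)
          have h2 : |a j| * ‖ff γ Λ u (p j)‖ ≤ Kc γ * (|a j| * Real.exp (Λ * |(p j).im|)) := by
            calc _ ≤ |a j| * (Kc γ * Real.exp (Λ * |(p j).im|)) :=
                  mul_le_mul_of_nonneg_left h1 (abs_nonneg _)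
              _ = _ := by ring
          have : x = x * gg R κ B (p j) + x * (1 - gg R κ B (p j)) := by ring
          linarith
        · push Not at hB'
          have h1 : gg R κ B (p j) = 1 := by
            unfold gg
            rw [cut_one (t := |(p j).re| / (2 * R)) (by rw [div_le_one (by positivity)]; exact hbig.le),
              cut_one (t := |(p j).im| * κ / B) (by rw [div_le_one (by linarith)]; exact hB'.le), mul_one]
          rw [h1, mul_one]
          linarith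
    refine (Finset.sum_le_sum hterm).trans (le_of_eq ?_)
    rw [Finset.sum_add_distrib, Finset.sum_add_distrib, ← Finset.mul_sum, ← Finset.mul_sum,
      ← Finset.sum_filter, ← Finset.sum_mul]

end Pool.Agent.H474.SYM
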