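import Pool.Agent.H474.SHP.Sh2a

/-!
# The linear functional of one L-function is equal to the Dirichlet polynomial, with a small error
-/

set_option autoImplicit false
set_option linter.unusedSectionVars false

open Complex Filter Topology Set MeasureTheory
open scoped ComplexConjugate
open H370 (zset mult NN Nd Ns)
open W388 H385

namespace Pool.Agent.H474.SYM

open Pool.Agent.Y772.ND (Mz Az Wz dz ev_exp Zf wf mem_Zf sum_wf ZZ mem_ZZ Az_ZZ ZZ_conj aa_conj Mz_sum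
  Az_cont Mz_cont Mz_crude A1_crude inner_le Az_gint Mz_gint)
open PerChi (Rw_cont)
open Pool.Agent.H474.SHP

/-- **The linear functional**, with equality -/
theorem V_eq (κ0 : ℂ → ℂ) (R : ℝ → ℝ) (hR : Continuous R) (hev : ∀ α, R (-α) = R α)
    (hsq : ∀ z : ℂ, κ0 z ^ 2 = ∫ α in (-1 : ℝ)..1, (R α : ℂ) * cexp (I * z * α))
    {R0 : ℝ} (hR0 : ∀ α ∈ Set.Icc (0 : ℝ) 1, 0 ≤ R α ∧ R α ≤ R0) {Λ L C E κ : ℝ} (hΛ : 0 < Λ)
    (hC : 0 ≤ C) (hκ : 0 ≤ κ) {N : ℕ} (hN : 1 ≤ N) (b : ℕ → ℂ) (Z : Finset ℂ) (a : ℂ → ℂ)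
    (hZ : ∀ z ∈ Z, conj z ∈ Z) (ha : ∀ z ∈ Z, a (conj z) = conj (a z)) (s : ℝ)
    (h1 : ∀ u t : ℝ, 0 ≤ u → u ≤ Λ → |t - s| ≤ κ → ‖Az Z a u t - Mz L N b u t‖ ≤ C * Real.exp (-u))
    (h2 : ∀ u t : ℝ, 0 ≤ u → u ≤ Λ → ‖Az Z a u t - Mz L N b u t‖ ≤ E)
    (h3 : E * Real.exp (-κ ^ 2 / 2) ≤ Real.exp (-Λ)) :
    ‖∑ z ∈ Z, a z * (κ0 (Λ * (z - s)) * cexp (-(z - s) ^ 2 / 4)) ^ 2 -
      (((∑ n ∈ Finset.Icc 1 N, dz R Λ L b n * cexp (-(I * s * Real.log n))).re : ℝ) : ℂ)‖ ≤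
      4 * R0 * (2 * C + 3) / Λ := by
  rw [Pool.Agent.Y528.ND.t_VEXP κ0 R hR hev hsq Λ hΛ Z a hZ ha s, ← Complex.ofReal_sub, Complex.norm_real,
    Real.norm_eq_abs,
    ← Pool.Agent.Y179.ND.t_GAUS R hR Λ L hΛ N hN b s, Complex.re_ofReal_mul]
  set FA : ℝ → ℂ := fun α => (R α : ℂ) * (cexp (-(I * (Λ * α) * s)) *
    ∫ t : ℝ, ((Real.exp (-(t - s) ^ 2) : ℝ) : ℂ) * Az Z a (Λ * α) t) with hFA
  set FM : ℝ → ℂ := fun α => (R α : ℂ) * (cexp (-(I * (Λ * α) * s)) *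
    ∫ t : ℝ, ((Real.exp (-(t - s) ^ 2) : ℝ) : ℂ) * Mz L N b (Λ * α) t) with hFM
  have hFAc : Continuous FA := by
    have e : FA = fun α : ℝ => (R α : ℂ) *
        ((Real.sqrt (Real.pi / 2) : ℂ) * Pool.Agent.Y528.ND.SS Z a s (Λ * α)) := by
      funext α
      simp only [hFA]
      congr 1
      have := Pool.Agent.Y528.ND.G_eq Z a s (Λ * α)
      push_cast at this ⊢
      exact this
    rw [e]
    exact (Complex.continuous_ofReal.comp hR).mul (continuous_const.mul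
      ((Pool.Agent.Y528.ND.SS_cont Z a s).comp (by fun_prop)))
  have hFMc : Continuous FM := by
    have e : FM = fun α : ℝ => (R α : ℂ) * (cexp (-(I * (Λ * α) * s)) *
        (1 / 2 * ((L : ℂ) * cexp (I * s * (Λ * α : ℝ)) * (Real.exp (-(Λ * α) ^ 2 / 2) : ℝ) -
        ∑ n ∈ Finset.Icc 1 N, b n * (Real.sqrt n : ℂ)⁻¹ *
          cexp (I * s * ((Λ * α - Real.log n : ℝ) : ℂ)) *
            (Real.exp (-(Λ * α - Real.log n) ^ 2 / 2) : ℝ)))) := by
      funext α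
      simp only [hFM]
      rw [Pool.Agent.Y179.ND.gs_M L N b (Λ * α) s]
    rw [e]
    fun_prop
  have hdiff : ‖(∫ α in (0 : ℝ)..1, FM α) - ∫ α in (0 : ℝ)..1, FA α‖ ≤ R0 * (2 * C + 3) / Λ := by
    rw [← intervalIntegral.integral_sub (hFMc.intervalIntegrable _ _) (hFAc.intervalIntegrable _ _)]
    have hR00 : 0 ≤ R0 := by
      obtain ⟨g1, g2⟩ := hR0 0 ⟨le_rfl, zero_le_one⟩
      linarith
    have hbd : ∀ α ∈ Set.Ioc (0 : ℝ) 1, ‖FM α - FA α‖ ≤ R0 * (2 * C + 3) * Real.exp (-(Λ * α)) := by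
      intro α hα
      obtain ⟨g1, g2⟩ := hR0 α ⟨hα.1.le, hα.2⟩
      have hu0 : 0 ≤ Λ * α := by have := hα.1; positivity
      have hu1 : Λ * α ≤ Λ := by have := hα.2; nlinarith
      have e : FM α - FA α = -((R α : ℂ) * (cexp (-(I * (Λ * α) * s)) *
          ∫ t : ℝ, ((Real.exp (-(t - s) ^ 2) : ℝ) : ℂ) * (Az Z a (Λ * α) t - Mz L N b (Λ * α) t))) := by
        simp only [hFA, hFM]
        simp_rw [mul_sub (((Real.exp (-(_ - s) ^ 2) : ℝ) : ℂ))]
        rw [integral_sub (Az_gint Z a s _) (Mz_gint L N b s _)]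
        ring
      rw [e, norm_neg, norm_mul, norm_mul, Complex.norm_real, Real.norm_of_nonneg g1]
      have e2 : ‖cexp (-(I * (Λ * α) * s))‖ = 1 := by
        have : -(I * ((Λ : ℂ) * (α : ℂ)) * (s : ℂ)) = ((-(Λ * α * s) : ℝ) : ℂ) * I := by
          push_cast; ring
        rw [this, Complex.norm_exp_ofReal_mul_I]
      rw [e2, one_mul]
      have g3 := inner_le (Az_cont Z a (Λ * α)) (Mz_cont L N b (Λ * α)) (s := s) hκ
        (mul_nonneg hC (Real.exp_pos (-(Λ * α))).le) (fun t ht => h1 (Λ * α) t hu0 hu1 ht)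
        (fun t => h2 (Λ * α) t hu0 hu1)
      have g4 : Real.exp (-Λ) ≤ Real.exp (-(Λ * α)) := Real.exp_le_exp.2 (by linarith)
      calc R α * _ ≤ R0 * (2 * (C * Real.exp (-(Λ * α))) + 3 * (E * Real.exp (-κ ^ 2 / 2))) :=
            mul_le_mul g2 g3 (norm_nonneg _) hR00
        _ ≤ R0 * (2 * (C * Real.exp (-(Λ * α))) + 3 * Real.exp (-(Λ * α))) := by
            refine mul_le_mul_of_nonneg_left ?_ hR00
            linarith
        _ = _ := by ring
    refine (intervalIntegral.norm_integral_le_of_norm_le zero_le_one (ae_of_all _ hbd) ?_).trans ?_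
    · apply Continuous.intervalIntegrable
      fun_prop
    · rw [intervalIntegral.integral_const_mul]
      have h5 : ∫ α in (0 : ℝ)..1, Real.exp (-(Λ * α)) ≤ 1 / Λ := by
        have e : ∀ α : ℝ, Real.exp (-(Λ * α)) = Real.exp ((-Λ) * α) := by intro α; ring_nf
        simp_rw [e]
        rw [intervalIntegral.integral_comp_mul_left (fun x => Real.exp x) (neg_ne_zero.2 hΛ.ne'),
          integral_exp, smul_eq_mul]
        rw [mul_zero, Real.exp_zero, mul_one, inv_neg, one_div]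
        have : 0 < Real.exp (-Λ) := Real.exp_pos _
        have h6 : 0 < Λ⁻¹ := by positivity
        nlinarith
      calc _ ≤ R0 * (2 * C + 3) * (1 / Λ) := mul_le_mul_of_nonneg_left h5 (by positivity)
        _ = _ := by ring
  have h8 : 0 ≤ R0 * (2 * C + 3) / Λ := (norm_nonneg _).trans hdiff
  have hs2 : 2 * Real.sqrt (2 / Real.pi) ≤ 4 := by
    have : Real.sqrt (2 / Real.pi) ≤ 1 := by
      rw [Real.sqrt_le_one]
      rw [div_le_one Real.pi_pos]
      linarith [Real.pi_gt_three]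
    linarith
  rw [← mul_sub, abs_mul, abs_of_nonneg (by positivity : (0:ℝ) ≤ 2 * Real.sqrt (2 / Real.pi))]
  have h9 : |(∫ α in (0 : ℝ)..1, FA α).re - (∫ α in (0 : ℝ)..1, FM α).re| ≤ R0 * (2 * C + 3) / Λ := by
    rw [abs_sub_comm, ← Complex.sub_re]
    exact (abs_re_le_norm _).trans hdiff
  calc _ ≤ 4 * (R0 * (2 * C + 3) / Λ) := mul_le_mul hs2 h9 (abs_nonneg _) (by norm_num)
    _ = _ := by ring

open scoped ArithmeticFunction.vonMangoldt

/-- **one L-function** -/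
lemma V_one {θ θ' γ : ℝ} (hθ : 0 < θ) (hθθ : θ < θ') (hθ' : θ' < 1) (h0 : 0 < γ)
    (h1γ : γ ≤ 1) {C A D : ℝ} (hC : 1 ≤ C) {F : ℂ → ℂ}
    {β : ℕ → ℂ} (hF : GoodE 1 A 1 F (fun n => β n * (Λ n : ℂ)))
    (hβ : ∀ n, ‖β n‖ ≤ D) {ε : ℝ} (hε : 0 < ε) :
    ∀ᶠ T : ℝ in atTop, ∀ V1 V2 : ℝ,
      ∀ hV : Fct θ θ' C 1 F (fun n => β n * (Λ n : ℂ)) T V1 V2,
      ∀ s ∈ Set.Icc T (2 * T),
      ‖∑ z ∈ Zf hV.fin, (wf F V1 V2 z : ℂ) * pg γ (θ * Real.log T) (z - s) ^ 2 -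
        (((∑ n ∈ Finset.Icc 1 (NT θ' T), dz (Rw γ) (θ * Real.log T)
        (Real.log T) (fun n => β n * (Λ n : ℂ)) n * cexp (-(I * s * Real.log n))).re : ℝ) : ℂ)‖ ≤ ε := by
  have hπ : γ < Real.pi := by linarith [Real.pi_gt_three]
  have hD : 0 ≤ D := (norm_nonneg _).trans (hβ 0)
  have hC0 : 0 ≤ C := by linarith
  set R0 := Gg γ ^ 2 with hR0
  have hR00 : 0 ≤ R0 := sq_nonneg _
  have t1 : ∀ᶠ T : ℝ in atTop, 4 * R0 * (2 * C + 3) / (θ * ε) ≤ Real.log T :=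
    Real.tendsto_log_atTop.eventually_ge_atTop _
  have t2 : ∀ᶠ T : ℝ in atTop, 20 ≤ Real.log T := Real.tendsto_log_atTop.eventually_ge_atTop _
  have t3 : ∀ᶠ T : ℝ in atTop, 2 * C + 1 + D ≤ T := eventually_ge_atTop _
  filter_upwards [t1, t2, t3, eventually_gt_atTop 1] with T t1 t2 t3 hT1
  intro V1 V2 hV s hs
  set κ := Real.log T with hκ
  have hT0 : 0 < T := by linarith
  have hTκ : T = Real.exp κ := by rw [hκ, Real.exp_log hT0]
  set Λ' := θ * κ with hΛ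
  have hκ0 : 0 < κ := by linarith
  have hΛ0 : 0 < Λ' := by rw [hΛ]; positivity
  have hΛκ : Λ' ≤ κ := by
    have : θ * κ ≤ 1 * κ := mul_le_mul_of_nonneg_right (by linarith) hκ0.le
    linarith
  set N := NT θ' T with hN
  have hN1 : 1 ≤ N := by
    rw [hN]; unfold NT
    exact Nat.floor_pos.2 (Real.one_le_exp (mul_nonneg (by linarith) (by linarith)))
  have hNe : (N : ℝ) ≤ Real.exp κ := by
    rw [hN]; unfold NT
    refine (Nat.floor_le (Real.exp_pos _).le).trans (Real.exp_le_exp.2 ?_)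
    have : θ' * κ ≤ 1 * κ := mul_le_mul_of_nonneg_right hθ'.le hκ0.le
    linarith
  set Z := Zf hV.fin with hZ
  set az : ℂ → ℂ := fun z => (wf F V1 V2 z : ℂ) with haz
  have hZZ : ∀ z, z ∈ Z ↔ z ∈ ZZ (ι := Unit) (F := fun _ => F) (V1 := fun _ => V1) (V2 := fun _ => V2)
      (fun _ => hV.fin) := by
    intro z; rw [mem_ZZ, hZ, mem_Zf]; simp
  have hZc : ∀ z ∈ Z, conj z ∈ Z := by
    intro z hz
    rw [hZZ] at hz ⊢
    exact ZZ_conj (ι := Unit) (fun _ => hF) (fun _ => hV.v0) (fun _ => hV.fin) z hz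
  have hac : ∀ z ∈ Z, az (conj z) = conj (az z) := by
    intro z _
    have := aa_conj (ι := Unit) (V2 := fun _ => V2) (fun _ => hF) (fun _ => hV.v0) (fun _ => (1 : ℝ)) z
    unfold Pool.Agent.Y772.ND.aa at this
    simp only [Finset.univ_unique, Finset.sum_singleton, one_mul] at this
    simpa [haz] using this
  have hbD : ∀ n, ‖β n * (Λ n : ℂ)‖ ≤ D * Λ n := by
    intro n
    rw [norm_mul, Complex.norm_real, Real.norm_of_nonneg ArithmeticFunction.vonMangoldt_nonneg]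
    exact mul_le_mul_of_nonneg_right (hβ n) ArithmeticFunction.vonMangoldt_nonneg
  set b : ℕ → ℂ := fun n => β n * (Λ n : ℂ) with hb
  have hAz : ∀ u t : ℝ, Az Z az u t = A1 F V1 V2 u t := fun u t =>
    Pool.Agent.Y772.ND.Az_Zf hV.fin u t
  have hnear : ∀ u t : ℝ, 0 ≤ u → u ≤ Λ' → T - κ ≤ t → t ≤ 2 * T + κ →
      ‖Az Z az u t - Mz κ N b u t‖ ≤ C * Real.exp (-u) := by
    intro u t hu0 hu ht1 ht2
    rw [hAz]
    have h1 := hV.ex u t hu0 hu (by have := hV.v1'; linarith) (by have := hV.v2; linarith)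
    rw [one_mul] at h1
    exact h1
  set E := 2 * Real.exp Λ' * (C * T * κ) + (1 * κ + D * Real.exp (2 * κ)) with hE
  have hcrude : ∀ u t : ℝ, 0 ≤ u → u ≤ Λ' → ‖Az Z az u t - Mz κ N b u t‖ ≤ E := by
    intro u t hu0 hu
    refine (norm_sub_le _ _).trans (add_le_add ?_ ?_)
    · rw [hAz]
      refine (A1_crude hV.fin hu0).trans ?_
      have h1 : Real.exp u ≤ Real.exp Λ' := Real.exp_le_exp.2 hu
      have h2 := hV.cnt
      have h3 : (0 : ℝ) ≤ NN F V1 V2 := Nat.cast_nonneg _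
      gcongr
    · refine (Mz_crude κ N b hD hbD u t).trans (add_le_add ?_ ?_)
      · rw [abs_of_pos hκ0, one_mul]
      · refine mul_le_mul_of_nonneg_left ?_ hD
        calc (N : ℝ) ^ 2 ≤ (Real.exp κ) ^ 2 := by gcongr
          _ = Real.exp (2 * κ) := by rw [← Real.exp_nat_mul]; congr 1
  have hEle : E * Real.exp (-κ ^ 2 / 2) ≤ Real.exp (-Λ') := by
    have e1 : κ ≤ Real.exp κ := by linarith [Real.add_one_le_exp κ]
    have e2 : E ≤ (2 * C + 1 + D) * Real.exp (3 * κ) := by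
      have x1 : Real.exp Λ' ≤ Real.exp κ := Real.exp_le_exp.2 hΛκ
      have x3 : Real.exp (3 * κ) = Real.exp κ * Real.exp κ * Real.exp κ := by
        rw [← Real.exp_add, ← Real.exp_add]; congr 1; ring
      have x4 : 2 * Real.exp Λ' * (C * T * κ) ≤ 2 * C * Real.exp (3 * κ) := by
        rw [x3]
        calc 2 * Real.exp Λ' * (C * T * κ) ≤ 2 * Real.exp κ * (C * Real.exp κ * Real.exp κ) := by
              rw [← hTκ]
              rw [← hTκ] at x1 e1
              gcongr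
          _ = _ := by ring
      have x5 : 1 * κ ≤ 1 * Real.exp (3 * κ) := by
        refine mul_le_mul_of_nonneg_left (e1.trans (Real.exp_le_exp.2 (by linarith))) zero_le_one
      have x6 : D * Real.exp (2 * κ) ≤ D * Real.exp (3 * κ) :=
        mul_le_mul_of_nonneg_left (Real.exp_le_exp.2 (by linarith)) hD
      rw [hE]
      linarith
    calc E * Real.exp (-κ ^ 2 / 2) ≤ ((2 * C + 1 + D) * Real.exp (3 * κ)) * Real.exp (-κ ^ 2 / 2) :=
          mul_le_mul_of_nonneg_right e2 (Real.exp_pos _).le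
      _ ≤ (Real.exp κ * Real.exp (3 * κ)) * Real.exp (-κ ^ 2 / 2) := by
          rw [hTκ] at t3
          gcongr
      _ = Real.exp (κ + 3 * κ + -κ ^ 2 / 2) := by rw [← Real.exp_add, ← Real.exp_add]
      _ ≤ Real.exp (-Λ') := by
          apply Real.exp_le_exp.2
          nlinarith
  have hfin := V_eq (kapw γ) (Rw γ) (Rw_cont γ h0 hπ) (Rw_even γ) (kapw_sq γ h0 hπ)
    (R0 := R0) (fun α hα => ⟨Rw_nonneg γ h0 hπ α, by
      refine (Rw_tent h0 hπ hα.1).trans ?_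
      have := mul_le_mul_of_nonneg_left (tent_le_one hα.1) hR00
      rw [mul_one] at this
      exact this⟩) hΛ0 (L := κ) hC0 (κ := κ) hκ0.le hN1 b Z az hZc hac s
    (fun u t hu0 hu ht => hnear u t hu0 hu (by
      have := (abs_le.1 ht).1; linarith [hs.1]) (by
      have := (abs_le.1 ht).2; linarith [hs.2])) (fun u t hu0 hu => hcrude u t hu0 hu) hEle
  refine hfin.trans ?_
  rw [div_le_iff₀ (by positivity)] at t1
  rw [div_le_iff₀ hΛ0, hΛ]
  linarith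

end Pool.Agent.H474.SYM
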