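import Pool.Agent.H474.SYM.Bot
import Pool.Agent.H474.SYM.Dual
import Pool.Agent.H474.SYM.Vone

/-!
# The test function which detects a combination of local zero patterns
-/

set_option autoImplicit false
set_option linter.unusedSectionVars false

open Complex MeasureTheory Set Filter Topology
open scoped ComplexConjugate
open H370 (zset mult NN)
open W388
open Pool.Agent.helper24_UT (CM tw)
open Pool.Agent.H474.SHP
open Pool.Agent.Y772.ND (Wz dz ev_exp Zf wf mem_Zf sum_wf)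
open H385 (Rw)
open scoped ArithmeticFunction.vonMangoldt

namespace Pool.Agent.H474.SYM

/-- the coefficients after a reflection -/
noncomputable def yr (e : ℝ) (β : ℕ → ℂ) (n : ℕ) : ℂ := if e = 1 then β n else conj (β n)

lemma yr_one (β : ℕ → ℂ) : yr 1 β = β := by funext n; simp [yr]

lemma yr_neg (β : ℕ → ℂ) (n : ℕ) : yr (-1) β n = conj (β n) := by
  unfold yr; rw [if_neg (by norm_num)]

lemma pg_ref {γ Λ' : ℝ} {e : ℝ} (he : e = 1 ∨ e = -1) (z : ℂ) (c s : ℝ) :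
    pg γ Λ' (e * (z - c) - s) = pg γ Λ' (z - ((c + e * s : ℝ) : ℂ)) := by
  rcases he with rfl | rfl
  · congr 1; push_cast; ring
  · rw [← pg_even Λ' (((-1 : ℝ) : ℂ) * (z - c) - s)]
    congr 1; push_cast; ring

lemma dz_conj (R : ℝ → ℝ) (Λ' L : ℝ) (b : ℕ → ℂ) (n : ℕ) :
    conj (dz R Λ' L b n) = dz R Λ' L (fun n => conj (b n)) n := by
  unfold dz
  rw [map_mul, Complex.conj_ofReal, map_sub, map_mul, map_inv₀, Complex.conj_ofReal]
  congr 2
  split_ifs
  · rw [Complex.conj_ofReal]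
  · rw [map_zero]

lemma tw_one (t : ℝ) : tw t ((1 : ℕ) : ℝ) = 1 := by
  unfold tw Pool.Agent.H376R2.MR.er
  simp

lemma tw_exp (t : ℝ) (n : ℕ) : tw t n = cexp (-(I * t * Real.log n)) := by
  unfold tw Pool.Agent.H376R2.MR.er
  congr 1; push_cast; ring

lemma term_ref {e : ℝ} (he : e = 1 ∨ e = -1) (R : ℝ → ℝ) (Λ' L : ℝ) (β : ℕ → ℂ) (c s : ℝ) (n : ℕ) :
    (dz R Λ' L (fun n => β n * (Λ n : ℂ)) n * cexp (-(I * ((c + e * s : ℝ) : ℂ) * Real.log n))).re =
      (dz R Λ' L (fun n => yr e β n * (Λ n : ℂ)) n * tw (e * c) n *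
        cexp (-(I * s * Real.log n))).re := by
  rcases he with rfl | rfl
  · rw [yr_one, tw_exp, mul_assoc (dz R Λ' L (fun n => β n * (Λ n : ℂ)) n), ← Complex.exp_add]
    congr 3; push_cast; ring
  · rw [← Complex.conj_re, map_mul, dz_conj, ← Complex.exp_conj, tw_exp,
      mul_assoc (dz R Λ' L (fun n => yr (-1) β n * (Λ n : ℂ)) n), ← Complex.exp_add]
    congr 2
    · congr 1
      funext n
      rw [map_mul, Complex.conj_ofReal, yr_neg]
    · congr 1
      simp only [map_neg, map_mul, Complex.conj_ofReal, Complex.conj_I]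
      push_cast; ring

section

variable {ι : Type} [Fintype ι] [DecidableEq ι]

/-- linearity of the coefficients -/
lemma dz_lin (R : ℝ → ℝ) (Λ' κ : ℝ) (y : ι → ℕ → ℂ) (ν μ : ι → ℝ) (n : ℕ) :
    ∑ i, (μ i : ℂ) * (dz R Λ' κ (fun n => y i n * (Λ n : ℂ)) n * tw (ν i) n) =
      dz R Λ' ((∑ i, μ i) * κ) (bs y ν μ) n := by
  unfold dz bs tc
  by_cases hn : n = 1
  · subst hn
    simp only [if_true, ArithmeticFunction.vonMangoldt_apply_one, Complex.ofReal_zero, mul_zero, zero_mul,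
      sub_zero, tw_one, mul_one]
    rw [Finset.sum_mul]
    push_cast
    rw [Finset.mul_sum]
    exact Finset.sum_congr rfl fun i _ => by ring
  · simp only [if_neg hn, zero_sub]
    rw [Finset.sum_mul, Finset.sum_mul, ← Finset.sum_neg_distrib, Finset.mul_sum]
    exact Finset.sum_congr rfl fun i _ => by ring

lemma sum_ref {e : ι → ℝ} (he : ∀ i, e i = 1 ∨ e i = -1) (R : ℝ → ℝ) (Λ' κ : ℝ) (β : ι → ℕ → ℂ)
    (c μ : ι → ℝ) (s : ℝ) (N : ℕ) :
    ∑ i, μ i * (∑ n ∈ Finset.Icc 1 N, dz R Λ' κ (fun n => β i n * (Λ n : ℂ)) n *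
      cexp (-(I * ((c i + e i * s : ℝ) : ℂ) * Real.log n))).re =
    (∑ n ∈ Finset.Icc 1 N, dz R Λ' ((∑ i, μ i) * κ)
      (bs (fun i => yr (e i) (β i)) (fun i => e i * c i) μ) n * cexp (-(I * s * Real.log n))).re := by
  have h1 : ∀ i, μ i * (∑ n ∈ Finset.Icc 1 N, dz R Λ' κ (fun n => β i n * (Λ n : ℂ)) n *
      cexp (-(I * ((c i + e i * s : ℝ) : ℂ) * Real.log n))).re =
      ∑ n ∈ Finset.Icc 1 N, ((μ i : ℂ) * (dz R Λ' κ (fun n => yr (e i) (β i) n * (Λ n : ℂ)) n *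
        tw (e i * c i) n) * cexp (-(I * s * Real.log n))).re := by
    intro i
    rw [Complex.re_sum, Finset.mul_sum]
    refine Finset.sum_congr rfl fun n _ => ?_
    rw [term_ref (he i), ← Complex.re_ofReal_mul]
    congr 1; ring
  simp_rw [h1]
  rw [Finset.sum_comm, Complex.re_sum]
  refine Finset.sum_congr rfl fun n _ => ?_
  rw [← Complex.re_sum, ← Finset.sum_mul, dz_lin R Λ' κ (fun i => yr (e i) (β i)) (fun i => e i * c i) μ n]

/-- **detection** -/
theorem top_core {β : ι → ℕ → ℂ} {F : ι → ℂ → ℂ} {A : ι → ℝ}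
    (hF : ∀ i, GoodE 1 (A i) 1 (F i) (fun n => β i n * (Λ n : ℂ)))
    {e : ι → ℝ} (he : ∀ i, e i = 1 ∨ e i = -1) {q : ι → ℕ}
    (hfam : Fam q (fun i => yr (e i) (β i))) {C : ι → ℝ} (hC : ∀ i, 1 ≤ C i)
    {θ θ' h ϑ κ0 K : ℝ} (hθ : 0 < θ) (hθθ : θ < θ') (hθ' : 4 * θ' ≤ h) (hh : h ≤ 1) (hκ0 : 0 < κ0)
    (hϑ : θ < ϑ) (hK : 0 < K) : ∃ c0 : ℝ, 0 < c0 ∧ ∀ᶠ T : ℝ in atTop,
    ∀ c : ι → ℝ, ∀ H : ℝ, T ^ h ≤ H → (∀ i, T ≤ c i - H / 2 ∧ c i + H / 2 ≤ 2 * T) →
    (∀ i j, i ≠ j → yr (e i) (β i) = yr (e j) (β j) → κ0 / Real.log T ≤ |e i * c i - e j * c j|) →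
    ∀ V1 V2 : ι → ℝ, ∀ hV : (∀ i, Fct θ θ' (C i) 1 (F i) (fun n => β i n * (Λ n : ℂ)) T (V1 i) (V2 i)),
    (∀ i, ∑ z ∈ (Zf (hV i).fin).filter (fun z : ℂ => |z.re - c i| < H / 2),
      wf (F i) (V1 i) (V2 i) z * Real.exp (ϑ * (Real.log T * |z.im|)) ≤ K * H * Real.log T) →
    ∀ μ : ι → ℝ, (∀ i, |μ i| ≤ 1) → ∀ j0, |μ j0| = 1 →
    ∃ f : ℂ → ℝ, (∀ z, |f z| ≤ 1) ∧ (∀ z w, |f z - f w| ≤ Real.log T * ‖z - w‖) ∧
      (∀ z : ℂ, H / 2 ≤ |z.re| → f z = 0) ∧
      c0 * (H * Real.log T) ≤ ∑ i, μ i * ∑ z ∈ Zf (hV i).fin, wf (F i) (V1 i) (V2 i) z *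
        f (e i * (z - c i)) := by
  classical
  set γ : ℝ := 1 / 2 with hγ
  have h0 : 0 < γ := by norm_num
  have h1γ : γ < 1 := by norm_num
  have hπ : γ < Real.pi := by linarith [Real.pi_gt_three]
  have hθ'0 : 0 < θ' := by linarith
  have hh0 : 0 < h := by linarith
  have hθ'1 : θ' < 1 := by linarith
  have hβ : ∀ i n, ‖β i n‖ ≤ 1 := by
    intro i n
    have h1 := hfam.le i n
    unfold yr at h1
    split_ifs at h1
    · exact h1
    · rwa [Complex.norm_conj] at h1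
  obtain ⟨c1, hc1, hbot⟩ := bot_low hfam h0 h1γ hθ hθθ hθ' hh hκ0
  set k := (Fintype.card ι : ℝ) with hk
  have hk0 : 0 ≤ k := Nat.cast_nonneg _
  set ε' := c1 / (8 * (k + 1)) with hε'
  have hε'0 : 0 < ε' := by positivity
  have hKc := Kc_pos h0 hπ
  -- the choice of the cut-off
  obtain ⟨B, hB1, hB2⟩ : ∃ B : ℝ, 1 ≤ B ∧ Kc γ * (k * (8 * K * Real.exp (-((ϑ - θ) * B)))) ≤ θ * c1 / 8 := by
    have h1 : Tendsto (fun B : ℝ => Kc γ * (k * (8 * K * Real.exp (-((ϑ - θ) * B))))) atTop (𝓝 0) := by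
      have h2 : Tendsto (fun B : ℝ => Real.exp (-((ϑ - θ) * B))) atTop (𝓝 0) :=
        Real.tendsto_exp_neg_atTop_nhds_zero.comp (tendsto_id.const_mul_atTop (by linarith))
      have := ((h2.const_mul (8 * K)).const_mul k).const_mul (Kc γ)
      simpa using this
    obtain ⟨B, hB⟩ := ((h1.eventually (gt_mem_nhds (show 0 < θ * c1 / 8 by positivity))).and
      (eventually_ge_atTop 1)).exists
    exact ⟨B, hB.2, hB.1.le⟩
  have hVo : ∀ᶠ T : ℝ in atTop, ∀ i, ∀ V1 V2 : ℝ,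
      ∀ hV : Fct θ θ' (C i) 1 (F i) (fun n => β i n * (Λ n : ℂ)) T V1 V2,
      ∀ s ∈ Set.Icc T (2 * T),
      ‖∑ z ∈ Zf hV.fin, (wf (F i) V1 V2 z : ℂ) * pg γ (θ * Real.log T) (z - s) ^ 2 -
        (((∑ n ∈ Finset.Icc 1 (NT θ' T), dz (Rw γ) (θ * Real.log T)
        (Real.log T) (fun n => β i n * (Λ n : ℂ)) n * cexp (-(I * s * Real.log n))).re : ℝ) : ℂ)‖ ≤ ε' :=
    eventually_all.2 fun i => V_one hθ hθθ hθ'1 h0 h1γ.le (hC i) (hF i) (hβ i) hε'0
  have htθ : Tendsto (fun T : ℝ => θ * Real.log T) atTop atTop :=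
    Real.tendsto_log_atTop.const_mul_atTop hθ
  set CS := ∑ i, C i with hCS
  have hCS0 : 0 ≤ CS := Finset.sum_nonneg fun i _ => by linarith [hC i]
  have u1 : ∀ᶠ T : ℝ in atTop, 16 * 16 * Real.log T ^ 1 * Real.exp ((1 - h) * Real.log T) ≤ T :=
    ev_exp (16 * 16) 1 (show 1 - h < 1 by linarith)
  have u2 : ∀ᶠ T : ℝ in atTop, CS * (2 * Gg γ ^ 2 * Real.exp 1) ≤ θ * c1 / 8 * T := by
    filter_upwards [eventually_ge_atTop (CS * (2 * Gg γ ^ 2 * Real.exp 1) / (θ * c1 / 8))] with T hT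
    rwa [div_le_iff₀' (by positivity)] at hT
  refine ⟨θ * c1 / 16 / (3 * (Kc γ * Real.exp (2 * B))), by positivity, ?_⟩
  filter_upwards [hbot, hVo, htθ.eventually_ge_atTop 4, Real.tendsto_log_atTop.eventually_ge_atTop (4 * B),
    u1, u2, eventually_gt_atTop 1] with T hbot hVo hΛ4 hκB u1 u2 hT1
  intro c H hH hcw hsep V1 V2 hV hreg μ hμ j0 hj0
  set κ := Real.log T with hκ
  have hT0 : 0 < T := by linarith
  have hTκ : T = Real.exp κ := by rw [hκ, Real.exp_log hT0]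
  have hκp : 0 < κ := by linarith
  set Λ' := θ * κ with hΛ
  have hΛκ : Λ' ≤ κ := by
    have : θ * κ ≤ 1 * κ := mul_le_mul_of_nonneg_right (by linarith) hκp.le
    linarith
  set R := H / 8 with hR
  have hTh : T ^ h = Real.exp (h * κ) := by rw [Real.rpow_def_of_pos hT0, mul_comm]
  have hH1 : 1 ≤ H := by
    refine le_trans ?_ hH
    rw [hTh]; exact Real.one_le_exp (by positivity)
  have hRp : 0 < R := by positivity
  have hRκ : 1 / (2 * R) ≤ κ := by
    rw [div_le_iff₀ (by positivity)]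
    have : κ * (2 * R) = κ * H / 4 := by rw [hR]; ring
    rw [this]
    nlinarith
  set N := NT θ' T with hN
  -- the sum
  set J : Finset (Σ _ : ι, ℂ) := Finset.univ.sigma fun i => Zf (hV i).fin with hJ
  set p : (Σ _ : ι, ℂ) → ℂ := fun j => e j.1 * (j.2 - c j.1) with hp
  set a : (Σ _ : ι, ℂ) → ℝ := fun j => μ j.1 * wf (F j.1) (V1 j.1) (V2 j.1) j.2 with ha
  have hsum : ∀ g : (Σ _ : ι, ℂ) → ℂ, ∑ j ∈ J, g j = ∑ i, ∑ z ∈ Zf (hV i).fin, g ⟨i, z⟩ := fun g => by
    rw [hJ, Finset.sum_sigma]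
  have hsumr : ∀ g : (Σ _ : ι, ℂ) → ℝ, ∑ j ∈ J, g j = ∑ i, ∑ z ∈ Zf (hV i).fin, g ⟨i, z⟩ := fun g => by
    rw [hJ, Finset.sum_sigma]
  have himz : ∀ i, ∀ z ∈ Zf (hV i).fin, |z.im| ≤ 1 / 2 := by
    intro i z hz
    rw [mem_Zf] at hz
    obtain ⟨g1, g2, -, -, -⟩ := hz
    have e1 : (1 / 2 + I * z).re = 1 / 2 - z.im := by simp; ring
    rw [e1] at g1 g2
    rw [abs_le]; constructor <;> linarith
  have hpim : ∀ (i : ι) (z : ℂ), |(p ⟨i, z⟩).im| = |z.im| := by
    intro i z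
    simp only [hp]
    rcases he i with h | h
    · rw [h]; simp
    · rw [h]; simp
  have hpre : ∀ (i : ι) (z : ℂ), |(p ⟨i, z⟩).re| = |z.re - c i| := by
    intro i z
    simp only [hp]
    rcases he i with h | h
    · rw [h]; simp
    · rw [h]
      have : (((-1 : ℝ) : ℂ) * (z - (c i : ℂ))).re = -(z.re - c i) := by simp
      rw [this, abs_neg]
  obtain ⟨f, f1, f2, f3, f4⟩ := dual h0 hπ (R := R) (κ := κ) (B := B) hΛ4 hΛκ hRp hRκ hB1 hκB J p a (by
    rintro ⟨i, z⟩ hj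
    rw [hJ, Finset.mem_sigma] at hj
    rw [hpim]
    exact himz i z hj.2)
  have h4R : 4 * R = H / 2 := by rw [hR]; ring
  rw [h4R] at f3 f4
  refine ⟨f, f1, f2, f3, ?_⟩
  have hS : ∑ j ∈ J, a j * f (p j) = ∑ i, μ i * ∑ z ∈ Zf (hV i).fin, wf (F i) (V1 i) (V2 i) z *
        f (e i * (z - c i)) := by
    rw [hsumr]
    refine Finset.sum_congr rfl fun i _ => ?_
    rw [Finset.mul_sum]
    refine Finset.sum_congr rfl fun z _ => ?_
    simp only [ha, hp]; ring
  rw [← hS]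
  -- lower bound of the integral
  set V : ℝ → ℂ := fun s => ∑ j ∈ J, (a j : ℂ) * pg γ Λ' (p j - s) ^ 2 with hVd
  set P : ℝ → ℝ := fun s => (∑ n ∈ Finset.Icc 1 N, dz (Rw γ) Λ' ((∑ i, μ i) * κ)
      (bs (fun i => yr (e i) (β i)) (fun i => e i * c i) μ) n * cexp (-(I * s * Real.log n))).re with hPd
  have hVP : ∀ s ∈ Icc (-R) R, |P s| - k * ε' ≤ ‖V s‖ := by
    intro s hs
    have e1 : V s = ∑ i, (μ i : ℂ) * ∑ z ∈ Zf (hV i).fin, (wf (F i) (V1 i) (V2 i) z : ℂ) *
        pg γ Λ' (z - ((c i + e i * s : ℝ) : ℂ)) ^ 2 := by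
      simp only [hVd]
      rw [hsum]
      refine Finset.sum_congr rfl fun i _ => ?_
      rw [Finset.mul_sum]
      refine Finset.sum_congr rfl fun z _ => ?_
      simp only [ha, hp]
      rw [pg_ref (he i)]
      push_cast; ring
    have e2 : ((P s : ℝ) : ℂ) = ∑ i, (μ i : ℂ) * (((∑ n ∈ Finset.Icc 1 N, dz (Rw γ) Λ' κ
        (fun n => β i n * (Λ n : ℂ)) n *
        cexp (-(I * ((c i + e i * s : ℝ) : ℂ) * Real.log n))).re : ℝ) : ℂ) := by
      simp only [hPd]
      rw [← sum_ref he (Rw γ) Λ' κ β c μ s N]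
      push_cast
      rfl
    have e3 : ‖V s - ((P s : ℝ) : ℂ)‖ ≤ k * ε' := by
      rw [e1, e2, ← Finset.sum_sub_distrib]
      refine (norm_sum_le _ _).trans ?_
      have h5 : ∀ i ∈ Finset.univ, ‖(μ i : ℂ) * ∑ z ∈ Zf (hV i).fin, (wf (F i) (V1 i) (V2 i) z : ℂ) *
        pg γ Λ' (z - ((c i + e i * s : ℝ) : ℂ)) ^ 2 - (μ i : ℂ) * (((∑ n ∈ Finset.Icc 1 N, dz (Rw γ) Λ' κ
        (fun n => β i n * (Λ n : ℂ)) n *
        cexp (-(I * ((c i + e i * s : ℝ) : ℂ) * Real.log n))).re : ℝ) : ℂ)‖ ≤ ε' := by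
        intro i _
        rw [← mul_sub, norm_mul, Complex.norm_real, Real.norm_eq_abs]
        have h6 : c i + e i * s ∈ Icc T (2 * T) := by
          obtain ⟨g1, g2⟩ := hcw i
          have h7 : |e i * s| ≤ R := by
            rw [abs_mul]
            have : |e i| = 1 := by rcases he i with h | h <;> rw [h] <;> norm_num
            rw [this, one_mul]
            exact abs_le.2 hs
          obtain ⟨g3, g4⟩ := abs_le.1 h7
          constructor <;> linarith
        have h7 := hVo i (V1 i) (V2 i) (hV i) _ h6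
        calc _ ≤ 1 * ε' := mul_le_mul (hμ i) h7 (norm_nonneg _) zero_le_one
          _ = ε' := one_mul _
      refine (Finset.sum_le_sum h5).trans (le_of_eq ?_)
      rw [Finset.sum_const, Finset.card_univ, nsmul_eq_mul]
    have e4 := norm_sub_norm_le ((P s : ℝ) : ℂ) (V s)
    rw [norm_sub_rev, Complex.norm_real, Real.norm_eq_abs] at e4
    linarith
  have hVc : Continuous V := by
    have := pg_cont (γ := γ) Λ'
    simp only [hVd]
    fun_prop
  have hPc : Continuous P := by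
    simp only [hPd]
    exact Complex.continuous_re.comp (by fun_prop)
  have hyb : ∀ i j, |e i * c i - e j * c j| ≤ T ^ 2 := by
    intro i j
    have hcc : ∀ i, |e i * c i| ≤ 2 * T := by
      intro i
      obtain ⟨g1, g2⟩ := hcw i
      rw [abs_mul]
      have h1 : |e i| = 1 := by rcases he i with h | h <;> rw [h] <;> norm_num
      rw [h1, one_mul, abs_of_nonneg (by linarith)]
      linarith
    have h2 := abs_sub (e i * c i) (e j * c j)
    have h3 : 4 ≤ T := by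
      rw [hTκ]
      have := Real.add_one_le_exp κ
      linarith
    have h4 := hcc i
    have h5 := hcc j
    nlinarith
  have hb := hbot (fun i => e i * c i) hsep hyb μ hμ j0 hj0 R (by rw [hR]; linarith)
  have hint : c1 * R - k * ε' * (2 * R) ≤ ∫ s in (-R)..R, ‖V s‖ := by
    have h5 : ∫ s in (-R)..R, (|P s| - k * ε') ≤ ∫ s in (-R)..R, ‖V s‖ :=
      intervalIntegral.integral_mono_on (by linarith)
        ((hPc.abs.sub continuous_const).intervalIntegrable _ _) (hVc.norm.intervalIntegrable _ _) hVP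
    rw [intervalIntegral.integral_sub (hPc.abs.intervalIntegrable _ _) intervalIntegrable_const,
      intervalIntegral.integral_const, smul_eq_mul] at h5
    have h6 : (R - -R) * (k * ε') = k * ε' * (2 * R) := by ring
    rw [h6] at h5
    linarith
  have hkε : k * ε' * 2 ≤ c1 / 4 := by
    rw [hε']
    have : k * (c1 / (8 * (k + 1))) * 2 = c1 / 4 * (k / (k + 1)) := by field_simp; ring
    rw [this]
    refine mul_le_of_le_one_right (by positivity) ?_
    rw [div_le_one (by positivity)]; linarith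
  have hlow : θ * c1 * 3 / 4 * (R * κ) ≤ Λ' * ∫ s in (-R)..R, ‖V s‖ := by
    have h5 : c1 * 3 / 4 * R ≤ ∫ s in (-R)..R, ‖V s‖ := by
      refine le_trans ?_ hint
      have := mul_le_mul_of_nonneg_right hkε hRp.le
      linarith
    have h6 := mul_le_mul_of_nonneg_left h5 (by positivity : 0 ≤ Λ')
    refine le_trans (le_of_eq ?_) h6
    rw [hΛ]; ring
  -- the off-line zeros
  have hoff : Kc γ * (∑ j ∈ J.filter (fun j => |(p j).re| < H / 2 ∧ B ≤ |(p j).im| * κ),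
          |a j| * Real.exp (Λ' * |(p j).im|)) ≤ θ * c1 / 8 * (R * κ) := by
    have h5 : ∑ j ∈ J.filter (fun j => |(p j).re| < H / 2 ∧ B ≤ |(p j).im| * κ),
          |a j| * Real.exp (Λ' * |(p j).im|) ≤ k * (8 * K * Real.exp (-((ϑ - θ) * B))) * (R * κ) := by
      rw [Finset.sum_filter, hsumr]
      have h6 : ∀ i ∈ Finset.univ, ∑ z ∈ Zf (hV i).fin, (if |(p ⟨i, z⟩).re| < H / 2 ∧ B ≤ |(p ⟨i, z⟩).im| * κ then
          |a ⟨i, z⟩| * Real.exp (Λ' * |(p ⟨i, z⟩).im|) else 0) ≤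
          8 * K * Real.exp (-((ϑ - θ) * B)) * (R * κ) := by
        intro i _
        have h7 : ∀ z ∈ Zf (hV i).fin, (if |(p ⟨i, z⟩).re| < H / 2 ∧ B ≤ |(p ⟨i, z⟩).im| * κ then
          |a ⟨i, z⟩| * Real.exp (Λ' * |(p ⟨i, z⟩).im|) else 0) ≤ Real.exp (-((ϑ - θ) * B)) *
            (if |z.re - c i| < H / 2 then wf (F i) (V1 i) (V2 i) z * Real.exp (ϑ * (κ * |z.im|)) else 0) := by
          intro z _
          rw [hpre, hpim]
          have hw0 := Pool.Agent.Y772.ND.wf_nonneg (F i) (V1 i) (V2 i) z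
          by_cases h8 : |z.re - c i| < H / 2
          · rw [if_pos h8]
            by_cases h9 : B ≤ |z.im| * κ
            · rw [if_pos ⟨h8, h9⟩]
              have h10 : |a ⟨i, z⟩| ≤ wf (F i) (V1 i) (V2 i) z := by
                simp only [ha]
                rw [abs_mul, abs_of_nonneg hw0]
                exact mul_le_of_le_one_left hw0 (hμ i)
              have h11 : Real.exp (Λ' * |z.im|) ≤ Real.exp (-((ϑ - θ) * B)) * Real.exp (ϑ * (κ * |z.im|)) := by
                rw [← Real.exp_add]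
                apply Real.exp_le_exp.2
                rw [hΛ]
                have : (ϑ - θ) * B ≤ (ϑ - θ) * (|z.im| * κ) := mul_le_mul_of_nonneg_left h9 (by linarith)
                linarith
              calc |a ⟨i, z⟩| * Real.exp (Λ' * |z.im|) ≤ wf (F i) (V1 i) (V2 i) z *
                    (Real.exp (-((ϑ - θ) * B)) * Real.exp (ϑ * (κ * |z.im|))) :=
                    mul_le_mul h10 h11 (Real.exp_pos _).le hw0
                _ = _ := by ring
            · rw [if_neg (fun h => h9 h.2)]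
              positivity
          · rw [if_neg (fun h => h8 h.1), if_neg h8, mul_zero]
        refine (Finset.sum_le_sum h7).trans ?_
        rw [← Finset.mul_sum, ← Finset.sum_filter]
        have h8 := mul_le_mul_of_nonneg_left (hreg i) (Real.exp_pos (-((ϑ - θ) * B))).le
        refine h8.trans (le_of_eq ?_)
        rw [hR]; ring
      refine (Finset.sum_le_sum h6).trans (le_of_eq ?_)
      rw [Finset.sum_const, Finset.card_univ, nsmul_eq_mul]
      ring
    refine (mul_le_mul_of_nonneg_left h5 hKc.le).trans ?_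
    have h6 := mul_le_mul_of_nonneg_right hB2 (by positivity : 0 ≤ R * κ)
    refine le_trans (le_of_eq ?_) h6
    ring
  -- the far zeros
  have hfar : (∑ j ∈ J, |a j|) * (Λ' * (2 * R * (Gg γ ^ 2 * Real.exp (Λ' / 2) * Real.exp (1 - R ^ 2 / 2)))) ≤
      θ * c1 / 8 * (R * κ) := by
    have h5 : ∑ j ∈ J, |a j| ≤ CS * T * κ := by
      rw [hsumr, hCS, Finset.sum_mul, Finset.sum_mul]
      refine Finset.sum_le_sum fun i _ => ?_
      refine le_trans ?_ (hV i).cnt
      rw [← sum_wf (hV i).fin]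
      refine Finset.sum_le_sum fun z _ => ?_
      have hw0 := Pool.Agent.Y772.ND.wf_nonneg (F i) (V1 i) (V2 i) z
      simp only [ha]
      rw [abs_mul, abs_of_nonneg hw0, Complex.norm_real, Real.norm_of_nonneg hw0]
      exact mul_le_of_le_one_left hw0 (hμ i)
    have hG := Gg_pos h0 hπ
    have hR2 : 6 * κ ≤ R ^ 2 / 2 := by
      rw [pow_one, hTκ] at u1
      have h6 : Real.exp κ = Real.exp (h * κ) * Real.exp ((1 - h) * κ) := by
        rw [← Real.exp_add]; congr 1; ring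
      rw [h6] at u1
      have h7 := le_of_mul_le_mul_right u1 (Real.exp_pos _)
      rw [hTh] at hH
      have h8 : 16 * 16 * κ ≤ H := h7.trans hH
      have h9 : H / 8 * (H / 8) / 2 = R ^ 2 / 2 := by rw [hR]; ring
      rw [← h9]
      nlinarith
    have h6 : κ ≤ Real.exp κ := by linarith [Real.add_one_le_exp κ]
    have h7 : T * κ * Real.exp (Λ' / 2) * Real.exp (1 - R ^ 2 / 2) ≤ Real.exp 1 * Real.exp (-κ) := by
      calc T * κ * Real.exp (Λ' / 2) * Real.exp (1 - R ^ 2 / 2)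
          ≤ Real.exp κ * Real.exp κ * Real.exp κ * Real.exp (1 - 6 * κ) := by
            rw [← hTκ] at h6 ⊢
            have : Real.exp (Λ' / 2) ≤ T := by
              rw [hTκ]; exact Real.exp_le_exp.2 (by linarith)
            have h8 : Real.exp (1 - R ^ 2 / 2) ≤ Real.exp (1 - 6 * κ) := Real.exp_le_exp.2 (by linarith)
            gcongr
        _ = Real.exp (κ + κ + κ + (1 - 6 * κ)) := by
            rw [← Real.exp_add, ← Real.exp_add, ← Real.exp_add]
        _ ≤ Real.exp (1 + -κ) := Real.exp_le_exp.2 (by linarith)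
        _ = _ := Real.exp_add _ _
    calc _ ≤ (CS * T * κ) * (Λ' * (2 * R * (Gg γ ^ 2 * Real.exp (Λ' / 2) * Real.exp (1 - R ^ 2 / 2)))) := by
          gcongr
      _ = (CS * (2 * Gg γ ^ 2)) * (T * κ * Real.exp (Λ' / 2) * Real.exp (1 - R ^ 2 / 2)) * (Λ' * R) := by ring
      _ ≤ (CS * (2 * Gg γ ^ 2)) * (Real.exp 1 * Real.exp (-κ)) * (κ * R) := by gcongr
      _ = (CS * (2 * Gg γ ^ 2 * Real.exp 1)) * Real.exp (-κ) * (R * κ) := by ring
      _ ≤ (θ * c1 / 8 * T) * Real.exp (-κ) * (R * κ) := by gcongr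
      _ = θ * c1 / 8 * (Real.exp κ * Real.exp (-κ)) * (R * κ) := by rw [← hTκ]; ring
      _ = _ := by rw [← Real.exp_add]; simp
  set M := 3 * (Kc γ * Real.exp (2 * B)) with hM
  have hM0 : 0 < M := by positivity
  have hfin : θ * c1 / 2 * (R * κ) ≤ M * ∑ j ∈ J, a j * f (p j) := by
    have : 0 ≤ R * κ := by positivity
    linarith
  have e6 : θ * c1 / 16 / M * (H * κ) = (θ * c1 / 2 * (R * κ)) / M := by
    rw [hR]; field_simp; ring
  rw [e6, div_le_iff₀ hM0]
  linarith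

end

end Pool.Agent.H474.SYM
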