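import Pool.Graph.R_seed8.H370R2.DirGood
import Pool.Agent.H474.SYM.Top

/-!
# Dirichlet L-functions: the analytic package and the orthogonality of primitive characters
-/

set_option autoImplicit false

open Complex Filter Topology Set MeasureTheory
open scoped ComplexConjugate
open W388
open scoped ArithmeticFunction.vonMangoldt
open Pool.Agent.helper24_UT (CM tw)

namespace Pool.Agent.H474.SYM

lemma vM_summable : Summable (fun n : ℕ => (Λ n : ℝ) * (n : ℝ) ^ (-(3 / 2) : ℝ)) := by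
  have h1 := ArithmeticFunction.LSeriesSummable_vonMangoldt (s := ((3 / 2 : ℝ) : ℂ))
    (by rw [Complex.ofReal_re]; norm_num)
  have h2 := h1.norm
  refine h2.congr fun n => ?_
  rcases eq_or_ne n 0 with rfl | hn
  · simp
  · rw [LSeries.term_of_ne_zero hn, norm_div, Complex.norm_natCast_cpow_of_pos (Nat.pos_of_ne_zero hn),
      Complex.ofReal_re, Real.rpow_neg (Nat.cast_nonneg n), div_eq_mul_inv, Complex.norm_real,
      Real.norm_eq_abs, abs_of_nonneg ArithmeticFunction.vonMangoldt_nonneg]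

section one

variable {q : ℕ} [NeZero q] {χ : DirichletCharacter ℂ q}

theorem goodE_dir (hχ : χ.IsPrimitive) : ∃ A : ℝ, 1 ≤ A ∧
    GoodE 1 A 1 (DirichletCharacter.LFunction χ) (fun n => χ n * (Λ n : ℂ)) := by
  have hG := H370.good_dirichlet χ hχ
  obtain ⟨C1, A1, hC1, hA1, h1⟩ := hG.growth
  obtain ⟨c, hc, h2⟩ := hG.lower
  obtain ⟨C3, h3⟩ := hG.left
  have hle : ∀ n : ℕ, ‖χ n * (Λ n : ℂ)‖ ≤ Λ n := fun n => by
    rw [norm_mul, Complex.norm_real, Real.norm_eq_abs,
      abs_of_nonneg ArithmeticFunction.vonMangoldt_nonneg]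
    exact mul_le_of_le_one_left ArithmeticFunction.vonMangoldt_nonneg
      (DirichletCharacter.norm_le_one χ _)
  have hsum : Summable (fun n : ℕ => ‖χ n * (Λ n : ℂ)‖ * (n : ℝ) ^ (-(3 / 2) : ℝ)) :=
    Summable.of_nonneg_of_le (fun n => by positivity)
      (fun n => mul_le_mul_of_nonneg_right (hle n) (by positivity)) vM_summable
  obtain ⟨S, hS⟩ : ∃ S : ℝ, S = ∑' n : ℕ, ‖χ n * (Λ n : ℂ)‖ * (n : ℝ) ^ (-(3 / 2) : ℝ) := ⟨_, rfl⟩
  have hci : 0 < c⁻¹ := inv_pos.2 hc
  obtain ⟨A, hA⟩ : ∃ A : ℝ, A = 1 + C1 + A1 + c⁻¹ + |C3| + |S| := ⟨_, rfl⟩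
  have hA1' : 1 ≤ A := by linarith [abs_nonneg C3, abs_nonneg S]
  refine ⟨A, hA1', ?_⟩
  refine ⟨hG.an, ?_, ?_, hG.nzr, hG.nzl, hG.symm, ?_, hsum, ?_, ?_, ?_⟩
  · intro s hs1 hs2 hs3
    refine (h1 s hs1 hs2 hs3).trans ?_
    rw [one_mul]
    refine mul_le_mul (by linarith [abs_nonneg C3, abs_nonneg S]) ?_ (by positivity) (by linarith)
    exact Real.rpow_le_rpow_of_exponent_le hs3 (by linarith [abs_nonneg C3, abs_nonneg S])
  · intro t ht
    refine le_trans ?_ (h2 t ht)
    rw [inv_le_comm₀ (by linarith) hc]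
    linarith [abs_nonneg C3, abs_nonneg S]
  · intro n hn
    interval_cases n <;> simp
  · rw [← hS]
    linarith [abs_nonneg C3, le_abs_self S]
  · intro s hs _
    have h1 := DirichletCharacter.LSeries_twist_vonMangoldt_eq χ hs
    rw [DirichletCharacter.deriv_LFunction_eq_deriv_LSeries χ hs,
      DirichletCharacter.LFunction_eq_LSeries χ hs]
    rw [neg_div, eq_neg_iff_add_eq_zero, add_comm, ← eq_neg_iff_add_eq_zero] at h1
    rw [h1]
    congr 1
    unfold LSeries
    refine tsum_congr fun n => ?_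
    rw [H370.DL.term_eq_mul_cpow _ (by simp)]
    simp
  · intro s hs1 hs2 hs3 hs4
    have := h3 s hs1 hs2 hs3 hs4
    rw [one_mul, one_mul]
    exact this.trans (by linarith [le_abs_self C3, abs_nonneg S])

lemma dir_star (n : ℕ) : conj (χ n) = χ⁻¹ n := by
  rw [← MulChar.star_apply']
  simp

lemma prim_inv (hχ : χ.IsPrimitive) : (χ⁻¹).IsPrimitive := by
  have h1 := DirichletCharacter.conductor_inv χ
  unfold DirichletCharacter.IsPrimitive at hχ ⊢
  rw [h1, hχ]

lemma dir_zero {n : ℕ} (hn : ¬ n.Coprime q) : χ n = 0 := by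
  apply MulChar.map_nonunit
  rwa [ZMod.isUnit_iff_coprime]

lemma dir_norm {n : ℕ} (hn : n.Coprime q) : ‖χ n‖ = 1 := by
  have h1 : IsUnit (n : ZMod q) := by rwa [ZMod.isUnit_iff_coprime]
  obtain ⟨u, hu⟩ := h1
  rw [← hu]
  exact DirichletCharacter.unit_norm_eq_one χ u

end one

section two

variable {m n : ℕ} [NeZero m] [NeZero n] (ψ : DirichletCharacter ℂ m) (φ : DirichletCharacter ℂ n)

lemma pg_prod : Pg (m * n) (fun k : ℕ => ψ k * conj (φ k)) where
  q1 := Nat.mul_pos (NeZero.pos m) (NeZero.pos n)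
  cm := by
    refine ⟨?_, ?_, ?_⟩
    · simp
    · intro a b _ _
      push_cast
      rw [map_mul, map_mul, map_mul]
      ring
    · intro k
      rw [norm_mul, Complex.norm_conj]
      calc ‖ψ k‖ * ‖φ k‖ ≤ 1 * 1 := mul_le_mul (DirichletCharacter.norm_le_one ψ _)
            (DirichletCharacter.norm_le_one φ _) (norm_nonneg _) zero_le_one
        _ = 1 := one_mul 1
  per := by
    intro k
    have h1 : ((k + m * n : ℕ) : ZMod m) = (k : ZMod m) := by simp
    have h2 : ((k + m * n : ℕ) : ZMod n) = (k : ZMod n) := by simp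
    rw [h1, h2]
  cop := by
    intro k hk
    rw [Nat.coprime_mul_iff_right, not_and_or] at hk
    rcases hk with hk | hk
    · rw [dir_zero hk, zero_mul]
    · rw [dir_zero hk, map_zero, mul_zero]

lemma tot_ne : ((m * n).totient : ℂ) ≠ 0 := by
  have h1 : 0 < m * n := Nat.mul_pos (NeZero.pos m) (NeZero.pos n)
  have := Nat.totient_pos.2 h1
  exact_mod_cast this.ne'

lemma dl_one (h : ∀ k : ℕ, ψ k = φ k) : dl (m * n) (fun k : ℕ => ψ k * conj (φ k)) = 1 := by
  unfold dl
  rw [div_eq_one_iff_eq tot_ne, Nat.totient_eq_card_coprime, Finset.card_filter]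
  push_cast
  refine Finset.sum_congr rfl fun k _ => ?_
  split_ifs with hk
  · rw [Nat.coprime_comm, Nat.coprime_mul_iff_right] at hk
    rw [← h k, Complex.mul_conj, Complex.normSq_eq_norm_sq, dir_norm hk.1]
    simp
  · rw [Nat.coprime_comm] at hk
    exact (pg_prod ψ φ).cop k hk

lemma cl_eq {N : ℕ} (hN : m ∣ N) {k : ℕ} (hk : k.Coprime N) :
    DirichletCharacter.changeLevel hN ψ k = ψ k := by
  have h1 := DirichletCharacter.changeLevel_eq_cast_of_dvd' ψ hN (a := (k : ℤ)) (by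
    rw [Nat.isCoprime_iff_coprime]; exact hk)
  simpa using h1

variable {ψ φ}

lemma dl_zero (hψ : ψ.IsPrimitive) (hφ : φ.IsPrimitive) (h : ¬ ∀ k : ℕ, ψ k = φ k) :
    dl (m * n) (fun k : ℕ => ψ k * conj (φ k)) = 0 := by
  haveI : NeZero (m * n) := ⟨(Nat.mul_pos (NeZero.pos m) (NeZero.pos n)).ne'⟩
  obtain ⟨X1, hX1⟩ : ∃ X : DirichletCharacter ℂ (m * n), X = DirichletCharacter.changeLevel
    (Nat.dvd_mul_right m n) ψ := ⟨_, rfl⟩
  obtain ⟨X2, hX2⟩ : ∃ X : DirichletCharacter ℂ (m * n), X = DirichletCharacter.changeLevel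
    (Nat.dvd_mul_left n m) φ := ⟨_, rfl⟩
  have hval : ∀ k : ℕ, ψ k * conj (φ k) = (X1 * X2⁻¹) k := by
    intro k
    by_cases hk : k.Coprime (m * n)
    · rw [MulChar.mul_apply, ← dir_star, hX1, hX2, cl_eq ψ _ hk, cl_eq φ _ hk]
    · rw [(pg_prod ψ φ).cop k hk, dir_zero hk]
  have hne : X1 * X2⁻¹ ≠ 1 := by
    intro he
    rw [mul_inv_eq_one] at he
    have h1 : ψ.conductor = φ.conductor := by
      rw [← DirichletCharacter.conductor_changeLevel ψ (Nat.dvd_mul_right m n),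
        ← DirichletCharacter.conductor_changeLevel φ (Nat.dvd_mul_left n m), ← hX1, ← hX2, he]
    rw [DirichletCharacter.IsPrimitive] at hψ hφ
    rw [hψ, hφ] at h1
    subst h1
    rw [hX1, hX2] at he
    have h2 := DirichletCharacter.changeLevel_injective _ he
    exact h fun k => by rw [h2]
  unfold dl
  have h3 := H370.DL.sum_period hne 0
  simp_rw [zero_add] at h3
  rw [Finset.sum_congr rfl fun k _ => hval k, h3, zero_div]

end two

/-- primitive characters form an admissible family -/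
theorem fam_prim {ι : Type} [Fintype ι] [DecidableEq ι] {q : ι → ℕ} [∀ i, NeZero (q i)]
    (ψ : ∀ i, DirichletCharacter ℂ (q i)) (hψ : ∀ i, (ψ i).IsPrimitive) :
    Fam q (fun i (n : ℕ) => ψ i n) where
  pg i j := pg_prod (ψ i) (ψ j)
  le i n := DirichletCharacter.norm_le_one (ψ i) _
  d1 i j h := dl_one (ψ i) (ψ j) (fun k => congrFun h k)
  d0 i j h := dl_zero (hψ i) (hψ j) (fun hk => h (funext hk))

/-- the character after a reflection -/
noncomputable def cr {q : ℕ} (e : ℝ) (χ : DirichletCharacter ℂ q) : DirichletCharacter ℂ q :=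
  if e = 1 then χ else χ⁻¹

lemma cr_prim {q : ℕ} [NeZero q] {e : ℝ} {χ : DirichletCharacter ℂ q} (hχ : χ.IsPrimitive) :
    (cr e χ).IsPrimitive := by
  unfold cr
  split_ifs
  · exact hχ
  · exact prim_inv hχ

lemma yr_cr {q : ℕ} [NeZero q] (e : ℝ) (χ : DirichletCharacter ℂ q) :
    yr e (fun n : ℕ => χ n) = fun n : ℕ => cr e χ n := by
  funext n
  unfold yr cr
  split_ifs
  · rfl
  · exact dir_star n

theorem fam_dir {ι : Type} [Fintype ι] [DecidableEq ι] {q : ι → ℕ} [∀ i, NeZero (q i)]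
    (χ : ∀ i, DirichletCharacter ℂ (q i)) (hχ : ∀ i, (χ i).IsPrimitive) (e : ι → ℝ) :
    Fam q (fun i => yr (e i) (fun n : ℕ => χ i n)) := by
  have h1 := fam_prim (fun i => cr (e i) (χ i)) (fun i => cr_prim (hχ i))
  have h2 : (fun i => yr (e i) (fun n : ℕ => χ i n)) = fun i (n : ℕ) => cr (e i) (χ i) n := by
    funext i
    exact yr_cr (e i) (χ i)
  rw [h2]
  exact h1

end Pool.Agent.H474.SYM
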