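import Mathlib

/-!
# Summation by parts against a fixed smooth weight
-/

set_option autoImplicit false
set_option linter.unusedSectionVars false

open Complex MeasureTheory Set

namespace Pool.Agent.H474.SYM

/-- the weight -/
noncomputable def Pm (x : ℝ) : ℝ := (x - 1 / 4) * (3 / 4 - x)

lemma Pm_nn {x : ℝ} (h1 : 1 / 4 ≤ x) (h2 : x ≤ 3 / 4) : 0 ≤ Pm x :=
  mul_nonneg (by linarith) (by linarith)

lemma Pm_le (x : ℝ) : Pm x ≤ 1 / 16 := by
  unfold Pm; nlinarith [sq_nonneg (x - 1 / 2)]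

/-- the weight on the integers -/
noncomputable def Wt (L τ t : ℝ) : ℂ := ((Pm (Real.log t / L) / t : ℝ) : ℂ) * cexp (-(I * τ * Real.log t))

/-- its derivative -/
noncomputable def Wt' (L τ t : ℝ) : ℂ :=
  (((1 - 2 * (Real.log t / L)) / L - Pm (Real.log t / L)) / t ^ 2 : ℝ) * cexp (-(I * τ * Real.log t)) +
    ((Pm (Real.log t / L) / t : ℝ) : ℂ) * (-(I * τ) * (t : ℂ)⁻¹ * cexp (-(I * τ * Real.log t)))

lemma Wt_deriv {L : ℝ} (hL : 0 < L) (τ : ℝ) {t : ℝ} (ht : 0 < t) : HasDerivAt (Wt L τ) (Wt' L τ t) t := by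
  have h1 : HasDerivAt (fun t : ℝ => Real.log t / L) (t⁻¹ / L) t := (Real.hasDerivAt_log ht.ne').div_const L
  have h2 : HasDerivAt (fun t : ℝ => Pm (Real.log t / L) / t)
      (((1 - 2 * (Real.log t / L)) / L - Pm (Real.log t / L)) / t ^ 2) t := by
    unfold Pm
    have h3 := ((h1.sub_const (1 / 4)).mul (h1.const_sub (3 / 4))).div (hasDerivAt_id t) ht.ne'
    refine h3.congr_deriv ?_
    simp only [id, Pi.mul_apply]
    field_simp
    ring
  have h4 : HasDerivAt (fun t : ℝ => ((Pm (Real.log t / L) / t : ℝ) : ℂ))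
      ((((1 - 2 * (Real.log t / L)) / L - Pm (Real.log t / L)) / t ^ 2 : ℝ) : ℂ) t := h2.ofReal_comp
  have h5 : HasDerivAt (fun t : ℝ => ((Real.log t : ℝ) : ℂ)) ((t⁻¹ : ℝ) : ℂ) t :=
    (Real.hasDerivAt_log ht.ne').ofReal_comp
  have h6 : HasDerivAt (fun t : ℝ => cexp (-(I * τ * Real.log t)))
      (cexp (-(I * τ * Real.log t)) * (-(I * τ * ((t⁻¹ : ℝ) : ℂ)))) t :=
    ((h5.const_mul (I * τ)).neg).cexp
  have h7 := h4.mul h6
  unfold Wt Wt'
  refine h7.congr_deriv ?_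
  push_cast
  ring

lemma Wt_cont {L : ℝ} (τ : ℝ) {a b : ℝ} (ha : 0 < a) : ContinuousOn (Wt' L τ) (Icc a b) := by
  have h1 : ContinuousOn (fun t : ℝ => Real.log t) (Icc a b) :=
    Real.continuousOn_log.mono fun t ht => (ha.trans_le ht.1).ne'
  have h2 : ∀ t ∈ Icc a b, t ≠ 0 := fun t ht => (ha.trans_le ht.1).ne'
  have h2' : ∀ t ∈ Icc a b, (t : ℂ) ≠ 0 := fun t ht => by
    exact_mod_cast h2 t ht
  have h3 : ContinuousOn (fun t : ℝ => cexp (-(I * τ * Real.log t))) (Icc a b) := by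
    refine Complex.continuous_exp.comp_continuousOn ?_
    exact (continuousOn_const.mul (Complex.continuous_ofReal.comp_continuousOn h1)).neg
  have h4 : ContinuousOn (fun t : ℝ => Pm (Real.log t / L)) (Icc a b) := by
    unfold Pm
    exact ((h1.div_const L).sub continuousOn_const).mul (continuousOn_const.sub (h1.div_const L))
  unfold Wt'
  refine ContinuousOn.add ?_ ?_
  · refine ContinuousOn.mul (Complex.continuous_ofReal.comp_continuousOn ?_) h3
    refine ContinuousOn.div ?_ (by fun_prop) fun t ht => pow_ne_zero 2 (h2 t ht)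
    exact ((continuousOn_const.sub (continuousOn_const.mul (h1.div_const L))).div_const L).sub h4
  · refine ContinuousOn.mul (Complex.continuous_ofReal.comp_continuousOn
      (h4.div continuousOn_id h2)) ?_
    refine ContinuousOn.mul (ContinuousOn.mul continuousOn_const ?_) h3
    exact Complex.continuous_ofReal.continuousOn.inv₀ h2'

lemma Wt'_le {L : ℝ} (hL : 1 ≤ L) (τ : ℝ) {t : ℝ} (h1 : Real.exp (L / 4) ≤ t) (h2 : t ≤ Real.exp (3 * L / 4)) :
    ‖Wt' L τ t‖ ≤ (1 + |τ|) / t ^ 2 := by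
  have ht : 0 < t := (Real.exp_pos _).trans_le h1
  have hL0 : 0 < L := by linarith
  have hl1 : L / 4 ≤ Real.log t := (Real.le_log_iff_exp_le ht).2 h1
  have hl2 : Real.log t ≤ 3 * L / 4 := (Real.log_le_iff_le_exp ht).2 h2
  have hx1 : 1 / 4 ≤ Real.log t / L := by rw [le_div_iff₀ hL0]; linarith
  have hx2 : Real.log t / L ≤ 3 / 4 := by rw [div_le_iff₀ hL0]; linarith
  set x := Real.log t / L with hx
  have hP0 := Pm_nn hx1 hx2
  have hP1 := Pm_le x
  have he : ‖cexp (-(I * τ * Real.log t))‖ = 1 := by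
    have : -(I * τ * Real.log t) = ((-(τ * Real.log t) : ℝ) : ℂ) * I := by push_cast; ring
    rw [this, Complex.norm_exp_ofReal_mul_I]
  unfold Wt'
  rw [← hx]
  refine (norm_add_le _ _).trans ?_
  rw [norm_mul, he, mul_one, Complex.norm_real, norm_mul, Complex.norm_real, norm_mul, he, mul_one, norm_mul,
    norm_neg, norm_mul, Complex.norm_I, one_mul, norm_inv, Complex.norm_real, Complex.norm_real,
    Real.norm_eq_abs, Real.norm_eq_abs, Real.norm_eq_abs, Real.norm_eq_abs, abs_of_pos ht, abs_div, abs_div,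
    abs_of_pos ht, abs_of_nonneg hP0, abs_of_pos (by positivity : 0 < t ^ 2)]
  have h3 : |(1 - 2 * x) / L - Pm x| ≤ 1 := by
    have h4 : |(1 - 2 * x) / L| ≤ 1 / 2 := by
      rw [abs_div, abs_of_pos hL0, div_le_iff₀ hL0]
      have : |1 - 2 * x| ≤ 1 / 2 := by rw [abs_le]; constructor <;> linarith
      linarith
    have h5 := abs_sub ((1 - 2 * x) / L) (Pm x)
    rw [abs_of_nonneg hP0] at h5
    linarith
  have h6 : |(1 - 2 * x) / L - Pm x| / t ^ 2 ≤ 1 / t ^ 2 := div_le_div_of_nonneg_right h3 (by positivity)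
  have h7 : Pm x / t * (|τ| * t⁻¹) = (Pm x * |τ|) / t ^ 2 := by field_simp
  have h8 : (Pm x * |τ|) / t ^ 2 ≤ |τ| / t ^ 2 := by
    refine div_le_div_of_nonneg_right ?_ (by positivity)
    have := abs_nonneg τ
    nlinarith
  rw [h7, add_div]
  linarith

lemma Wt_end1 {L : ℝ} (hL : 0 < L) (τ : ℝ) : Wt L τ (Real.exp (L / 4)) = 0 := by
  unfold Wt Pm
  rw [Real.log_exp]
  have : L / 4 / L = 1 / 4 := by field_simp
  rw [this]; simp

lemma Wt_end2 {L : ℝ} (hL : 0 < L) (τ : ℝ) : Wt L τ (Real.exp (3 * L / 4)) = 0 := by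
  unfold Wt Pm
  rw [Real.log_exp]
  have : 3 * L / 4 / L = 3 / 4 := by field_simp
  rw [this]; simp

/-- the main term -/
noncomputable def Mx (L τ : ℝ) : ℂ := ∫ x in (1 / 4 : ℝ)..(3 / 4), ((Pm x : ℝ) : ℂ) * cexp (-(I * τ * (L * x : ℝ)))

lemma Mx_eq {L : ℝ} (hL : 0 < L) (τ : ℝ) :
    ∫ t in (Real.exp (L / 4))..(Real.exp (3 * L / 4)), Wt L τ t = L * Mx L τ := by
  have hd : ∀ x ∈ uIcc (1 / 4 : ℝ) (3 / 4), HasDerivAt (fun x : ℝ => Real.exp (L * x))
      (Real.exp (L * x) * L) x := by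
    intro x _
    have := ((hasDerivAt_id x).const_mul L).exp
    simpa using this
  have hc : ContinuousOn (fun x : ℝ => Real.exp (L * x) * L) (uIcc (1 / 4 : ℝ) (3 / 4)) := by fun_prop
  have hg : ContinuousOn (Wt L τ) ((fun x : ℝ => Real.exp (L * x)) '' uIcc (1 / 4 : ℝ) (3 / 4)) := by
    rintro t ⟨x, -, rfl⟩
    exact (Wt_deriv hL τ (Real.exp_pos _)).continuousAt.continuousWithinAt
  have h := intervalIntegral.integral_deriv_smul_comp' hd hc hg
  have e1 : L * (1 / 4) = L / 4 := by ring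
  have e2 : L * (3 / 4) = 3 * L / 4 := by ring
  rw [e1, e2] at h
  rw [← h]
  unfold Mx
  rw [← intervalIntegral.integral_const_mul]
  refine intervalIntegral.integral_congr fun x _ => ?_
  simp only [Function.comp]
  unfold Wt
  rw [Real.log_exp]
  have e3 : L * x / L = x := by field_simp
  rw [e3, Complex.real_smul]
  have h0 : ((Real.exp (L * x) : ℝ) : ℂ) ≠ 0 := by
    rw [Ne, Complex.ofReal_eq_zero]; exact (Real.exp_pos _).ne'
  push_cast at h0 ⊢
  field_simp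

/-- the main term is small for large frequencies -/
lemma Mx_le {L : ℝ} (hL : 0 < L) {τ : ℝ} (hτ : τ ≠ 0) : ‖Mx L τ‖ ≤ 1 / (L * |τ|) := by
  set ω := τ * L with hω
  have hω0 : ω ≠ 0 := mul_ne_zero hτ hL.ne'
  have hωc : (-(I * ω) : ℂ) ≠ 0 := by
    rw [neg_ne_zero]
    exact mul_ne_zero I_ne_zero (by exact_mod_cast hω0)
  have e0 : ∀ x : ℝ, (-(I * τ * (L * x : ℝ)) : ℂ) = -(I * ω) * x := by
    intro x; rw [hω]; push_cast; ring
  unfold Mx
  simp_rw [e0]
  have hu : ∀ x ∈ uIcc (1 / 4 : ℝ) (3 / 4), HasDerivAt (fun x : ℝ => ((Pm x : ℝ) : ℂ)) ((1 - 2 * x : ℝ) : ℂ) x := by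
    intro x _
    have h1 : HasDerivAt Pm (1 - 2 * x) x := by
      unfold Pm
      have := ((hasDerivAt_id x).sub_const (1 / 4)).mul ((hasDerivAt_id x).const_sub (3 / 4))
      refine this.congr_deriv ?_
      simp only [id]
      ring
    exact h1.ofReal_comp
  have hv : ∀ x ∈ uIcc (1 / 4 : ℝ) (3 / 4), HasDerivAt (fun x : ℝ => cexp (-(I * ω) * x) / (-(I * ω)))
      (cexp (-(I * ω) * x)) x := by
    intro x _
    have h1 : HasDerivAt (fun x : ℝ => (-(I * ω) * x : ℂ)) (-(I * ω)) x := by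
      have := (Complex.ofRealCLM.hasDerivAt (x := x)).const_mul (-(I * ω) : ℂ)
      simpa using this
    have h2 := h1.cexp.div_const (-(I * ω) : ℂ)
    refine h2.congr_deriv ?_
    exact mul_div_cancel_right₀ _ hωc
  have hi1 : IntervalIntegrable (fun x : ℝ => ((1 - 2 * x : ℝ) : ℂ)) volume (1 / 4) (3 / 4) :=
    Continuous.intervalIntegrable (by fun_prop) _ _
  have hi2 : IntervalIntegrable (fun x : ℝ => cexp (-(I * ω) * x)) volume (1 / 4) (3 / 4) :=
    Continuous.intervalIntegrable (by fun_prop) _ _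
  rw [intervalIntegral.integral_mul_deriv_eq_deriv_mul hu hv hi1 hi2]
  have e1 : Pm (3 / 4) = 0 := by unfold Pm; norm_num
  have e2 : Pm (1 / 4) = 0 := by unfold Pm; norm_num
  rw [e1, e2, Complex.ofReal_zero, zero_mul, zero_mul, sub_zero, zero_sub, norm_neg]
  have hne : ‖(-(I * ω) : ℂ)‖ = |ω| := by
    rw [norm_neg, norm_mul, Complex.norm_I, one_mul, Complex.norm_real, Real.norm_eq_abs]
  have h3 : ∀ x ∈ uIoc (1 / 4 : ℝ) (3 / 4), ‖((1 - 2 * x : ℝ) : ℂ) * (cexp (-(I * ω) * x) / (-(I * ω)))‖ ≤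
      1 / |ω| := by
    intro x hx
    rw [uIoc_of_le (by norm_num)] at hx
    rw [norm_mul, norm_div, hne, Complex.norm_real, Real.norm_eq_abs]
    have h4 : ‖cexp (-(I * ω) * x)‖ = 1 := by
      have : (-(I * ω) * x : ℂ) = ((-(ω * x) : ℝ) : ℂ) * I := by push_cast; ring
      rw [this, Complex.norm_exp_ofReal_mul_I]
    rw [h4]
    have h5 : |1 - 2 * x| ≤ 1 := by rw [abs_le]; constructor <;> linarith [hx.1, hx.2]
    have h6 : 0 ≤ 1 / |ω| := by positivity
    nlinarith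
  refine (intervalIntegral.norm_integral_le_of_norm_le_const h3).trans ?_
  have h4 : |(3 / 4 : ℝ) - 1 / 4| ≤ 1 := by rw [abs_le]; constructor <;> norm_num
  have h5 : 1 / |ω| = 1 / (L * |τ|) := by rw [hω, abs_mul, abs_of_pos hL, mul_comm]
  rw [h5]
  have h6 : 0 ≤ 1 / (L * |τ|) := by positivity
  nlinarith

/-- **summation by parts** -/
theorem abel_W {L : ℝ} (hL : 1 ≤ L) (τ : ℝ) (c : ℕ → ℂ) (δ : ℂ) {M : ℝ}
    (hM : ∀ t ∈ Icc (Real.exp (L / 4)) (Real.exp (3 * L / 4)),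
      ‖(∑ k ∈ Finset.Icc 0 ⌊t⌋₊, c k) - δ * t‖ ≤ M * t) :
    ‖(∑ k ∈ Finset.Ioc ⌊Real.exp (L / 4)⌋₊ ⌊Real.exp (3 * L / 4)⌋₊, Wt L τ k * c k) - δ * (L * Mx L τ)‖ ≤
      M * (1 + |τ|) * L := by
  have hL0 : 0 < L := by linarith
  set a := Real.exp (L / 4) with ha
  set b := Real.exp (3 * L / 4) with hb
  have ha0 : 0 < a := Real.exp_pos _
  have hab : a ≤ b := Real.exp_le_exp.2 (by linarith)
  have hder : ∀ t ∈ Icc a b, deriv (Wt L τ) t = Wt' L τ t := fun t ht =>
    (Wt_deriv hL0 τ (ha0.trans_le ht.1)).deriv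
  have hcont := Wt_cont (L := L) τ (b := b) ha0
  have hint : IntegrableOn (deriv (Wt L τ)) (Icc a b) :=
    (hcont.integrableOn_Icc).congr_fun (fun t ht => (hder t ht).symm) measurableSet_Icc
  have hS := sum_mul_eq_sub_sub_integral_mul c ha0.le hab
    (fun t ht => (Wt_deriv hL0 τ (ha0.trans_le ht.1)).differentiableAt) hint
  rw [Wt_end1 hL0, Wt_end2 hL0, zero_mul, zero_mul, sub_zero, zero_sub] at hS
  rw [hS]
  -- integration by parts
  have hP : ∫ t in a..b, deriv (Wt L τ) t * (t : ℂ) = -(L * Mx L τ) := by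
    have h1 := intervalIntegral.integral_mul_deriv_eq_deriv_mul (a := a) (b := b)
      (u := fun t : ℝ => (t : ℂ)) (v := Wt L τ) (u' := fun _ => 1) (v' := deriv (Wt L τ))
      (fun t _ => Complex.ofRealCLM.hasDerivAt) (fun t ht => by
        rw [uIcc_of_le hab] at ht
        rw [hder t ht]
        exact Wt_deriv hL0 τ (ha0.trans_le ht.1)) intervalIntegrable_const
      ((intervalIntegrable_iff_integrableOn_Icc_of_le hab).2 hint)
    rw [Wt_end1 hL0, Wt_end2 hL0, mul_zero, mul_zero, sub_zero, zero_sub] at h1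
    simp only [one_mul] at h1
    rw [Mx_eq hL0] at h1
    rw [← h1]
    exact intervalIntegral.integral_congr fun t _ => mul_comm _ _
  have hi1 : IntegrableOn (fun t : ℝ => deriv (Wt L τ) t * ∑ k ∈ Finset.Icc 0 ⌊t⌋₊, c k) (Icc a b) :=
    integrableOn_mul_sum_Icc c ha0.le hint
  have hi2 : IntegrableOn (fun t : ℝ => deriv (Wt L τ) t * (δ * (t : ℂ))) (Icc a b) := by
    have : ContinuousOn (fun t : ℝ => Wt' L τ t * (δ * (t : ℂ))) (Icc a b) :=
      hcont.mul (by fun_prop)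
    refine this.integrableOn_Icc.congr_fun (fun t ht => ?_) measurableSet_Icc
    rw [hder t ht]
  have hkey : -(∫ t in Ioc a b, deriv (Wt L τ) t * ∑ k ∈ Finset.Icc 0 ⌊t⌋₊, c k) - δ * (L * Mx L τ) =
      -(∫ t in Ioc a b, deriv (Wt L τ) t * ((∑ k ∈ Finset.Icc 0 ⌊t⌋₊, c k) - δ * t)) := by
    have h2 : ∫ t in Ioc a b, deriv (Wt L τ) t * (δ * (t : ℂ)) = -(δ * (L * Mx L τ)) := by
      rw [← intervalIntegral.integral_of_le hab]
      have h3 : ∀ t : ℝ, deriv (Wt L τ) t * (δ * (t : ℂ)) = δ * (deriv (Wt L τ) t * (t : ℂ)) := by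
        intro t; ring
      simp_rw [h3]
      rw [intervalIntegral.integral_const_mul, hP]
      ring
    simp_rw [mul_sub]
    rw [integral_sub (hi1.mono_set Ioc_subset_Icc_self) (hi2.mono_set Ioc_subset_Icc_self), h2]
    ring
  rw [hkey, norm_neg, ← intervalIntegral.integral_of_le hab]
  have hM0 : 0 ≤ M := by
    have h1 := (norm_nonneg _).trans (hM a ⟨le_rfl, hab⟩)
    exact nonneg_of_mul_nonneg_left h1 ha0
  have hbd : ∀ t ∈ Ioc a b, ‖deriv (Wt L τ) t * ((∑ k ∈ Finset.Icc 0 ⌊t⌋₊, c k) - δ * t)‖ ≤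
      M * (1 + |τ|) * t⁻¹ := by
    intro t ht
    have ht' : t ∈ Icc a b := ⟨ht.1.le, ht.2⟩
    have ht0 : 0 < t := ha0.trans_le ht'.1
    rw [norm_mul, hder t ht']
    calc ‖Wt' L τ t‖ * _ ≤ (1 + |τ|) / t ^ 2 * (M * t) :=
          mul_le_mul (Wt'_le hL τ ht'.1 ht'.2) (hM t ht') (norm_nonneg _) (by positivity)
      _ = _ := by field_simp
  refine (intervalIntegral.norm_integral_le_of_norm_le hab (ae_of_all _ hbd) ?_).trans ?_
  · refine ((intervalIntegral.intervalIntegrable_inv (fun t ht => ?_) continuousOn_id).const_mul _)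
    rw [uIcc_of_le hab] at ht
    exact (ha0.trans_le ht.1).ne'
  · rw [intervalIntegral.integral_const_mul, integral_inv_of_pos ha0 (ha0.trans_le hab),
      Real.log_div (Real.exp_pos _).ne' (Real.exp_pos _).ne', Real.log_exp, Real.log_exp]
    have h1 : 0 ≤ M * (1 + |τ|) := by positivity
    have h2 : 3 * L / 4 - L / 4 ≤ L := by linarith
    exact mul_le_mul_of_nonneg_left h2 h1

end Pool.Agent.H474.SYM
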