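import Pool.Agent.H474.SHP.Lo3

/-!
# The `L¹` norm of a Dirichlet polynomial on an interval around zero
-/

set_option autoImplicit false
set_option linter.unusedSectionVars false

open Complex MeasureTheory Set
open scoped ComplexConjugate Convolution

namespace Pool.Agent.H474.SYM

open Pool.Agent.H474.SHP

section

variable {N : ℕ} (hN : 1 ≤ N) (v0 : ℝ) (c : ℕ → ℂ) {H : ℝ} (hH : 0 < H)

include hN hH

/-- **The `L¹` norm** -/
theorem l1_loc {S A E : ℝ} (hS : S = v0 ^ 2 + 1 / 2 * ∑ p ∈ Pr N, ‖c p‖ ^ 2)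
    (hA : A = |v0| + ∑ p ∈ Pr N, ‖c p‖)
    (hE : E = Real.exp (-(H ^ 2 * (1 / (2 * (N : ℝ) ^ 2)) ^ 2) / 4)) {r : ℝ} (hr : 0 < r)
    {T1 T2 κ : ℝ} (hκ : 0 ≤ κ) (hT : 2 * (κ * H) ≤ T2 - T1) :
    (T2 - T1 - 2 * (κ * H)) * (3 / 2 * (S - A ^ 2 * E) / r - 1 / 2 * (3 * S ^ 2 + A ^ 4 * E) / r ^ 3 -
      2 * A * Real.exp (-κ ^ 2 / 2)) ≤ ∫ s in T1..T2, |vv N v0 c s| := by
  have hT0 : 0 ≤ T2 - T1 := le_trans (by positivity) hT
  set P := Real.sqrt Real.pi * H with hP
  have hP0 : 0 < P := by positivity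
  set X := 3 / 2 * (S - A ^ 2 * E) / r - 1 / 2 * (3 * S ^ 2 + A ^ 4 * E) / r ^ 3 -
      2 * A * Real.exp (-κ ^ 2 / 2) with hX
  have hA0 : 0 ≤ A := by
    rw [hA]; exact add_nonneg (abs_nonneg _) (Finset.sum_nonneg fun _ _ => norm_nonneg _)
  set J := Ioc T1 T2 with hJ
  have hJm : MeasurableSet J := measurableSet_Ioc
  set G : ℝ → ℝ := J.indicator fun s => |vv N v0 c s| with hG
  set g : ℝ → ℝ := fun y => gk H 0 y with hg
  have hGint : Integrable G := by
    rw [hG, integrable_indicator_iff hJm]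
    exact ((vv_cont N v0 c).abs.integrableOn_Icc).mono_set Ioc_subset_Icc_self
  have hgint : Integrable g := (gk_int H 0 hH).1
  have hgI : ∫ y, g y = P := (gk_int H 0 hH).2
  have hGI : ∫ s, G s = ∫ s in T1..T2, |vv N v0 c s| := by
    rw [hG, integral_indicator hJm, intervalIntegral.integral_of_le (by linarith)]
  set L := ContinuousLinearMap.mul ℝ ℝ with hL
  have hconv := integral_convolution (μ := volume) (ν := volume) L hGint hgint
  have hcint : Integrable (G ⋆[L, volume] g) := hGint.integrable_convolution L hgint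
  have hcval : ∀ x, (G ⋆[L, volume] g) x = ∫ s in J, gk H x s * |vv N v0 c s| := by
    intro x
    rw [convolution_def, ← integral_indicator hJm]
    refine integral_congr_ae (ae_of_all _ fun s => ?_)
    simp only [hL, ContinuousLinearMap.mul_apply', hG]
    by_cases hs : s ∈ J
    · rw [indicator_of_mem hs, indicator_of_mem hs, mul_comm]
      congr 1
      simp only [hg, gk]
      congr 2
      ring
    · rw [indicator_of_notMem hs, indicator_of_notMem hs, zero_mul]
  have hc0 : ∀ x, 0 ≤ (G ⋆[L, volume] g) x := by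
    intro x
    rw [hcval]
    exact setIntegral_nonneg hJm fun s _ => mul_nonneg (gk_pos H x s).le (abs_nonneg _)
  -- local bound
  have hloc : ∀ x ∈ Icc (T1 + κ * H) (T2 - κ * H), P * X ≤ (G ⋆[L, volume] g) x := by
    intro x hx
    rw [hcval]
    have h1 := loc_low hN v0 c hH x hS hA hE hr
    have hi1 : Integrable (fun s : ℝ => gk H x s * |vv N v0 c s|) := by
      refine (gk_int H x hH).1.mul_bdd (c := A) (vv_cont N v0 c).abs.aestronglyMeasurable ?_
      refine ae_of_all _ fun s => ?_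
      rw [Real.norm_eq_abs, abs_abs, hA]
      exact vv_le N v0 c s
    rw [← integral_add_compl hJm hi1] at h1
    have h2 : ∫ s in Jᶜ, gk H x s * |vv N v0 c s| ≤ P * (2 * A * Real.exp (-κ ^ 2 / 2)) := by
      have hH2 : 0 < Real.sqrt 2 * H := by positivity
      have hi2 : Integrable (fun s : ℝ => A * Real.exp (-κ ^ 2 / 2) * gk (Real.sqrt 2 * H) x s) :=
        (gk_int _ x hH2).1.const_mul _
      have h3 : ∫ s in Jᶜ, gk H x s * |vv N v0 c s| ≤
          ∫ s in Jᶜ, A * Real.exp (-κ ^ 2 / 2) * gk (Real.sqrt 2 * H) x s := by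
        refine setIntegral_mono_on hi1.integrableOn hi2.integrableOn hJm.compl fun s hs => ?_
        have h4 : κ * H ≤ |s - x| := by
          by_contra hlt
          push Not at hlt
          obtain ⟨a1, a2⟩ := abs_lt.1 hlt
          exact hs ⟨by linarith [hx.1], by linarith [hx.2]⟩
        have h5 : gk H x s ≤ Real.exp (-κ ^ 2 / 2) * gk (Real.sqrt 2 * H) x s := by
          unfold gk
          rw [← Real.exp_add]
          apply Real.exp_le_exp.2
          have h6 : (κ * H) ^ 2 ≤ (s - x) ^ 2 := by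
            rw [← sq_abs (s - x)]
            exact pow_le_pow_left₀ (by positivity) h4 2
          have h7 : κ ^ 2 ≤ (s - x) ^ 2 / H ^ 2 := by
            rw [le_div_iff₀ (by positivity)]
            calc κ ^ 2 * H ^ 2 = (κ * H) ^ 2 := by ring
              _ ≤ _ := h6
          have h8 : -(s - x) ^ 2 / (Real.sqrt 2 * H) ^ 2 = -((s - x) ^ 2 / H ^ 2) / 2 := by
            rw [mul_pow, Real.sq_sqrt (by norm_num)]
            field_simp
          rw [h8]
          have h9 : -(s - x) ^ 2 / H ^ 2 = -((s - x) ^ 2 / H ^ 2) := by ring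
          rw [h9]
          linarith
        calc gk H x s * |vv N v0 c s| ≤ (Real.exp (-κ ^ 2 / 2) * gk (Real.sqrt 2 * H) x s) * A := by
              refine mul_le_mul h5 ?_ (abs_nonneg _) ?_
              · rw [hA]; exact vv_le N v0 c s
              · exact mul_nonneg (Real.exp_pos _).le (gk_pos _ _ _).le
          _ = _ := by ring
      refine h3.trans ?_
      have h4 : ∫ s in Jᶜ, A * Real.exp (-κ ^ 2 / 2) * gk (Real.sqrt 2 * H) x s ≤
          ∫ s, A * Real.exp (-κ ^ 2 / 2) * gk (Real.sqrt 2 * H) x s :=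
        setIntegral_le_integral hi2 (ae_of_all _ fun s =>
          mul_nonneg (mul_nonneg hA0 (Real.exp_pos _).le) (gk_pos _ _ _).le)
      refine h4.trans ?_
      rw [integral_const_mul, (gk_int _ x hH2).2]
      have h5 : Real.sqrt 2 ≤ 2 := by
        rw [Real.sqrt_le_left (by norm_num)]; norm_num
      calc A * Real.exp (-κ ^ 2 / 2) * (Real.sqrt Real.pi * (Real.sqrt 2 * H)) =
          Real.sqrt 2 * (A * Real.exp (-κ ^ 2 / 2) * P) := by rw [hP]; ring
        _ ≤ 2 * (A * Real.exp (-κ ^ 2 / 2) * P) := by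
            refine mul_le_mul_of_nonneg_right h5 ?_
            have := Real.exp_pos (-κ ^ 2 / 2)
            positivity
        _ = _ := by ring
    have h6 : P * X = P * (3 / 2 * (S - A ^ 2 * E) / r - 1 / 2 * (3 * S ^ 2 + A ^ 4 * E) / r ^ 3) -
        P * (2 * A * Real.exp (-κ ^ 2 / 2)) := by rw [hX]; ring
    rw [h6]
    linarith
  -- integrate
  have hle : T1 + κ * H ≤ T2 - κ * H := by linarith
  have h1 : (T2 - κ * H - (T1 + κ * H)) * (P * X) ≤ ∫ x in (T1 + κ * H)..(T2 - κ * H), (G ⋆[L, volume] g) x := by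
    have h2 : ∫ _x in (T1 + κ * H)..(T2 - κ * H), P * X ≤
        ∫ x in (T1 + κ * H)..(T2 - κ * H), (G ⋆[L, volume] g) x :=
      intervalIntegral.integral_mono_on hle intervalIntegrable_const hcint.intervalIntegrable hloc
    rw [intervalIntegral.integral_const, smul_eq_mul] at h2
    exact h2
  have h2 : ∫ x in (T1 + κ * H)..(T2 - κ * H), (G ⋆[L, volume] g) x ≤ ∫ x, (G ⋆[L, volume] g) x := by
    rw [intervalIntegral.integral_of_le hle]
    exact setIntegral_le_integral hcint (ae_of_all _ hc0)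
  rw [hconv, hgI, hGI] at h2
  have h3 : L (∫ s in T1..T2, |vv N v0 c s|) P = P * ∫ s in T1..T2, |vv N v0 c s| := by
    rw [hL, ContinuousLinearMap.mul_apply']; ring
  rw [h3] at h2
  have h4 := h1.trans h2
  have h5 : (T2 - κ * H - (T1 + κ * H)) * (P * X) = P * ((T2 - T1 - 2 * (κ * H)) * X) := by ring
  rw [h5] at h4
  exact le_of_mul_le_mul_left h4 hP0

end

/-- the integral over the part outside the primes -/
lemma np_loc {N : ℕ} (dd : ℕ → ℂ) {R η : ℝ} (hR : 0 ≤ R) (hη : 0 < η)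
    (hNT : 8 * N * (1 + Real.log N) ≤ 2 * R) (hsq : ∑ n ∈ NP N, ‖dd n‖ ^ 2 ≤ η ^ 2 / 2) :
    ∫ s in (-R)..R, |(∑ n ∈ NP N, dd n * cexp (-(I * s * Real.log n))).re| ≤ η * (2 * R) := by
  set b : ℕ → ℂ := fun n => if n ∈ NP N then dd n else 0 with hb
  have hsub : NP N ⊆ Finset.Icc 1 N := by
    intro n hn
    unfold NP at hn
    obtain ⟨h3, -⟩ := Finset.mem_filter.1 hn
    obtain ⟨h5, h6⟩ := Finset.mem_Icc.1 h3
    exact Finset.mem_Icc.2 ⟨by omega, h6⟩
  have h1 : ∀ s : ℝ, ∑ n ∈ NP N, dd n * cexp (-(I * s * Real.log n)) =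
      ∑ n ∈ Finset.Icc 1 N, b n * (n : ℂ) ^ (-(s : ℂ) * I) := by
    intro s
    rw [← Finset.sum_subset hsub]
    · refine Finset.sum_congr rfl fun n hn => ?_
      simp only [hb, if_pos hn]
      have hn0 : (n : ℂ) ≠ 0 := by
        have := (Finset.mem_Icc.1 (hsub hn)).1
        exact_mod_cast (by omega : n ≠ 0)
      rw [Complex.cpow_def_of_ne_zero hn0, ← Complex.natCast_log]
      congr 2; ring
    · intro n _ hn
      simp only [hb, if_neg hn, zero_mul]
  have hmv := H370.mean_value b N (-R) R (by linarith)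
  have h2 : ∑ n ∈ Finset.Icc 1 N, ‖b n‖ ^ 2 = ∑ n ∈ NP N, ‖dd n‖ ^ 2 := by
    rw [← Finset.sum_subset hsub]
    · exact Finset.sum_congr rfl fun n hn => by simp only [hb, if_pos hn]
    · intro n _ hn
      simp only [hb, if_neg hn, norm_zero]
      norm_num
  rw [h2] at hmv
  simp_rw [← h1] at hmv
  set Q : ℝ → ℂ := fun s => ∑ n ∈ NP N, dd n * cexp (-(I * s * Real.log n)) with hQ
  have hQc : Continuous Q := by simp only [hQ]; fun_prop
  have h3 : ∫ s in (-R)..R, |(Q s).re| ≤ ∫ s in (-R)..R, (η / 2 + 1 / (2 * η) * ‖Q s‖ ^ 2) := by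
    refine intervalIntegral.integral_mono_on (by linarith) ?_ ?_ fun s _ => ?_
    · exact (Complex.continuous_re.comp hQc).abs.intervalIntegrable _ _
    · apply Continuous.intervalIntegrable; fun_prop
    · refine (abs_re_le_norm _).trans ?_
      set y := ‖Q s‖
      have h4 : η / 2 + 1 / (2 * η) * y ^ 2 - y = 1 / (2 * η) * (y - η) ^ 2 := by
        field_simp; ring
      have h5 : 0 ≤ 1 / (2 * η) * (y - η) ^ 2 := by positivity
      linarith
  refine h3.trans ?_
  rw [intervalIntegral.integral_add intervalIntegrable_const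
    (Continuous.intervalIntegrable (by fun_prop) _ _), intervalIntegral.integral_const,
    intervalIntegral.integral_const_mul, smul_eq_mul]
  have h4 : ∫ s in (-R)..R, ‖Q s‖ ^ 2 ≤ 4 * R * (η ^ 2 / 2) := by
    refine hmv.trans ?_
    refine mul_le_mul (by linarith) hsq (Finset.sum_nonneg fun _ _ => by positivity) (by linarith)
  have h5 : 1 / (2 * η) * (∫ s in (-R)..R, ‖Q s‖ ^ 2) ≤ 1 / (2 * η) * (4 * R * (η ^ 2 / 2)) :=
    mul_le_mul_of_nonneg_left h4 (by positivity)
  have h6 : 1 / (2 * η) * (4 * R * (η ^ 2 / 2)) = η * R := by field_simp; ring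
  have h7 : (R - -R) * (η / 2) = η * R := by ring
  rw [h7]
  linarith

/-- **the lower bound on an interval around zero** -/
theorem low_int {N : ℕ} (hN : 1 ≤ N) (dd : ℕ → ℂ) {S A E r κ H R η : ℝ} (hH : 0 < H)
    (hS : S = (dd 1).re ^ 2 + 1 / 2 * ∑ p ∈ Pr N, ‖dd p‖ ^ 2)
    (hA : A = |(dd 1).re| + ∑ p ∈ Pr N, ‖dd p‖)
    (hE : E = Real.exp (-(H ^ 2 * (1 / (2 * (N : ℝ) ^ 2)) ^ 2) / 4)) (hr : 0 < r)
    (hκ : 0 ≤ κ) (hR : κ * H ≤ R) (hη : 0 < η) (hNR : 8 * N * (1 + Real.log N) ≤ 2 * R)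
    (hsq : ∑ n ∈ NP N, ‖dd n‖ ^ 2 ≤ η ^ 2 / 2) :
    (2 * R - 2 * (κ * H)) * (3 / 2 * (S - A ^ 2 * E) / r - 1 / 2 * (3 * S ^ 2 + A ^ 4 * E) / r ^ 3 -
      2 * A * Real.exp (-κ ^ 2 / 2)) - η * (2 * R) ≤
    ∫ s in (-R)..R, |(∑ n ∈ Finset.Icc 1 N, dd n * cexp (-(I * s * Real.log n))).re| := by
  have hR0 : 0 ≤ R := le_trans (by positivity) hR
  have h1 := l1_loc hN (dd 1).re dd hH hS hA hE hr (T1 := -R) (T2 := R) hκ (by linarith)
  have h2 := np_loc dd hR0 hη hNR hsq
  have e : R - -R - 2 * (κ * H) = 2 * R - 2 * (κ * H) := by ring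
  rw [e] at h1
  set Q : ℝ → ℝ := fun s => (∑ n ∈ NP N, dd n * cexp (-(I * s * Real.log n))).re with hQ
  have hQc : Continuous Q := by
    simp only [hQ]
    exact Complex.continuous_re.comp (by fun_prop)
  have hvc := vv_cont N (dd 1).re dd
  have hsp : ∫ s in (-R)..R, (|vv N (dd 1).re dd s| - |Q s|) ≤ ∫ s in (-R)..R,
      |(∑ n ∈ Finset.Icc 1 N, dd n * cexp (-(I * s * Real.log n))).re| := by
    refine intervalIntegral.integral_mono_on (by linarith) ?_ ?_ fun s _ => ?_
    · exact (hvc.abs.sub hQc.abs).intervalIntegrable _ _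
    · apply Continuous.intervalIntegrable
      have : Continuous fun s : ℝ => (∑ n ∈ Finset.Icc 1 N, dd n * cexp (-(I * s * Real.log n))) := by
        fun_prop
      exact (Complex.continuous_re.comp this).abs
    · rw [split_dz hN dd s]
      have := abs_sub_abs_le_abs_sub (vv N (dd 1).re dd s) (-Q s)
      rw [abs_neg, sub_neg_eq_add] at this
      exact this
  rw [intervalIntegral.integral_sub (hvc.abs.intervalIntegrable _ _) (hQc.abs.intervalIntegrable _ _)] at hsp
  linarith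

end Pool.Agent.H474.SYM
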