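import Pool.Agent.H474.SYM.Grm
import Pool.Agent.H474.SYM.Loc
import Pool.Agent.H474.SHP.Sh2c

/-!
# The first absolute moment of the Dirichlet polynomial in a short interval
-/

set_option autoImplicit false
set_option linter.unusedSectionVars false

open Complex MeasureTheory Set Filter Topology
open scoped ComplexConjugate
open Pool.Agent.helper24_UT (CM tw)
open Pool.Agent.H474.SHP
open Pool.Agent.Y772.ND (Wz dz ev_exp)
open H385 (Rw)
open scoped ArithmeticFunction.vonMangoldt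

namespace Pool.Agent.H474.SYM

/-- the error terms -/
lemma err_bd' {A E r r0 κ δ a0 S : ℝ} (hr0 : 0 < r0) (hr : r0 ≤ r) (hA0 : 0 ≤ A) (hA : A ≤ a0 * Real.exp κ)
    (hE0 : 0 ≤ E) (hE : E ≤ Real.exp (-(6 * κ))) (hκ : 4 ≤ κ) (ha0 : 0 ≤ a0)
    (hT : 3 / 2 / r0 * a0 ^ 2 + 1 / 2 / r0 ^ 3 * a0 ^ 4 + 2 * a0 ≤ δ * Real.exp κ) (hrS : r ^ 2 = 3 * S) :
    r / 3 - δ ≤ 3 / 2 * (S - A ^ 2 * E) / r - 1 / 2 * (3 * S ^ 2 + A ^ 4 * E) / r ^ 3 -
      2 * A * Real.exp (-κ ^ 2 / 2) := by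
  have hrp : 0 < r := by linarith
  have hS : S = r ^ 2 / 3 := by linarith
  have e1 : 3 / 2 * (S - A ^ 2 * E) / r - 1 / 2 * (3 * S ^ 2 + A ^ 4 * E) / r ^ 3 =
      r / 3 - 3 / 2 / r * (A ^ 2 * E) - 1 / 2 / r ^ 3 * (A ^ 4 * E) := by
    rw [hS]; field_simp; ring
  rw [e1]
  have x2 : A ^ 2 * E ≤ a0 ^ 2 * Real.exp (-κ) := by
    have h1 : A ^ 2 ≤ (a0 * Real.exp κ) ^ 2 := pow_le_pow_left₀ hA0 hA 2
    calc A ^ 2 * E ≤ (a0 * Real.exp κ) ^ 2 * Real.exp (-(6 * κ)) := by gcongr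
      _ = a0 ^ 2 * (Real.exp κ * Real.exp κ * Real.exp (-(6 * κ))) := by ring
      _ = a0 ^ 2 * Real.exp (κ + κ + -(6 * κ)) := by rw [← Real.exp_add, ← Real.exp_add]
      _ ≤ _ := mul_le_mul_of_nonneg_left (Real.exp_le_exp.2 (by linarith)) (sq_nonneg _)
  have x4 : A ^ 4 * E ≤ a0 ^ 4 * Real.exp (-κ) := by
    have h1 : A ^ 4 ≤ (a0 * Real.exp κ) ^ 4 := pow_le_pow_left₀ hA0 hA 4
    calc A ^ 4 * E ≤ (a0 * Real.exp κ) ^ 4 * Real.exp (-(6 * κ)) := by gcongr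
      _ = a0 ^ 4 * (Real.exp κ * Real.exp κ * Real.exp κ * Real.exp κ * Real.exp (-(6 * κ))) := by ring
      _ = a0 ^ 4 * Real.exp (κ + κ + κ + κ + -(6 * κ)) := by
        rw [← Real.exp_add, ← Real.exp_add, ← Real.exp_add, ← Real.exp_add]
      _ ≤ _ := mul_le_mul_of_nonneg_left (Real.exp_le_exp.2 (by linarith)) (by positivity)
  have x1 : A * Real.exp (-κ ^ 2 / 2) ≤ a0 * Real.exp (-κ) := by
    calc A * Real.exp (-κ ^ 2 / 2) ≤ a0 * Real.exp κ * Real.exp (-κ ^ 2 / 2) := by gcongr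
      _ = a0 * Real.exp (κ + -κ ^ 2 / 2) := by rw [mul_assoc, ← Real.exp_add]
      _ ≤ _ := mul_le_mul_of_nonneg_left (Real.exp_le_exp.2 (by nlinarith)) ha0
  have y2 : 3 / 2 / r * (A ^ 2 * E) ≤ 3 / 2 / r0 * (a0 ^ 2 * Real.exp (-κ)) := by gcongr
  have y4 : 1 / 2 / r ^ 3 * (A ^ 4 * E) ≤ 1 / 2 / r0 ^ 3 * (a0 ^ 4 * Real.exp (-κ)) := by gcongr
  have z : (3 / 2 / r0 * a0 ^ 2 + 1 / 2 / r0 ^ 3 * a0 ^ 4 + 2 * a0) * Real.exp (-κ) ≤ δ := by
    have := mul_le_mul_of_nonneg_right hT (Real.exp_pos (-κ)).le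
    rwa [mul_assoc, ← Real.exp_add, add_neg_cancel, Real.exp_zero, mul_one] at this
  have z2 : (3 / 2 / r0 * a0 ^ 2 + 1 / 2 / r0 ^ 3 * a0 ^ 4 + 2 * a0) * Real.exp (-κ) =
      3 / 2 / r0 * (a0 ^ 2 * Real.exp (-κ)) + 1 / 2 / r0 ^ 3 * (a0 ^ 4 * Real.exp (-κ)) +
        2 * (a0 * Real.exp (-κ)) := by ring
  linarith

lemma psi60 {x : ℝ} (h1 : 1 / 4 ≤ x) (h2 : x ≤ 3 / 4) : 1 / 4 ≤ ψ 60 x := by
  unfold ψ
  refine le_trans ?_ (le_max_left _ _)
  rw [tent_le1 (by linarith)]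
  set s := Real.sqrt (2 * Real.pi) with hs
  have hs2 : 2 ≤ s := by
    rw [hs]
    apply Real.le_sqrt_of_sq_le
    have := Real.pi_gt_three
    linarith
  have hexp : Real.exp (-2) ≤ 1 / 4 := by
    have h3 : (1 + 1 : ℝ) ≤ Real.exp 1 := Real.add_one_le_exp 1
    have h4 : Real.exp 2 = Real.exp 1 * Real.exp 1 := by rw [← Real.exp_add]; norm_num
    have h5 : (4 : ℝ) ≤ Real.exp 2 := by rw [h4]; nlinarith
    rw [Real.exp_neg, ← one_div]
    exact one_div_le_one_div_of_le (by norm_num) h5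
  have e1 : Real.exp (-(60 * x - 0) ^ 2 / 2) ≤ 1 / 4 := by
    refine (Real.exp_le_exp.2 ?_).trans hexp
    nlinarith
  have e2 : Real.exp (-(60 * x - 60) ^ 2 / 2) ≤ 1 / 4 := by
    refine (Real.exp_le_exp.2 ?_).trans hexp
    nlinarith
  have h3 : 3 / 2 ≤ s - s / 2 * (Real.exp (-(60 * x - 0) ^ 2 / 2) + Real.exp (-(60 * x - 60) ^ 2 / 2)) := by
    have h4 : s / 2 * (Real.exp (-(60 * x - 0) ^ 2 / 2) + Real.exp (-(60 * x - 60) ^ 2 / 2)) ≤ s / 2 * (1 / 2) := by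
      refine mul_le_mul_of_nonneg_left (by linarith) (by linarith)
    linarith
  have h4 : 1 / 4 * (3 / 2) ≤ (1 - x) * (s - s / 2 * (Real.exp (-(60 * x - 0) ^ 2 / 2) + Real.exp (-(60 * x - 60) ^ 2 / 2))) :=
    mul_le_mul (by linarith) h3 (by norm_num) (by linarith)
  linarith

section

variable {ι : Type} [Fintype ι] [DecidableEq ι] {q : ι → ℕ} {y : ι → ℕ → ℂ}

/-- the coefficients of the sum -/
noncomputable def bs (y : ι → ℕ → ℂ) (ν μ : ι → ℝ) (n : ℕ) : ℂ := (∑ i, (μ i : ℂ) * tc y ν i n) * (Λ n : ℂ)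

lemma bs_le (hF : Fam q y) (ν : ι → ℝ) {μ : ι → ℝ} (hμ : ∀ i, |μ i| ≤ 1) (n : ℕ) :
    ‖bs y ν μ n‖ ≤ (Fintype.card ι : ℝ) * Λ n := by
  unfold bs
  rw [norm_mul, Complex.norm_real, Real.norm_of_nonneg ArithmeticFunction.vonMangoldt_nonneg]
  exact mul_le_mul_of_nonneg_right (tc_sum_le hF ν hμ n) ArithmeticFunction.vonMangoldt_nonneg

/-- the size from below -/
lemma SS_low (hF : Fam q y) {γ θ θ' κ0 : ℝ} (h0 : 0 < γ) (h1γ : γ < 1) (hθ : 0 < θ) (hθθ : θ < θ')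
    (hκ0 : 0 < κ0) : ∃ c : ℝ, 0 < c ∧ ∀ᶠ T : ℝ in atTop,
    ∀ ν : ι → ℝ, (∀ i j, i ≠ j → y i = y j → κ0 / Real.log T ≤ |ν i - ν j|) →
    (∀ i j, |ν i - ν j| ≤ T ^ 2) →
    ∀ μ : ι → ℝ, (∀ i, |μ i| ≤ 1) → ∀ j0, |μ j0| = 1 → ∀ L : ℝ,
    c ≤ SS γ (θ * Real.log T) L (bs y ν μ) (NT θ' T) := by
  have hπ : γ < Real.pi := by linarith [Real.pi_gt_three]
  obtain ⟨A, hA⟩ := exists_nat_ge (2 / θ)
  obtain ⟨c, hc, h⟩ := gram_low hF (κ1 := κ0 * θ) (by positivity) A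
  have hG : 0 < 1 - γ ^ 2 := by nlinarith
  set c' := 2 / Real.pi * (1 - γ ^ 2) ^ 2 / 64 with hc'
  have hc'0 : 0 < c' := by have := Real.pi_pos; positivity
  refine ⟨1 / 2 * (c' * c), by positivity, ?_⟩
  have htθ : Tendsto (fun T : ℝ => θ * Real.log T) atTop atTop :=
    Real.tendsto_log_atTop.const_mul_atTop hθ
  filter_upwards [htθ.eventually h, htθ.eventually_ge_atTop 60, eventually_gt_atTop 1] with T h hΛ60 hT1
  intro ν hsep hbd μ hμ j0 hj0 L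
  have hκp : 0 < Real.log T := Real.log_pos hT1
  set κ := Real.log T with hκ
  have hT0 : 0 < T := by linarith
  have hTκ : T = Real.exp κ := by rw [hκ, Real.exp_log hT0]
  set Λ' := θ * κ with hΛ
  have hΛ0 : 0 < Λ' := by linarith
  have h1 := h ν (fun i j hij hy => by
    have h2 := hsep i j hij hy
    rw [div_le_iff₀ hκp] at h2
    calc κ0 * θ ≤ (|ν i - ν j| * κ) * θ := mul_le_mul_of_nonneg_right h2 hθ.le
      _ = Λ' * |ν i - ν j| := by rw [hΛ]; ring) (fun i j => by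
    refine (hbd i j).trans ?_
    rw [hTκ, ← Real.exp_nat_mul]
    apply Real.exp_le_exp.2
    rw [div_le_iff₀ hθ] at hA
    rw [hΛ]
    push_cast
    nlinarith) μ hμ j0 hj0
  set N := NT θ' T with hN
  set J := (Finset.Ioc ⌊Real.exp (Λ' / 4)⌋₊ ⌊Real.exp (3 * Λ' / 4)⌋₊).filter Nat.Prime with hJ
  have hsub : J ⊆ Pr N := by
    intro p hp
    obtain ⟨h2, h3⟩ := Finset.mem_filter.1 hp
    obtain ⟨h4, h5⟩ := Finset.mem_Ioc.1 h2
    rw [mem_Pr]
    refine ⟨h3, h5.trans ?_⟩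
    rw [hN]; unfold NT
    apply Nat.floor_le_floor
    apply Real.exp_le_exp.2
    rw [hΛ]
    nlinarith
  have hterm : ∀ p ∈ J, c' / Λ' * (ww Λ' p * ‖∑ i, (μ i : ℂ) * tc y ν i p‖ ^ 2) ≤
      ‖dz (Rw γ) Λ' L (bs y ν μ) p‖ ^ 2 := by
    intro p hp
    obtain ⟨h2, h3⟩ := Finset.mem_filter.1 hp
    obtain ⟨h4, h5⟩ := Finset.mem_Ioc.1 h2
    have hp0 : (0 : ℝ) < p := by exact_mod_cast h3.pos
    have h6 : Real.exp (Λ' / 4) < p := (Nat.floor_lt (Real.exp_pos _).le).1 h4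
    have h7 : (p : ℝ) ≤ Real.exp (3 * Λ' / 4) := (Nat.le_floor_iff (Real.exp_pos _).le).1 h5
    have hl1 : Λ' / 4 ≤ Real.log p := ((Real.lt_log_iff_exp_lt hp0).2 h6).le
    have hl2 : Real.log p ≤ 3 * Λ' / 4 := (Real.log_le_iff_le_exp hp0).2 h7
    have hx1 : 1 / 4 ≤ Real.log p / Λ' := by rw [le_div_iff₀ hΛ0]; linarith
    have hx2 : Real.log p / Λ' ≤ 3 / 4 := by rw [div_le_iff₀ hΛ0]; linarith
    have hl0 : 0 < Real.log p := by linarith
    rw [dz_sq h3.two_le]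
    have hW := Wz_ψ h0 hπ h1γ.le (by norm_num : (0:ℝ) < 60) hΛ60 hl0.le
    have hψ := psi60 hx1 hx2
    have hW1 : (1 - γ ^ 2) * (1 / 4 / Λ') ≤ Wz (Rw γ) Λ' (Real.log p) := by
      refine le_trans ?_ hW
      gcongr
    have hW2 := pow_le_pow_left₀ (by positivity) hW1 2
    set u := ‖∑ i, (μ i : ℂ) * tc y ν i p‖ ^ 2 with hu
    have hu0 : 0 ≤ u := sq_nonneg _
    have hbs : ‖bs y ν μ p‖ ^ 2 = u * Real.log p ^ 2 := by
      unfold bs
      rw [norm_mul, mul_pow, Complex.norm_real, Real.norm_eq_abs, sq_abs,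
        ArithmeticFunction.vonMangoldt_apply_prime h3]
    have hPm := Pm_le (Real.log p / Λ')
    have hPm0 := Pm_nn hx1 hx2
    rw [hbs]
    unfold ww
    rw [ArithmeticFunction.vonMangoldt_apply_prime h3]
    calc c' / Λ' * (Real.log p / p * Pm (Real.log p / Λ') * u)
        ≤ c' / Λ' * (Real.log p / p * 1 * u) := by gcongr; linarith
      _ = 2 / Real.pi * (((1 - γ ^ 2) * (1 / 4 / Λ')) ^ 2 * (u * (Λ' / 4 * Real.log p) / p)) := by
          rw [hc']; field_simp; ring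
      _ ≤ 2 / Real.pi * (((1 - γ ^ 2) * (1 / 4 / Λ')) ^ 2 * (u * (Real.log p * Real.log p) / p)) := by
          have := Real.pi_pos
          gcongr
      _ ≤ 2 / Real.pi * (Wz (Rw γ) Λ' (Real.log p) ^ 2 * (u * (Real.log p * Real.log p) / p)) := by
          have := Real.pi_pos
          gcongr
      _ = _ := by ring
  have h8 : c' * c ≤ ∑ p ∈ Pr N, ‖dz (Rw γ) Λ' L (bs y ν μ) p‖ ^ 2 := by
    calc c' * c = c' / Λ' * (c * Λ') := by field_simp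
      _ ≤ c' / Λ' * ∑ n ∈ J, ww Λ' n * ‖∑ i, (μ i : ℂ) * tc y ν i n‖ ^ 2 := by gcongr
      _ = ∑ n ∈ J, c' / Λ' * (ww Λ' n * ‖∑ i, (μ i : ℂ) * tc y ν i n‖ ^ 2) := by rw [Finset.mul_sum]
      _ ≤ ∑ p ∈ J, ‖dz (Rw γ) Λ' L (bs y ν μ) p‖ ^ 2 := Finset.sum_le_sum hterm
      _ ≤ _ := Finset.sum_le_sum_of_subset_of_nonneg hsub fun _ _ _ => sq_nonneg _
  unfold SS
  have h9 : 0 ≤ (dz (Rw γ) Λ' L (bs y ν μ) 1).re ^ 2 := sq_nonneg _
  linarith

/-- **the first absolute moment in short intervals** -/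
theorem bot_low (hF : Fam q y) {γ θ θ' κ0 h : ℝ} (h0 : 0 < γ) (h1γ : γ < 1) (hθ : 0 < θ) (hθθ : θ < θ')
    (hθ' : 4 * θ' ≤ h) (hh : h ≤ 1) (hκ0 : 0 < κ0) : ∃ c : ℝ, 0 < c ∧ ∀ᶠ T : ℝ in atTop,
    ∀ ν : ι → ℝ, (∀ i j, i ≠ j → y i = y j → κ0 / Real.log T ≤ |ν i - ν j|) →
    (∀ i j, |ν i - ν j| ≤ T ^ 2) →
    ∀ μ : ι → ℝ, (∀ i, |μ i| ≤ 1) → ∀ j0, |μ j0| = 1 → ∀ R : ℝ, T ^ h / 8 ≤ R →
    c * R ≤ ∫ s in (-R)..R, |(∑ n ∈ Finset.Icc 1 (NT θ' T), dz (Rw γ) (θ * Real.log T)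
      ((∑ i, μ i) * Real.log T) (bs y ν μ) n * cexp (-(I * s * Real.log n))).re| := by
  have hπ : γ < Real.pi := by linarith [Real.pi_gt_three]
  have hθ'0 : 0 < θ' := by linarith
  have hh0 : 0 < h := by linarith
  have hθ'1 : θ' < 1 := by linarith
  obtain ⟨c, hc, hS⟩ := SS_low hF h0 h1γ hθ hθθ hκ0
  set r0 := Real.sqrt (3 * c) with hr0d
  have hr0 : 0 < r0 := Real.sqrt_pos.2 (by positivity)
  set δ := r0 / 24 with hδd
  have hδ : 0 < δ := by positivity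
  set k := (Fintype.card ι : ℝ) with hk
  have hk0 : 0 ≤ k := Nat.cast_nonneg _
  set a0 := Gg γ ^ 2 * (k / θ) + 5 * Gg γ ^ 2 * k / θ with ha0
  have ha00 : 0 ≤ a0 := by have := sq_nonneg (Gg γ); positivity
  set η := δ ^ 2 / 2 * θ / ((5 * Gg γ ^ 2 * k) ^ 2 + 1) with hη
  have hη0 : 0 < η := by positivity
  have hηle : (5 * Gg γ ^ 2 * k) ^ 2 * (1 / θ) * η ≤ δ ^ 2 / 2 := by
    set Y := (5 * Gg γ ^ 2 * k) ^ 2 with hY
    have hY0 : 0 ≤ Y := sq_nonneg _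
    have e1 : Y * (1 / θ) * η = δ ^ 2 / 2 * (Y / (Y + 1)) := by
      rw [hη]; field_simp
    rw [e1]
    have e2 : Y / (Y + 1) ≤ 1 := by rw [div_le_one (by positivity)]; linarith
    exact mul_le_of_le_one_right (by positivity) e2
  have htθ : Tendsto (fun T : ℝ => θ * Real.log T) atTop atTop :=
    Real.tendsto_log_atTop.const_mul_atTop hθ
  have s1 := htθ.eventually (np_small (ρ := θ' / θ) (by positivity) hη0)
  have s2 := ev_exp (64 * 32 ^ 2) 3 (show 1 - h < 1 by linarith)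
  have s4 := ev_exp 64 1 (show 1 - 3 * h / 4 < 1 by linarith)
  have s5 : ∀ᶠ T : ℝ in atTop, (3 / 2 / r0 * a0 ^ 2 + 1 / 2 / r0 ^ 3 * a0 ^ 4 + 2 * a0) / δ ≤ T :=
    eventually_ge_atTop _
  have s6 := htθ.eventually_ge_atTop 5
  refine ⟨r0 / 6, by positivity, ?_⟩
  filter_upwards [hS, s1, s2, s4, s5, s6, Real.tendsto_log_atTop.eventually_ge_atTop 4,
    eventually_gt_atTop 1] with T hS s1 s2 s4 s5 s6 hκ4 hT1
  intro ν hsep hbd μ hμ j0 hj0 R hR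
  set κ := Real.log T with hκ
  have hT0 : 0 < T := by linarith
  have hTκ : T = Real.exp κ := by rw [hκ, Real.exp_log hT0]
  have hκp : 0 < κ := by linarith
  rw [pow_one] at s4
  set Λ' := θ * κ with hΛ
  set N := NT θ' T with hN
  set L := (∑ i, μ i) * κ with hL
  have hSS := hS ν hsep hbd μ hμ j0 hj0 L
  set S := SS γ Λ' L (bs y ν μ) N with hSd
  set dd := dz (Rw γ) Λ' L (bs y ν μ) with hdd
  have hN1 : 1 ≤ N := by
    rw [hN]; unfold NT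
    exact Nat.floor_pos.2 (Real.one_le_exp (mul_nonneg (by linarith) (by linarith)))
  have hN1' : (1 : ℝ) ≤ N := by exact_mod_cast hN1
  have hNe : (N : ℝ) ≤ Real.exp (θ' * κ) := by
    rw [hN]; unfold NT
    exact Nat.floor_le (Real.exp_pos _).le
  have hlogN' : Real.log N ≤ θ' * κ := by
    rw [Real.log_le_iff_le_exp (by linarith)]; exact hNe
  have hθκ : θ' * κ ≤ κ := by
    have : θ' * κ ≤ 1 * κ := mul_le_mul_of_nonneg_right hθ'1.le hκp.le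
    linarith
  have hlogN : Real.log N ≤ κ := hlogN'.trans hθκ
  have hbD := bs_le hF ν hμ
  have hLle : |L| ≤ k * κ := by
    rw [hL, abs_mul, abs_of_pos hκp]
    refine mul_le_mul_of_nonneg_right ?_ hκp.le
    refine (Finset.abs_sum_le_sum_abs _ _).trans ((Finset.sum_le_sum fun i _ => hμ i).trans (le_of_eq ?_))
    rw [Finset.sum_const, Finset.card_univ, nsmul_eq_mul, mul_one]
  set A := |(dd 1).re| + ∑ p ∈ Pr N, ‖dd p‖ with hA
  have hAup : A ≤ a0 * N := A_up h0 h1γ.le s6 hκp hθ hΛ hbD hk0 hk0 hLle hN1 hlogN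
  have hA0 : 0 ≤ A := by
    rw [hA]; exact add_nonneg (abs_nonneg _) (Finset.sum_nonneg fun _ _ => norm_nonneg _)
  have hTh : T ^ h = Real.exp (h * κ) := by
    rw [Real.rpow_def_of_pos hT0, mul_comm]
  rw [hTh] at hR
  have hRp : 0 < R := lt_of_lt_of_le (by positivity) hR
  set H := R / (2 * κ) with hH
  have hHp : 0 < H := by positivity
  set E := Real.exp (-(H ^ 2 * (1 / (2 * (N : ℝ) ^ 2)) ^ 2) / 4) with hE
  have hN2 : (N : ℝ) ^ 2 ≤ Real.exp (h / 2 * κ) := by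
    calc (N : ℝ) ^ 2 ≤ Real.exp (θ' * κ) ^ 2 := by gcongr
      _ = Real.exp (2 * θ' * κ) := by rw [← Real.exp_nat_mul]; congr 1; push_cast; ring
      _ ≤ _ := Real.exp_le_exp.2 (by nlinarith)
  have hEle : E ≤ Real.exp (-(6 * κ)) := by
    rw [hE]
    apply Real.exp_le_exp.2
    -- H/(2N²) ≥ exp(hκ/2)/(32κ)
    have h2 : Real.exp (h / 2 * κ) / (32 * κ) ≤ H * (1 / (2 * (N : ℝ) ^ 2)) := by
      have h3 : Real.exp (h * κ) = Real.exp (h / 2 * κ) * Real.exp (h / 2 * κ) := by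
        rw [← Real.exp_add]; congr 1; ring
      rw [h3] at hR
      rw [hH, mul_one_div, div_div, div_le_div_iff₀ (by positivity) (by positivity)]
      have hep := Real.exp_pos (h / 2 * κ)
      calc Real.exp (h / 2 * κ) * (2 * κ * (2 * (N : ℝ) ^ 2)) ≤
          Real.exp (h / 2 * κ) * (2 * κ * (2 * Real.exp (h / 2 * κ))) := by gcongr
        _ = (Real.exp (h / 2 * κ) * Real.exp (h / 2 * κ) / 8) * (32 * κ) := by ring
        _ ≤ R * (32 * κ) := mul_le_mul_of_nonneg_right hR (by positivity)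
    have h4 := pow_le_pow_left₀ (by positivity) h2 2
    rw [mul_pow] at h4
    have h5 : (Real.exp (h / 2 * κ) / (32 * κ)) ^ 2 = Real.exp (h * κ) / (32 ^ 2 * κ ^ 2) := by
      rw [div_pow, ← Real.exp_nat_mul, mul_pow]; congr 2; push_cast; ring
    rw [h5] at h4
    have h6 : 24 * κ ≤ Real.exp (h * κ) / (32 ^ 2 * κ ^ 2) := by
      rw [le_div_iff₀ (by positivity)]
      rw [hTκ] at s2
      have h7 : Real.exp κ = Real.exp (h * κ) * Real.exp ((1 - h) * κ) := by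
        rw [← Real.exp_add]; congr 1; ring
      rw [h7] at s2
      have h8 := le_of_mul_le_mul_right s2 (Real.exp_pos _)
      have h9 : 0 ≤ κ ^ 3 := by positivity
      nlinarith
    linarith
  have hAe : A ≤ a0 * Real.exp κ :=
    hAup.trans (mul_le_mul_of_nonneg_left (hNe.trans (Real.exp_le_exp.2 hθκ)) ha00)
  have hT' : 3 / 2 / r0 * a0 ^ 2 + 1 / 2 / r0 ^ 3 * a0 ^ 4 + 2 * a0 ≤ δ * Real.exp κ := by
    rw [← hTκ]
    rw [div_le_iff₀ hδ] at s5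
    linarith
  set r := Real.sqrt (3 * S) with hr
  have hSp : 0 < S := by linarith
  have hrS : r ^ 2 = 3 * S := Real.sq_sqrt (by positivity)
  have hr0r : r0 ≤ r := Real.sqrt_le_sqrt (by linarith)
  have herr := err_bd' hr0 hr0r hA0 hAe (Real.exp_pos _).le hEle hκ4 ha00 hT' hrS
  have hsm := s1 N (by
    rw [div_mul_eq_mul_div, le_div_iff₀ hθ, hΛ]
    calc Real.log N * θ ≤ θ' * κ * θ := mul_le_mul_of_nonneg_right hlogN' hθ.le
      _ = _ := by ring)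
  have hnp := np_sq (L := L) h0 h1γ.le (by linarith : 2 ≤ Λ') hκp.le hbD hlogN hsm
  have hκΛ : κ / Λ' = 1 / θ := by rw [hΛ]; field_simp
  rw [hκΛ] at hnp
  have h8 : 8 * N * (1 + Real.log N) ≤ 2 * R := by
    have h1 : 1 + Real.log N ≤ 2 * κ := by linarith
    have h2 : (N : ℝ) ≤ Real.exp (h / 4 * κ) := hNe.trans (Real.exp_le_exp.2 (by nlinarith))
    have h3 : 8 * N * (1 + Real.log N) ≤ 16 * κ * Real.exp (h / 4 * κ) := by
      calc 8 * N * (1 + Real.log N) ≤ 8 * Real.exp (h / 4 * κ) * (2 * κ) := by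
            have : 0 ≤ Real.log N := Real.log_nonneg hN1'
            gcongr
        _ = _ := by ring
    refine h3.trans ?_
    have h4 : 64 * κ * Real.exp (h / 4 * κ) ≤ Real.exp (h * κ) := by
      rw [hTκ] at s4
      have h5 : Real.exp κ = Real.exp (3 * h / 4 * κ) * Real.exp ((1 - 3 * h / 4) * κ) := by
        rw [← Real.exp_add]; congr 1; ring
      rw [h5] at s4
      have h6 := le_of_mul_le_mul_right s4 (Real.exp_pos _)
      calc 64 * κ * Real.exp (h / 4 * κ) ≤ Real.exp (3 * h / 4 * κ) * Real.exp (h / 4 * κ) :=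
            mul_le_mul_of_nonneg_right h6 (Real.exp_pos _).le
        _ = _ := by rw [← Real.exp_add]; congr 1; ring
    linarith
  have hlow := low_int hN1 dd hHp (S := S) (A := A) (E := E) (r := r) (κ := κ) (R := R) (η := δ)
    (by rw [hSd]; rfl) hA hE (by linarith) hκp.le (by rw [hH]; field_simp; linarith) hδ h8 (hnp.trans hηle)
  refine le_trans ?_ hlow
  have e5 : 2 * R - 2 * (κ * H) = R := by rw [hH]; field_simp; ring
  rw [e5]
  have h10 := mul_le_mul_of_nonneg_left herr hRp.le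
  have h11 : r0 / 6 * R ≤ R * (r / 3 - δ) - δ * (2 * R) := by
    have : r0 / 6 ≤ r / 3 - 3 * δ := by rw [hδd]; linarith
    calc r0 / 6 * R ≤ (r / 3 - 3 * δ) * R := mul_le_mul_of_nonneg_right this hRp.le
      _ = _ := by ring
  linarith

end

end Pool.Agent.H474.SYM
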