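import Pool.Agent.H474.SYM.Inp

/-!
# Windows of zeros: definitions and the passage to sums over zeros
-/

set_option autoImplicit false
set_option linter.unusedSectionVars false

open Complex Filter Topology Set MeasureTheory
open scoped ComplexConjugate
open H370 (zset mult NN)
open W388 H385
open Pool.Agent.H474.SHP
open Pool.Agent.Y772.ND (Zf wf mem_Zf wf_zz wf_conj Zf_conj)

namespace Pool.Agent.H474.SYM

/-- the zeros of `F` in the open critical strip with ordinate in the window `(c - H/2, c + H/2]` -/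
def Wn (F : ℂ → ℂ) (c H : ℝ) : Set ℂ :=
  {ρ : ℂ | 0 < ρ.re ∧ ρ.re < 1 ∧ c - H / 2 < ρ.im ∧ ρ.im ≤ c + H / 2 ∧ F ρ = 0}

/-- the sum of `g` over these zeros, taken with multiplicity -/
noncomputable def ws (F : ℂ → ℂ) (c H : ℝ) (g : ℂ → ℝ) : ℝ :=
  ∑ᶠ ρ ∈ Wn F c H, (analyticOrderNatAt F ρ : ℝ) * g ρ

/-- the position of `ρ` relative to the point `1/2 + ic`; for `e = -1` it is reflected in the
horizontal line through that point -/
noncomputable def pt (e c : ℝ) (ρ : ℂ) : ℂ := ⟨ρ.re - 1 / 2, e * (ρ.im - c)⟩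

/-- the window is regular: an exponential moment of the distances from the critical line is
bounded on average -/
def Reg (F : ℂ → ℂ) (ϑ K T c H : ℝ) : Prop :=
  ws F c H (fun ρ => T ^ (ϑ * |ρ.re - 1 / 2|)) ≤ K * (H * Real.log T)

lemma Wn_eq (F : ℂ → ℂ) (c H : ℝ) : Wn F c H = zset F (c - H / 2) (c + H / 2) := rfl

lemma ws_sum {F : ℂ → ℂ} {c H : ℝ} (h : (zset F (c - H / 2) (c + H / 2)).Finite) (g : ℂ → ℝ) :
    ws F c H g = ∑ s ∈ h.toFinset, (mult F s : ℝ) * g s := by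
  unfold ws
  rw [Wn_eq, finsum_mem_eq_finite_toFinset_sum _ h]
  rfl

lemma ws_mono {F : ℂ → ℂ} {c H : ℝ} (h : (zset F (c - H / 2) (c + H / 2)).Finite) {g g' : ℂ → ℝ}
    (hg : ∀ s ∈ zset F (c - H / 2) (c + H / 2), g s ≤ g' s) : ws F c H g ≤ ws F c H g' := by
  rw [ws_sum h, ws_sum h]
  refine Finset.sum_le_sum fun s hs => ?_
  exact mul_le_mul_of_nonneg_left (hg s (h.mem_toFinset.1 hs)) (Nat.cast_nonneg _)

lemma ws_nonneg {F : ℂ → ℂ} {c H : ℝ} (h : (zset F (c - H / 2) (c + H / 2)).Finite) {g : ℂ → ℝ}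
    (hg : ∀ s ∈ zset F (c - H / 2) (c + H / 2), 0 ≤ g s) : 0 ≤ ws F c H g := by
  rw [ws_sum h]
  exact Finset.sum_nonneg fun s hs => mul_nonneg (Nat.cast_nonneg _) (hg s (h.mem_toFinset.1 hs))

lemma ws_one {F : ℂ → ℂ} {c H : ℝ} (h : (zset F (c - H / 2) (c + H / 2)).Finite) :
    ws F c H (fun _ => 1) = NN F (c - H / 2) (c + H / 2) := by
  rw [ws_sum h]
  unfold NN
  rw [finsum_mem_eq_finite_toFinset_sum _ h]
  push_cast
  exact Finset.sum_congr rfl fun s _ => mul_one _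

/-- sums over the zeros in the `z` variable -/
lemma sum_win {F : ℂ → ℂ} {V1 V2 c H : ℝ} (h : (zset F V1 V2).Finite)
    (h1 : V1 ≤ c - H / 2) (h2 : c + H / 2 ≤ V2) (g : ℂ → ℝ)
    (hg : ∀ z : ℂ, H / 2 ≤ |z.re - c| → g z = 0) :
    ∑ z ∈ Zf h, wf F V1 V2 z * g z = ws F c H (fun ρ => g (zz ρ)) := by
  have hsub : zset F (c - H / 2) (c + H / 2) ⊆ zset F V1 V2 := by
    rintro s ⟨a1, a2, a3, a4, a5⟩
    exact ⟨a1, a2, by linarith, by linarith, a5⟩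
  have h' := h.subset hsub
  rw [ws_sum h']
  unfold Zf
  rw [Finset.sum_image fun s _ s' _ h => PerChi.zz_inj h]
  have e1 : ∑ s ∈ h.toFinset, wf F V1 V2 (zz s) * g (zz s) = ∑ s ∈ h.toFinset, (mult F s : ℝ) * g (zz s) :=
    Finset.sum_congr rfl fun s hs => by rw [wf_zz (h.mem_toFinset.1 hs)]
  rw [e1]
  symm
  refine Finset.sum_subset (fun s hs => h.mem_toFinset.2 (hsub (h'.mem_toFinset.1 hs))) ?_
  intro s hs hs'
  obtain ⟨a1, a2, a3, a4, a5⟩ := h.mem_toFinset.1 hs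
  have : H / 2 ≤ |(zz s).re - c| := by
    rw [PerChi.zz_re]
    by_contra hcon
    push Not at hcon
    obtain ⟨b1, b2⟩ := abs_lt.1 hcon
    exact hs' (h'.mem_toFinset.2 ⟨a1, a2, by linarith, by linarith, a5⟩)
  rw [hg _ this, mul_zero]

/-- the zeros are symmetric in the critical line -/
lemma sum_refl {d A Q : ℝ} {F : ℂ → ℂ} {a : ℕ → ℂ} (hF : GoodE d A Q F a) {V1 V2 : ℝ} (hV : 1 ≤ V1)
    (h : (zset F V1 V2).Finite) (g : ℂ → ℝ) :
    ∑ z ∈ Zf h, wf F V1 V2 z * g z = ∑ z ∈ Zf h, wf F V1 V2 z * ((g z + g (conj z)) / 2) := by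
  have h1 : ∑ z ∈ Zf h, wf F V1 V2 z * g (conj z) = ∑ z ∈ Zf h, wf F V1 V2 z * g z := by
    refine Finset.sum_bij' (fun z _ => conj z) (fun z _ => conj z) ?_ ?_ ?_ ?_ ?_
    · intro z hz
      rw [mem_Zf] at hz ⊢
      exact Zf_conj hF hV hz
    · intro z hz
      rw [mem_Zf] at hz ⊢
      exact Zf_conj hF hV hz
    · intro z _; exact Complex.conj_conj z
    · intro z _; exact Complex.conj_conj z
    · intro z _
      rw [wf_conj hF hV]
  have h2 : ∑ z ∈ Zf h, wf F V1 V2 z * ((g z + g (conj z)) / 2) =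
      (∑ z ∈ Zf h, wf F V1 V2 z * g z + ∑ z ∈ Zf h, wf F V1 V2 z * g (conj z)) / 2 := by
    rw [← Finset.sum_add_distrib, Finset.sum_div]
    exact Finset.sum_congr rfl fun z _ => by ring
  rw [h2, h1]
  ring

/-- the symmetrised test function -/
noncomputable def sy (f : ℂ → ℝ) (w : ℂ) : ℝ := (f ⟨w.im, w.re⟩ + f ⟨w.im, -w.re⟩) / 2

lemma sy_le {f : ℂ → ℝ} (hf : ∀ z, |f z| ≤ 1) (w : ℂ) : |sy f w| ≤ 1 := by
  unfold sy
  have h1 := abs_le.1 (hf ⟨w.im, w.re⟩)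
  have h2 := abs_le.1 (hf ⟨w.im, -w.re⟩)
  rw [abs_le]
  constructor <;> linarith [h1.1, h1.2, h2.1, h2.2]

lemma sy_lip {f : ℂ → ℝ} {L : ℝ} (hf : ∀ z w, |f z - f w| ≤ L * ‖z - w‖) (z w : ℂ) :
    |sy f z - sy f w| ≤ L * ‖z - w‖ := by
  have n1 : ‖(⟨z.im, z.re⟩ : ℂ) - ⟨w.im, w.re⟩‖ = ‖z - w‖ := by
    rw [Complex.norm_eq_sqrt_sq_add_sq, Complex.norm_eq_sqrt_sq_add_sq]
    simp only [Complex.sub_re, Complex.sub_im]
    rw [add_comm]
  have n2 : ‖(⟨z.im, -z.re⟩ : ℂ) - ⟨w.im, -w.re⟩‖ = ‖z - w‖ := by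
    rw [Complex.norm_eq_sqrt_sq_add_sq, Complex.norm_eq_sqrt_sq_add_sq]
    simp only [Complex.sub_re, Complex.sub_im]
    congr 1; ring
  have h1 := hf ⟨z.im, z.re⟩ ⟨w.im, w.re⟩
  have h2 := hf ⟨z.im, -z.re⟩ ⟨w.im, -w.re⟩
  rw [n1] at h1
  rw [n2] at h2
  obtain ⟨a1, a2⟩ := abs_le.1 h1
  obtain ⟨b1, b2⟩ := abs_le.1 h2
  unfold sy
  rw [abs_le]
  constructor <;> linarith

lemma sy_pt {e : ℝ} (he : e = 1 ∨ e = -1) (c : ℝ) (f : ℂ → ℝ) (ρ : ℂ) :
    (f (e * (zz ρ - c)) + f (e * (conj (zz ρ) - c))) / 2 = sy f (pt e c ρ) := by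
  have hre : (zz ρ).re = ρ.im := PerChi.zz_re ρ
  have him : (zz ρ).im = -(ρ.re - 1 / 2) := PerChi.zz_im ρ
  unfold sy pt
  rcases he with rfl | rfl
  · have e1 : (((1 : ℝ) : ℂ) * (zz ρ - c)) = ⟨1 * (ρ.im - c), -(ρ.re - 1 / 2)⟩ := by
      apply Complex.ext
      · simp [hre]
      · simp [him]
    have e2 : (((1 : ℝ) : ℂ) * (conj (zz ρ) - c)) = ⟨1 * (ρ.im - c), ρ.re - 1 / 2⟩ := by
      apply Complex.ext
      · simp [hre]
      · simp [him]
    rw [e1, e2]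
    simp only
    ring
  · have e1 : (((-1 : ℝ) : ℂ) * (zz ρ - c)) = ⟨-1 * (ρ.im - c), ρ.re - 1 / 2⟩ := by
      apply Complex.ext
      · simp [hre]
      · simp [him]
    have e2 : (((-1 : ℝ) : ℂ) * (conj (zz ρ) - c)) = ⟨-1 * (ρ.im - c), -(ρ.re - 1 / 2)⟩ := by
      apply Complex.ext
      · simp [hre]
      · simp [him]
    rw [e1, e2]

/-- one pattern against a test function -/
lemma pattern_eq {d A Q : ℝ} {F : ℂ → ℂ} {a : ℕ → ℂ} (hF : GoodE d A Q F a) {V1 V2 c H : ℝ}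
    (hV : 1 ≤ V1) (h : (zset F V1 V2).Finite) (h1 : V1 ≤ c - H / 2) (h2 : c + H / 2 ≤ V2)
    {e : ℝ} (he : e = 1 ∨ e = -1) {f : ℂ → ℝ} (hf : ∀ z : ℂ, H / 2 ≤ |z.re| → f z = 0) :
    ∑ z ∈ Zf h, wf F V1 V2 z * f (e * (z - c)) = ws F c H (fun ρ => sy f (pt e c ρ)) := by
  rw [sum_refl hF hV h (fun z => f (e * (z - c)))]
  have habs : ∀ z : ℂ, |((e : ℂ) * (z - c)).re| = |z.re - c| := by
    intro z
    rcases he with rfl | rfl
    · simp
    · have : (((-1 : ℝ) : ℂ) * (z - c)).re = -(z.re - c) := by simp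
      rw [this, abs_neg]
  rw [sum_win h h1 h2 (fun z => (f (e * (z - c)) + f (e * (conj z - c))) / 2) (fun z hz => by
    rw [hf _ (by rw [habs]; exact hz), hf _ (by rw [habs]; simpa using hz)]
    simp)]
  congr 1
  funext ρ
  exact sy_pt he c f ρ

/-- the regularity in the `z` variable -/
lemma reg_z {F : ℂ → ℂ} {V1 V2 c H ϑ K T : ℝ} (h : (zset F V1 V2).Finite)
    (h1 : V1 ≤ c - H / 2) (h2 : c + H / 2 ≤ V2) (hT : 0 < T) (hR : Reg F ϑ K T c H) :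
    ∑ z ∈ (Zf h).filter (fun z : ℂ => |z.re - c| < H / 2),
      wf F V1 V2 z * Real.exp (ϑ * (Real.log T * |z.im|)) ≤ K * H * Real.log T := by
  have hsub : zset F (c - H / 2) (c + H / 2) ⊆ zset F V1 V2 := by
    rintro s ⟨a1, a2, a3, a4, a5⟩
    exact ⟨a1, a2, by linarith, by linarith, a5⟩
  have h' := h.subset hsub
  unfold Reg at hR
  rw [show K * H * Real.log T = K * (H * Real.log T) by ring]
  refine le_trans ?_ hR
  have e1 := sum_win h h1 h2 (fun z => if |z.re - c| < H / 2 then Real.exp (ϑ * (Real.log T * |z.im|)) else 0)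
    (fun z hz => if_neg (not_lt.2 hz))
  rw [Finset.sum_filter]
  simp_rw [mul_ite, mul_zero] at e1
  rw [e1]
  refine ws_mono h' fun s hs => ?_
  split_ifs
  · rw [Real.rpow_def_of_pos hT, PerChi.zz_im, abs_neg]
    apply le_of_eq
    congr 1
    ring
  · positivity

end Pool.Agent.H474.SYM
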