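import Pool.Graph.R_pool_sql_team_seeded_63374d34.N802.LX.DensChi
import Pool.Graph.R_seed8.Y24.F2
import Pool.Agent.H474.SYM.Cnv

/-!
# Almost every window is regular
-/

set_option autoImplicit false
set_option linter.unusedSectionVars false

open Complex Filter Topology Set MeasureTheory
open scoped ComplexConjugate
open H370 (zset mult NN)

namespace Pool.Agent.H474.SYM

lemma mult_zeta {z : ℂ} (hz : z ≠ 1) (h : mult riemannZeta z ≠ 0) : riemannZeta z = 0 := by
  by_contra hcon
  apply h
  have han : AnalyticAt ℂ riemannZeta z := by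
    rw [analyticAt_iff_eventually_differentiableAt]
    filter_upwards [isOpen_ne.mem_nhds hz] with w hw
    exact differentiableAt_riemannZeta hw
  unfold mult analyticOrderNatAt
  rw [han.analyticOrderAt_eq_zero.2 hcon]
  rfl

theorem dens_zeta : TH803UC.Dens riemannZeta := by
  obtain ⟨C, hC, h⟩ := Pool.Agent.Y24.density (c := 1) (by norm_num)
  refine Pool.Agent.N802.LX.dens_of H370.good_zeta (A := 4 * C) (T0 := 10) (by positivity) le_rfl ?_
  intro T hT δ hδ Z hZ
  have hT0 : 0 < T := by linarith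
  have hL : 0 < Real.log T := Real.log_pos (by linarith)
  have hne : ∀ z ∈ Z, mult riemannZeta z ≠ 0 → riemannZeta z = 0 := by
    intro z hz
    refine mult_zeta ?_
    intro h1
    have := (hZ z hz).2.1
    rw [h1] at this
    norm_num at this
    linarith
  by_cases hδ1 : δ ≤ 1 / 2
  · obtain ⟨hfin, hle⟩ := h (1 / 2 + δ) (2 * T) (by linarith) (by linarith) (by linarith)
    rw [finsum_mem_eq_finite_toFinset_sum _ hfin] at hle
    have h1 : ∑ z ∈ Z, (mult riemannZeta z : ℝ) ≤ ∑ z ∈ hfin.toFinset, (analyticOrderNatAt riemannZeta z : ℝ) := by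
      have h2 : ∑ z ∈ Z, mult riemannZeta z ≤ ∑ z ∈ hfin.toFinset, mult riemannZeta z := by
        refine Finset.sum_le_sum_of_ne_zero fun z hz hz0 => ?_
        rw [Set.Finite.mem_toFinset]
        obtain ⟨a1, a2, a3⟩ := hZ z hz
        exact ⟨hne z hz hz0, a1, by linarith, a3⟩
      exact_mod_cast h2
    refine (h1.trans hle).trans ?_
    have hlog : Real.log (2 * T) ≤ 2 * Real.log T := by
      have : Real.log (2 * T) ≤ Real.log (T * T) := Real.log_le_log (by linarith) (by nlinarith)
      rw [Real.log_mul (x := T) (y := T) hT0.ne' hT0.ne'] at this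
      linarith
    have hlog' : Real.log T ≤ Real.log (2 * T) := Real.log_le_log hT0 (by linarith)
    have hpow : (2 * T) ^ (1 - 1 * (1 / 2 + δ - 1 / 2)) ≤ 2 * T * Real.exp (-(1 / 2 * δ * Real.log T)) := by
      rw [Real.rpow_def_of_pos (by linarith),
        show Real.log (2 * T) * (1 - 1 * (1 / 2 + δ - 1 / 2)) = Real.log (2 * T) + -(δ * Real.log (2 * T)) by ring,
        Real.exp_add, Real.exp_log (by linarith)]
      refine mul_le_mul_of_nonneg_left (Real.exp_le_exp.2 ?_) (by linarith)
      have : δ * Real.log T ≤ δ * Real.log (2 * T) := mul_le_mul_of_nonneg_left hlog' hδ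
      nlinarith [mul_nonneg hδ hL.le]
    calc C * (2 * T) ^ (1 - 1 * (1 / 2 + δ - 1 / 2)) * Real.log (2 * T)
        ≤ C * (2 * T * Real.exp (-(1 / 2 * δ * Real.log T))) * (2 * Real.log T) := by
          have := Real.exp_pos (-(1 / 2 * δ * Real.log T))
          have h6 : 0 ≤ Real.log (2 * T) := by linarith
          refine mul_le_mul (mul_le_mul_of_nonneg_left hpow hC.le) hlog h6 (by positivity)
      _ = 4 * C * (T * Real.log T * Real.exp (-(1 / 2 * δ * Real.log T))) := by ring
  · push Not at hδ1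
    have h1 : ∑ z ∈ Z, (mult riemannZeta z : ℝ) = 0 := by
      refine Finset.sum_eq_zero fun z hz => ?_
      by_contra hcon
      have h2 : mult riemannZeta z ≠ 0 := by exact_mod_cast hcon
      exact riemannZeta_ne_zero_of_one_le_re (by linarith [(hZ z hz).1]) (hne z hz h2)
    rw [h1]
    positivity

theorem dens_all {q : ℕ} [NeZero q] {χ : DirichletCharacter ℂ q} (hχ : χ.IsPrimitive) :
    TH803UC.Dens (DirichletCharacter.LFunction χ) := by
  rcases Nat.lt_or_ge 1 q with h | h
  · exact Pool.Agent.N802.LX.dens_chi h hχ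
  · have hq : q = 1 := le_antisymm h (NeZero.pos q)
    subst hq
    rw [DirichletCharacter.LFunction_modOne_eq]
    exact dens_zeta

/-- the exponential moment over `(T, 2T]` -/
theorem moment {q : ℕ} [NeZero q] {χ : DirichletCharacter ℂ q} (hχ : χ.IsPrimitive) :
    ∃ ϑ C T0 : ℝ, 0 < ϑ ∧ 0 < C ∧ 10 ≤ T0 ∧ ∀ T : ℝ, T0 ≤ T →
      ∀ hfin : (zset (DirichletCharacter.LFunction χ) T (2 * T)).Finite,
      ∑ s ∈ hfin.toFinset, (mult (DirichletCharacter.LFunction χ) s : ℝ) * T ^ (ϑ * |s.re - 1 / 2|) ≤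
        C * (T * Real.log T) := by
  obtain ⟨κ, C, T0, hκ, hC, hT0, h⟩ := dens_all hχ
  refine ⟨κ, C, T0, hκ, hC, hT0, fun T hT hfin => ?_⟩
  refine le_trans (le_of_eq ?_) (h T hT)
  have e : H370.Zf (DirichletCharacter.LFunction χ) T (2 * T) = hfin.toFinset := by
    unfold H370.Zf
    rw [dif_pos hfin]
  rw [e]
  refine Finset.sum_congr rfl fun s _ => ?_
  rw [Real.rpow_def_of_pos (by linarith), H370.zz_im, abs_neg]
  congr 2
  ring

end Pool.Agent.H474.SYM
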