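import Mathlib

/-!
# Exponential sums with separated frequencies on an interval
-/

set_option autoImplicit false
set_option linter.unusedSectionVars false

open Complex MeasureTheory Set

namespace Pool.Agent.H474.SYM

lemma exp_diff (a b : ℝ) : ‖cexp (-(I * a)) - cexp (-(I * b))‖ = 2 * |Real.sin ((a - b) / 2)| := by
  have h1 : cexp (-(I * a)) - cexp (-(I * b)) = cexp (-(I * b)) * (cexp (I * ((b - a : ℝ) : ℂ)) - 1) := by
    rw [mul_sub, ← Complex.exp_add, mul_one]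
    congr 2; push_cast; ring
  have h2 : ‖cexp (-(I * b))‖ = 1 := by
    have : (-(I * b) : ℂ) = ((-b : ℝ) : ℂ) * I := by push_cast; ring
    rw [this, Complex.norm_exp_ofReal_mul_I]
  rw [h1, norm_mul, h2, one_mul, Complex.norm_exp_I_mul_ofReal_sub_one, norm_mul, Real.norm_eq_abs,
    Real.norm_eq_abs, abs_of_pos (by norm_num : (0:ℝ) < 2)]
  congr 1
  have : (b - a) / 2 = -((a - b) / 2) := by ring
  rw [this, Real.sin_neg, abs_neg]

lemma exists_eta {κ1 ℓ ω : ℝ} (hκ : 0 < κ1) (hℓ : 0 < ℓ) (hω : κ1 ≤ |ω|) :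
    ∃ η : ℝ, 0 ≤ η ∧ η ≤ ℓ / 2 ∧ min 1 (κ1 * ℓ / (2 * Real.pi)) ≤ |Real.sin (ω * η / 2)| := by
  have hpi := Real.pi_pos
  have hω0 : 0 < |ω| := hκ.trans_le hω
  have hs : ∀ η : ℝ, |Real.sin (ω * η / 2)| = |Real.sin (|ω| * η / 2)| := by
    intro η
    rcases abs_cases ω with ⟨h, -⟩ | ⟨h, -⟩
    · rw [h]
    · rw [h]
      have : -ω * η / 2 = -(ω * η / 2) := by ring
      rw [this, Real.sin_neg, abs_neg]
  by_cases h : |ω| * (ℓ / 2) / 2 ≤ Real.pi / 2
  · refine ⟨ℓ / 2, by positivity, le_rfl, (min_le_right _ _).trans ?_⟩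
    rw [hs]
    refine le_trans ?_ (le_abs_self _)
    have h1 := Real.mul_le_sin (x := |ω| * (ℓ / 2) / 2) (by positivity) h
    refine le_trans ?_ h1
    have h2 : κ1 * ℓ / (2 * Real.pi) ≤ |ω| * ℓ / (2 * Real.pi) := by gcongr
    refine h2.trans (le_of_eq ?_)
    field_simp
  · push Not at h
    refine ⟨Real.pi / |ω|, by positivity, ?_, (min_le_left _ _).trans ?_⟩
    · rw [div_le_iff₀ hω0]; linarith
    · rw [hs]
      have : |ω| * (Real.pi / |ω|) / 2 = Real.pi / 2 := by field_simp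
      rw [this, Real.sin_pi_div_two, abs_one]

variable {ι : Type*} [DecidableEq ι]

/-- exponential sums -/
noncomputable def es (S : Finset ι) (a : ι → ℂ) (ω : ι → ℝ) (x : ℝ) : ℂ :=
  ∑ j ∈ S, a j * cexp (-(I * ω j * x))

lemma es_cont (S : Finset ι) (a : ι → ℂ) (ω : ι → ℝ) : Continuous (es S a ω) := by
  unfold es; fun_prop

/-- **separated frequencies** -/
theorem sep_low {κ1 : ℝ} (hκ : 0 < κ1) (n : ℕ) : ∀ ℓ : ℝ, 0 < ℓ → ∃ c : ℝ, 0 < c ∧
    ∀ (S : Finset ι), S.card = n → ∀ j0 ∉ S, ∀ ω : ι → ℝ,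
    (∀ i ∈ insert j0 S, ∀ j ∈ insert j0 S, i ≠ j → κ1 ≤ |ω i - ω j|) → ∀ (a : ι → ℂ) (α : ℝ),
    c * ‖a j0‖ ^ 2 ≤ ∫ x in α..(α + ℓ), ‖es (insert j0 S) a ω x‖ ^ 2 := by
  induction n with
  | zero =>
    intro ℓ hℓ
    refine ⟨ℓ, hℓ, fun S hS j0 _ ω _ a α => ?_⟩
    rw [Finset.card_eq_zero] at hS
    subst hS
    have h1 : ∀ x : ℝ, ‖es (insert j0 ∅) a ω x‖ ^ 2 = ‖a j0‖ ^ 2 := by
      intro x
      unfold es
      rw [insert_empty_eq, Finset.sum_singleton, norm_mul]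
      have : (-(I * ω j0 * x) : ℂ) = ((-(ω j0 * x) : ℝ) : ℂ) * I := by push_cast; ring
      rw [this, Complex.norm_exp_ofReal_mul_I, mul_one]
    simp_rw [h1]
    rw [intervalIntegral.integral_const, smul_eq_mul]
    apply le_of_eq; ring
  | succ n ih =>
    intro ℓ hℓ
    obtain ⟨c, hc, h⟩ := ih (ℓ / 2) (by positivity)
    set σ := min 1 (κ1 * ℓ / (2 * Real.pi)) with hσ
    have hσ0 : 0 < σ := lt_min one_pos (by have := Real.pi_pos; positivity)
    refine ⟨c * σ ^ 2, by positivity, fun S hS j0 hj0 ω hω a α => ?_⟩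
    obtain ⟨m, S', hm, rfl, hS'⟩ := Finset.card_eq_succ.1 hS
    have hj0m : j0 ≠ m := fun h => hj0 (by rw [h]; exact Finset.mem_insert_self _ _)
    have hj0S : j0 ∉ S' := fun h => hj0 (Finset.mem_insert_of_mem h)
    have hmS : m ∉ insert j0 S' := by
      rw [Finset.mem_insert]
      rintro (h | h)
      · exact hj0m h.symm
      · exact hm h
    have hsep : κ1 ≤ |ω j0 - ω m| := hω j0 (Finset.mem_insert_self _ _) m (by simp) hj0m
    obtain ⟨η, hη0, hη1, hη2⟩ := exists_eta hκ hℓ hsep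
    set F : ℝ → ℂ := es (insert j0 (insert m S')) a ω with hF
    set a' : ι → ℂ := fun j => a j * (cexp (-(I * (ω j * η : ℝ))) - cexp (-(I * (ω m * η : ℝ)))) with ha'
    have hG : ∀ x : ℝ, es (insert j0 S') a' ω x = F (x + η) - cexp (-(I * (ω m * η : ℝ))) * F x := by
      intro x
      have e1 : insert j0 (insert m S') = insert m (insert j0 S') := Finset.insert_comm _ _ _
      simp only [hF, es]
      rw [e1, Finset.sum_insert hmS, Finset.sum_insert hmS, mul_add, Finset.mul_sum]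
      have e2 : ∀ j, cexp (-(I * ω j * ((x + η : ℝ) : ℂ))) = cexp (-(I * (ω j * η : ℝ))) * cexp (-(I * ω j * x)) := by
        intro j
        rw [← Complex.exp_add]; congr 1; push_cast; ring
      rw [e2]
      have e3 : ∑ j ∈ insert j0 S', a j * cexp (-(I * ω j * ((x + η : ℝ) : ℂ))) =
          ∑ j ∈ insert j0 S', a j * (cexp (-(I * (ω j * η : ℝ))) * cexp (-(I * ω j * x))) :=
        Finset.sum_congr rfl fun j _ => by rw [e2]
      rw [e3]
      have e4 : ∑ j ∈ insert j0 S', a' j * cexp (-(I * ω j * x)) =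
          ∑ j ∈ insert j0 S', a j * (cexp (-(I * (ω j * η : ℝ))) * cexp (-(I * ω j * x))) -
          ∑ j ∈ insert j0 S', cexp (-(I * (ω m * η : ℝ))) * (a j * cexp (-(I * ω j * x))) := by
        rw [← Finset.sum_sub_distrib]
        refine Finset.sum_congr rfl fun j _ => ?_
        simp only [ha']; ring
      rw [e4]; ring
    have hind := h S' hS' j0 hj0S ω (fun i hi j hj hij => by
      refine hω i ?_ j ?_ hij
      · rw [Finset.mem_insert] at hi ⊢
        rcases hi with hi | hi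
        · exact Or.inl hi
        · exact Or.inr (Finset.mem_insert_of_mem hi)
      · rw [Finset.mem_insert] at hj ⊢
        rcases hj with hj | hj
        · exact Or.inl hj
        · exact Or.inr (Finset.mem_insert_of_mem hj)) a' α
    have hFc : Continuous F := es_cont _ _ _
    have hnorm : ‖a' j0‖ ^ 2 = ‖a j0‖ ^ 2 * (4 * |Real.sin ((ω j0 - ω m) * η / 2)| ^ 2) := by
      simp only [ha']
      rw [norm_mul, exp_diff, mul_pow, mul_pow]
      congr 2
      · norm_num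
      · congr 3; ring
    have h1 : ∫ x in α..(α + ℓ / 2), ‖es (insert j0 S') a' ω x‖ ^ 2 ≤
        ∫ x in α..(α + ℓ / 2), (2 * ‖F (x + η)‖ ^ 2 + 2 * ‖F x‖ ^ 2) := by
      refine intervalIntegral.integral_mono_on (by linarith) ?_ ?_ fun x _ => ?_
      · exact ((es_cont _ _ _).norm.pow 2).intervalIntegrable _ _
      · exact (by fun_prop : Continuous fun x => 2 * ‖F (x + η)‖ ^ 2 + 2 * ‖F x‖ ^ 2).intervalIntegrable _ _
      · rw [hG]
        have e1 : ‖cexp (-(I * (ω m * η : ℝ)))‖ = 1 := by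
          have : (-(I * (ω m * η : ℝ)) : ℂ) = ((-(ω m * η) : ℝ) : ℂ) * I := by push_cast; ring
          rw [this, Complex.norm_exp_ofReal_mul_I]
        have e2 := norm_sub_le (F (x + η)) (cexp (-(I * (ω m * η : ℝ))) * F x)
        rw [norm_mul, e1, one_mul] at e2
        have e3 := pow_le_pow_left₀ (norm_nonneg _) e2 2
        nlinarith [sq_nonneg (‖F (x + η)‖ - ‖F x‖)]
    have hc1 : IntervalIntegrable (fun x => 2 * ‖F (x + η)‖ ^ 2) volume α (α + ℓ / 2) :=
      (by fun_prop : Continuous fun x => 2 * ‖F (x + η)‖ ^ 2).intervalIntegrable _ _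
    have hc2 : IntervalIntegrable (fun x => 2 * ‖F x‖ ^ 2) volume α (α + ℓ / 2) :=
      (by fun_prop : Continuous fun x => 2 * ‖F x‖ ^ 2).intervalIntegrable _ _
    rw [intervalIntegral.integral_add hc1 hc2, intervalIntegral.integral_const_mul,
      intervalIntegral.integral_const_mul,
      intervalIntegral.integral_comp_add_right (fun x => ‖F x‖ ^ 2) η] at h1
    have hmono : ∀ u v : ℝ, α ≤ u → u ≤ v → v ≤ α + ℓ → ∫ x in u..v, ‖F x‖ ^ 2 ≤ ∫ x in α..(α + ℓ), ‖F x‖ ^ 2 := by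
      intro u v hu huv hv
      exact intervalIntegral.integral_mono_interval hu huv hv (ae_of_all _ fun x => sq_nonneg _)
        ((hFc.norm.pow 2).intervalIntegrable _ _)
    have h2 := hmono (α + η) (α + ℓ / 2 + η) (by linarith) (by linarith) (by linarith)
    have h3 := hmono α (α + ℓ / 2) le_rfl (by linarith) (by linarith)
    have h4 : σ ^ 2 ≤ |Real.sin ((ω j0 - ω m) * η / 2)| ^ 2 := pow_le_pow_left₀ hσ0.le hη2 2
    have h5 : c * (‖a j0‖ ^ 2 * (4 * σ ^ 2)) ≤ c * ‖a' j0‖ ^ 2 := by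
      rw [hnorm]
      gcongr
    have h6 : c * (‖a j0‖ ^ 2 * (4 * σ ^ 2)) ≤ 4 * ∫ x in α..(α + ℓ), ‖F x‖ ^ 2 := by linarith
    have h7 : c * (‖a j0‖ ^ 2 * (4 * σ ^ 2)) = 4 * (c * σ ^ 2 * ‖a j0‖ ^ 2) := by ring
    rw [h7] at h6
    linarith

/-- the same for all small sets of frequencies -/
theorem sep_low' {κ1 : ℝ} (hκ : 0 < κ1) (n : ℕ) (ℓ : ℝ) (hℓ : 0 < ℓ) : ∃ c : ℝ, 0 < c ∧
    ∀ (S : Finset ι), S.card ≤ n → ∀ j0 ∈ S, ∀ ω : ι → ℝ,
    (∀ i ∈ S, ∀ j ∈ S, i ≠ j → κ1 ≤ |ω i - ω j|) → ∀ (a : ι → ℂ) (α : ℝ),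
    c * ‖a j0‖ ^ 2 ≤ ∫ x in α..(α + ℓ), ‖es S a ω x‖ ^ 2 := by
  induction n with
  | zero =>
    refine ⟨1, one_pos, fun S hS j0 hj0 => ?_⟩
    rw [Nat.le_zero, Finset.card_eq_zero] at hS
    rw [hS] at hj0; simp at hj0
  | succ n ih =>
    obtain ⟨c1, hc1, h1⟩ := ih
    obtain ⟨c2, hc2, h2⟩ := sep_low (ι := ι) hκ n ℓ hℓ
    refine ⟨min c1 c2, lt_min hc1 hc2, fun S hS j0 hj0 ω hω a α => ?_⟩
    rcases Nat.lt_or_ge n S.card with h | h
    · have hcard : (S.erase j0).card = n := by rw [Finset.card_erase_of_mem hj0]; omega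
      have e := Finset.insert_erase hj0
      have := h2 (S.erase j0) hcard j0 (Finset.notMem_erase _ _) ω (by rw [e]; exact hω) a α
      rw [e] at this
      refine le_trans ?_ this
      gcongr
      exact min_le_right _ _
    · refine le_trans ?_ (h1 S h j0 hj0 ω hω a α)
      gcongr
      exact min_le_left _ _

end Pool.Agent.H474.SYM
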