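import Pool.Agent.H474.SYM.Prm
import Pool.Agent.H474.SYM.Sep
import Pool.Agent.H474.SHP.Lo3

/-!
# Lower bound for the Gram matrix
-/

set_option autoImplicit false
set_option linter.unusedSectionVars false

open Complex MeasureTheory Set Filter Topology
open scoped ComplexConjugate
open Pool.Agent.helper24_UT (CM tw)
open Pool.Agent.H474.SHP (NP np_small)
open scoped ArithmeticFunction.vonMangoldt

namespace Pool.Agent.H474.SYM

lemma tw_norm (t x : ℝ) : ‖tw t x‖ = 1 := by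
  unfold tw Pool.Agent.H376R2.MR.er
  rw [Complex.norm_exp_ofReal_mul_I]

lemma tw_conj (s t x : ℝ) : tw s x * conj (tw t x) = tw (s - t) x := by
  unfold tw Pool.Agent.H376R2.MR.er
  rw [← Complex.exp_conj, ← Complex.exp_add]
  congr 1
  simp only [map_mul, Complex.conj_ofReal, Complex.conj_I]
  push_cast; ring

/-- the weight of an integer -/
noncomputable def ww (L : ℝ) (n : ℕ) : ℝ := Λ n / n * Pm (Real.log n / L)

section

variable {ι : Type} [Fintype ι] [DecidableEq ι]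

/-- the family of coefficient functions -/
structure Fam (q : ι → ℕ) (y : ι → ℕ → ℂ) : Prop where
  pg : ∀ i j, Pg (q i * q j) (fun n => y i n * conj (y j n))
  le : ∀ i n, ‖y i n‖ ≤ 1
  d1 : ∀ i j, y i = y j → dl (q i * q j) (fun n => y i n * conj (y j n)) = 1
  d0 : ∀ i j, y i ≠ y j → dl (q i * q j) (fun n => y i n * conj (y j n)) = 0

variable {q : ι → ℕ} {y : ι → ℕ → ℂ}

/-- the twisted coefficients -/
noncomputable def tc (y : ι → ℕ → ℂ) (ν : ι → ℝ) (i : ι) (n : ℕ) : ℂ := y i n * tw (ν i) n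

lemma tc_le (hF : Fam q y) (ν : ι → ℝ) (i : ι) (n : ℕ) : ‖tc y ν i n‖ ≤ 1 := by
  unfold tc
  rw [norm_mul, tw_norm, mul_one]
  exact hF.le i n

lemma tc_sum_le (hF : Fam q y) (ν : ι → ℝ) {μ : ι → ℝ} (hμ : ∀ i, |μ i| ≤ 1) (n : ℕ) :
    ‖∑ i, (μ i : ℂ) * tc y ν i n‖ ≤ Fintype.card ι := by
  refine (norm_sum_le _ _).trans ?_
  have h : ∀ i ∈ Finset.univ, ‖(μ i : ℂ) * tc y ν i n‖ ≤ (1 : ℝ) := by
    intro i _
    rw [norm_mul, Complex.norm_real, Real.norm_eq_abs]
    calc |μ i| * ‖tc y ν i n‖ ≤ 1 * 1 := mul_le_mul (hμ i) (tc_le hF ν i n) (norm_nonneg _) zero_le_one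
      _ = 1 := one_mul 1
  refine (Finset.sum_le_sum h).trans (le_of_eq ?_)
  rw [Finset.sum_const, Finset.card_univ, nsmul_eq_mul, mul_one]

/-- the square, expanded -/
lemma sq_exp (ν : ι → ℝ) (μ : ι → ℝ) (L : ℝ) (n : ℕ) :
    ((ww L n * ‖∑ i, (μ i : ℂ) * tc y ν i n‖ ^ 2 : ℝ) : ℂ) =
      ∑ i, ∑ j, (μ i * μ j : ℝ) * (Wt L (ν i - ν j) n * vg (fun n => y i n * conj (y j n)) n) := by
  have h1 : ((‖∑ i, (μ i : ℂ) * tc y ν i n‖ ^ 2 : ℝ) : ℂ) =
      ∑ i, ∑ j, ((μ i : ℂ) * tc y ν i n) * conj ((μ j : ℂ) * tc y ν j n) := by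
    rw [← Finset.sum_mul_sum, ← map_sum, Complex.mul_conj, Complex.normSq_eq_norm_sq]
  rw [Complex.ofReal_mul, h1, Finset.mul_sum]
  refine Finset.sum_congr rfl fun i _ => ?_
  rw [Finset.mul_sum]
  refine Finset.sum_congr rfl fun j _ => ?_
  rw [Wt_tw, ← tw_conj (ν i) (ν j)]
  unfold tc vg ww Wt
  rw [map_mul, map_mul, Complex.conj_ofReal, Complex.ofReal_zero, mul_zero, zero_mul, neg_zero,
    Complex.exp_zero, mul_one]
  push_cast
  ring

/-- the main terms of one class -/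
lemma main_low (hF : Fam q y) {κ1 : ℝ} (hκ : 0 < κ1) : ∃ c : ℝ, 0 < c ∧ ∀ (L : ℝ) (ν : ι → ℝ),
    0 < L → (∀ i j, i ≠ j → y i = y j → κ1 ≤ L * |ν i - ν j|) → ∀ (μ : ι → ℝ) (j0 : ι),
    c * μ j0 ^ 2 ≤ (∑ i, ∑ j, (μ i * μ j : ℝ) *
      (dl (q i * q j) (fun n => y i n * conj (y j n)) * Mx L (ν i - ν j))).re := by
  classical
  obtain ⟨c, hc, h⟩ := sep_low' (ι := ι) hκ (Fintype.card ι) (1 / 4) (by norm_num)
  refine ⟨3 / 64 * c, by positivity, fun L ν hL hsep μ j0 => ?_⟩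
  set ω : ι → ℝ := fun i => ν i * L with hω
  -- rewrite as an integral
  have hMx : ∀ i j, Mx L (ν i - ν j) = ∫ x in (1 / 4 : ℝ)..(3 / 4), ((Pm x : ℝ) : ℂ) *
      (cexp (-(I * ω i * x)) * conj (cexp (-(I * ω j * x)))) := by
    intro i j
    unfold Mx
    refine intervalIntegral.integral_congr fun x _ => ?_
    change ((Pm x : ℝ) : ℂ) * _ = ((Pm x : ℝ) : ℂ) * _
    congr 1
    rw [← Complex.exp_conj, ← Complex.exp_add]
    congr 1
    simp only [map_neg, map_mul, Complex.conj_ofReal, Complex.conj_I, hω]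
    push_cast; ring
  set Y : Finset (ℕ → ℂ) := Finset.univ.image y with hY
  have hcell : ∑ i, ∑ j, (μ i * μ j : ℝ) * (dl (q i * q j) (fun n => y i n * conj (y j n)) * Mx L (ν i - ν j)) =
      ((∑ k ∈ Y, ∫ x in (1 / 4 : ℝ)..(3 / 4), Pm x *
        ‖es (Finset.univ.filter fun i => y i = k) (fun i => (μ i : ℂ)) ω x‖ ^ 2 : ℝ) : ℂ) := by
    rw [Complex.ofReal_sum]
    have e1 : ∀ i, ∑ j, (μ i * μ j : ℝ) * (dl (q i * q j) (fun n => y i n * conj (y j n)) * Mx L (ν i - ν j)) =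
        ∑ j ∈ Finset.univ.filter (fun j => y j = y i), (μ i * μ j : ℝ) * Mx L (ν i - ν j) := by
      intro i
      rw [Finset.sum_filter]
      refine Finset.sum_congr rfl fun j _ => ?_
      split_ifs with hij
      · rw [hF.d1 i j hij.symm, one_mul]
      · rw [hF.d0 i j (fun h => hij h.symm), zero_mul, mul_zero]
    simp_rw [e1]
    rw [← Finset.sum_fiberwise_of_maps_to (s := Finset.univ) (t := Y) (g := y)
      (fun i _ => Finset.mem_image_of_mem y (Finset.mem_univ i))]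
    refine Finset.sum_congr rfl fun k _ => ?_
    have e2 : ∀ i ∈ Finset.univ.filter (fun i => y i = k),
        ∑ j ∈ Finset.univ.filter (fun j => y j = y i), (μ i * μ j : ℝ) * Mx L (ν i - ν j) =
        ∑ j ∈ Finset.univ.filter (fun j => y j = k), (μ i * μ j : ℝ) * Mx L (ν i - ν j) := by
      intro i hi
      rw [(Finset.mem_filter.1 hi).2]
    rw [Finset.sum_congr rfl e2]
    have e3 : ∀ x : ℝ, ((Pm x * ‖es (Finset.univ.filter fun i => y i = k) (fun i => (μ i : ℂ)) ω x‖ ^ 2 : ℝ) : ℂ) =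
        ∑ i ∈ Finset.univ.filter (fun i => y i = k), ∑ j ∈ Finset.univ.filter (fun j => y j = k),
          (μ i * μ j : ℝ) * (((Pm x : ℝ) : ℂ) * (cexp (-(I * ω i * x)) * conj (cexp (-(I * ω j * x))))) := by
      intro x
      have e4 : ((‖es (Finset.univ.filter fun i => y i = k) (fun i => (μ i : ℂ)) ω x‖ ^ 2 : ℝ) : ℂ) =
          ∑ i ∈ Finset.univ.filter (fun i => y i = k), ∑ j ∈ Finset.univ.filter (fun j => y j = k),
          ((μ i : ℂ) * cexp (-(I * ω i * x))) * conj ((μ j : ℂ) * cexp (-(I * ω j * x))) := by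
        unfold es
        rw [← Finset.sum_mul_sum, ← map_sum, Complex.mul_conj, Complex.normSq_eq_norm_sq]
      rw [Complex.ofReal_mul, e4, Finset.mul_sum]
      refine Finset.sum_congr rfl fun i _ => ?_
      rw [Finset.mul_sum]
      refine Finset.sum_congr rfl fun j _ => ?_
      rw [map_mul, Complex.conj_ofReal]
      push_cast; ring
    rw [← intervalIntegral.integral_ofReal]
    simp_rw [e3]
    have hcont : ∀ i j, Continuous fun x : ℝ => (μ i * μ j : ℝ) * (((Pm x : ℝ) : ℂ) *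
        (cexp (-(I * ω i * x)) * conj (cexp (-(I * ω j * x))))) := by
      intro i j
      unfold Pm
      have h1 : Continuous fun x : ℝ => conj (cexp (-(I * ω j * x))) :=
        Complex.continuous_conj.comp (by fun_prop)
      fun_prop
    rw [intervalIntegral.integral_finsetSum fun i _ =>
      (continuous_finsetSum _ fun j _ => hcont i j).intervalIntegrable _ _]
    refine Finset.sum_congr rfl fun i _ => ?_
    rw [intervalIntegral.integral_finsetSum fun j _ => (hcont i j).intervalIntegrable _ _]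
    refine Finset.sum_congr rfl fun j _ => ?_
    rw [intervalIntegral.integral_const_mul, ← hMx]
  rw [hcell, Complex.ofReal_re]
  have hPc : Continuous Pm := by unfold Pm; fun_prop
  have hc2 : ∀ k, Continuous fun x : ℝ => Pm x *
      ‖es (Finset.univ.filter fun i => y i = k) (fun i => (μ i : ℂ)) ω x‖ ^ 2 := fun k =>
    hPc.mul ((es_cont _ _ _).norm.pow 2)
  have hnn : ∀ k ∈ Y, 0 ≤ ∫ x in (1 / 4 : ℝ)..(3 / 4), Pm x *
        ‖es (Finset.univ.filter fun i => y i = k) (fun i => (μ i : ℂ)) ω x‖ ^ 2 := by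
    intro k _
    refine intervalIntegral.integral_nonneg (by norm_num) fun x hx => ?_
    exact mul_nonneg (Pm_nn hx.1 hx.2) (sq_nonneg _)
  refine le_trans ?_ (Finset.single_le_sum hnn (Finset.mem_image_of_mem y (Finset.mem_univ j0)))
  set S := Finset.univ.filter fun i => y i = y j0 with hS
  have h1 := h S (Finset.card_le_univ _) j0 (by rw [hS]; simp) ω (fun i hi j hj hij => by
    have h2 := (Finset.mem_filter.1 hi).2
    have h3 := (Finset.mem_filter.1 hj).2
    have h4 := hsep i j hij (h2.trans h3.symm)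
    simp only [hω]
    rw [← sub_mul, abs_mul, abs_of_pos hL, mul_comm]
    exact h4) (fun i => (μ i : ℂ)) (3 / 8)
  have h2 : ∫ x in (3 / 8 : ℝ)..(3 / 8 + 1 / 4), 3 / 64 * ‖es S (fun i => (μ i : ℂ)) ω x‖ ^ 2 ≤
      ∫ x in (1 / 4 : ℝ)..(3 / 4), Pm x * ‖es S (fun i => (μ i : ℂ)) ω x‖ ^ 2 := by
    have h3 : ∫ x in (3 / 8 : ℝ)..(3 / 8 + 1 / 4), 3 / 64 * ‖es S (fun i => (μ i : ℂ)) ω x‖ ^ 2 ≤
        ∫ x in (3 / 8 : ℝ)..(3 / 8 + 1 / 4), Pm x * ‖es S (fun i => (μ i : ℂ)) ω x‖ ^ 2 := by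
      refine intervalIntegral.integral_mono_on (by norm_num)
        ((continuous_const.mul ((es_cont _ _ _).norm.pow 2)).intervalIntegrable _ _)
        ((hc2 (y j0)).intervalIntegrable _ _) fun x hx => ?_
      refine mul_le_mul_of_nonneg_right ?_ (sq_nonneg _)
      unfold Pm
      have g1 := hx.1
      have g2 := hx.2
      nlinarith
    refine h3.trans ?_
    refine intervalIntegral.integral_mono_interval (by norm_num) (by norm_num) (by norm_num) ?_
      ((hc2 (y j0)).intervalIntegrable _ _)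
    refine (ae_restrict_iff' measurableSet_Ioc).2 (ae_of_all _ fun x hx => ?_)
    exact mul_nonneg (Pm_nn hx.1.le hx.2) (sq_nonneg _)
  rw [intervalIntegral.integral_const_mul] at h2
  refine le_trans ?_ h2
  rw [Complex.norm_real, Real.norm_eq_abs, sq_abs] at h1
  linarith

/-- **lower bound for the prime sum** -/
theorem gram_low (hF : Fam q y) {κ1 : ℝ} (hκ : 0 < κ1) (A : ℕ) : ∃ c : ℝ, 0 < c ∧ ∀ᶠ L : ℝ in atTop,
    ∀ ν : ι → ℝ, (∀ i j, i ≠ j → y i = y j → κ1 ≤ L * |ν i - ν j|) →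
    (∀ i j, |ν i - ν j| ≤ Real.exp (A * L)) →
    ∀ μ : ι → ℝ, (∀ i, |μ i| ≤ 1) → ∀ j0, |μ j0| = 1 →
    c * L ≤ ∑ n ∈ (Finset.Ioc ⌊Real.exp (L / 4)⌋₊ ⌊Real.exp (3 * L / 4)⌋₊).filter Nat.Prime,
      ww L n * ‖∑ i, (μ i : ℂ) * tc y ν i n‖ ^ 2 := by
  classical
  obtain ⟨c, hc, hmain⟩ := main_low hF hκ
  set k := Fintype.card ι with hk
  set ε := c / (4 * ((k : ℝ) ^ 2 + 1)) with hε
  have hε0 : 0 < ε := by positivity
  have t1 : ∀ᶠ L : ℝ in atTop, ∀ i j, ∀ τ : ℝ, |τ| ≤ Real.exp (A * L) →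
      ‖(∑ n ∈ Finset.Ioc ⌊Real.exp (L / 4)⌋₊ ⌊Real.exp (3 * L / 4)⌋₊, Wt L τ n *
        vg (fun n => y i n * conj (y j n)) n) -
        dl (q i * q j) (fun n => y i n * conj (y j n)) * (L * Mx L τ)‖ ≤ ε * L :=
    eventually_all.2 fun i => eventually_all.2 fun j => unif (hF.pg i j) A hε0
  have t2 := np_small (ρ := 1) zero_le_one hε0
  refine ⟨c / 4, by positivity, ?_⟩
  filter_upwards [t1, t2, eventually_ge_atTop 1] with L t1 t2 hL1
  intro ν hsep hbd μ hμ j0 hj0
  have hL : 0 < L := by linarith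
  set J := Finset.Ioc ⌊Real.exp (L / 4)⌋₊ ⌊Real.exp (3 * L / 4)⌋₊ with hJ
  set G : ℕ → ℝ := fun n => ww L n * ‖∑ i, (μ i : ℂ) * tc y ν i n‖ ^ 2 with hG
  have hJ1 : ∀ n ∈ J, Real.exp (L / 4) < n ∧ (n : ℝ) ≤ Real.exp (3 * L / 4) := by
    intro n hn
    obtain ⟨h1, h2⟩ := Finset.mem_Ioc.1 hn
    exact ⟨(Nat.floor_lt (Real.exp_pos _).le).1 h1, (Nat.le_floor_iff (Real.exp_pos _).le).1 h2⟩
  have hPm : ∀ n ∈ J, 0 ≤ Pm (Real.log n / L) := by
    intro n hn
    obtain ⟨h1, h2⟩ := hJ1 n hn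
    have hn0 : (0 : ℝ) < n := (Real.exp_pos _).trans h1
    refine Pm_nn ?_ ?_
    · rw [le_div_iff₀ hL]
      have := (Real.lt_log_iff_exp_lt hn0).2 h1
      linarith
    · rw [div_le_iff₀ hL]
      have := (Real.log_le_iff_le_exp hn0).2 h2
      linarith
  have hww : ∀ n ∈ J, 0 ≤ ww L n := fun n hn =>
    mul_nonneg (div_nonneg ArithmeticFunction.vonMangoldt_nonneg (Nat.cast_nonneg n)) (hPm n hn)
  -- the full sum
  have hfull : c * L - ε * (k : ℝ) ^ 2 * L ≤ ∑ n ∈ J, G n := by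
    have e1 : ((∑ n ∈ J, G n : ℝ) : ℂ) = ∑ i, ∑ j, (μ i * μ j : ℝ) *
        ∑ n ∈ J, (Wt L (ν i - ν j) n * vg (fun n => y i n * conj (y j n)) n) := by
      rw [Complex.ofReal_sum]
      simp only [hG]
      simp_rw [sq_exp]
      rw [Finset.sum_comm]
      refine Finset.sum_congr rfl fun i _ => ?_
      rw [Finset.sum_comm]
      refine Finset.sum_congr rfl fun j _ => ?_
      rw [Finset.mul_sum]
    have e2 : ‖((∑ n ∈ J, G n : ℝ) : ℂ) - ∑ i, ∑ j, (μ i * μ j : ℝ) *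
        (dl (q i * q j) (fun n => y i n * conj (y j n)) * (L * Mx L (ν i - ν j)))‖ ≤ ε * (k : ℝ) ^ 2 * L := by
      rw [e1, ← Finset.sum_sub_distrib]
      refine (norm_sum_le _ _).trans ?_
      have h3 : ∀ i ∈ Finset.univ, ‖∑ j, (μ i * μ j : ℝ) *
          ∑ n ∈ J, (Wt L (ν i - ν j) n * vg (fun n => y i n * conj (y j n)) n) - ∑ j, (μ i * μ j : ℝ) *
        (dl (q i * q j) (fun n => y i n * conj (y j n)) * (L * Mx L (ν i - ν j)))‖ ≤ k * (ε * L) := by
        intro i _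
        rw [← Finset.sum_sub_distrib]
        refine (norm_sum_le _ _).trans ?_
        have h4 : ∀ j ∈ Finset.univ, ‖(μ i * μ j : ℝ) *
          ∑ n ∈ J, (Wt L (ν i - ν j) n * vg (fun n => y i n * conj (y j n)) n) - (μ i * μ j : ℝ) *
          (dl (q i * q j) (fun n => y i n * conj (y j n)) * (L * Mx L (ν i - ν j)))‖ ≤ ε * L := by
          intro j _
          rw [← mul_sub, norm_mul, Complex.norm_real, Real.norm_eq_abs, abs_mul]
          have h5 := t1 i j (ν i - ν j) (hbd i j)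
          have h6 : |μ i| * |μ j| ≤ 1 := by
            calc |μ i| * |μ j| ≤ 1 * 1 := mul_le_mul (hμ i) (hμ j) (abs_nonneg _) zero_le_one
              _ = 1 := one_mul 1
          calc _ ≤ 1 * (ε * L) := mul_le_mul h6 h5 (norm_nonneg _) zero_le_one
            _ = _ := one_mul _
        refine (Finset.sum_le_sum h4).trans (le_of_eq ?_)
        rw [Finset.sum_const, Finset.card_univ, nsmul_eq_mul]
      refine (Finset.sum_le_sum h3).trans (le_of_eq ?_)
      rw [Finset.sum_const, Finset.card_univ, nsmul_eq_mul]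
      ring
    have e3 : ∑ i, ∑ j, (μ i * μ j : ℝ) *
        (dl (q i * q j) (fun n => y i n * conj (y j n)) * (L * Mx L (ν i - ν j))) =
        (L : ℂ) * ∑ i, ∑ j, (μ i * μ j : ℝ) *
        (dl (q i * q j) (fun n => y i n * conj (y j n)) * Mx L (ν i - ν j)) := by
      rw [Finset.mul_sum]
      refine Finset.sum_congr rfl fun i _ => ?_
      rw [Finset.mul_sum]
      exact Finset.sum_congr rfl fun j _ => by ring
    have h5 := hmain L ν hL hsep μ j0
    have h6 : μ j0 ^ 2 = 1 := by rw [← sq_abs, hj0]; norm_num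
    rw [h6, mul_one] at h5
    have h7 := (abs_le.1 ((abs_re_le_norm _).trans e2)).1
    rw [Complex.sub_re, Complex.ofReal_re, e3, Complex.re_ofReal_mul] at h7
    have h8 := mul_le_mul_of_nonneg_left h5 hL.le
    linarith
  -- removing the prime powers
  have hnp : ∑ n ∈ J.filter (fun n => ¬ n.Prime), G n ≤ (k : ℝ) ^ 2 * (ε * L) := by
    set N := ⌊Real.exp (3 * L / 4)⌋₊ with hN
    have h1 : Real.log N ≤ 1 * L := by
      rcases Nat.eq_zero_or_pos N with h | h
      · rw [h]; simp; linarith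
      · have h2 : (N : ℝ) ≤ Real.exp (3 * L / 4) := Nat.floor_le (Real.exp_pos _).le
        have h3 := (Real.log_le_iff_le_exp (by exact_mod_cast h)).2 h2
        linarith
    have h2 := t2 N h1
    have hsub : J.filter (fun n => ¬ n.Prime) ⊆ NP N := by
      intro n hn
      obtain ⟨h3, h4⟩ := Finset.mem_filter.1 hn
      obtain ⟨h5, h6⟩ := Finset.mem_Ioc.1 h3
      unfold NP
      rw [Finset.mem_filter, Finset.mem_Icc]
      refine ⟨⟨?_, h6⟩, h4⟩
      have : 1 ≤ ⌊Real.exp (L / 4)⌋₊ := Nat.floor_pos.2 (Real.one_le_exp (by positivity))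
      omega
    have h3 : ∀ n ∈ J.filter (fun n => ¬ n.Prime), G n ≤ (k : ℝ) ^ 2 * (Λ n / n) := by
      intro n hn
      have hnJ := (Finset.mem_filter.1 hn).1
      simp only [hG]
      have h4 := tc_sum_le hF ν hμ n
      have h5 := pow_le_pow_left₀ (norm_nonneg _) h4 2
      have h6 : ww L n ≤ Λ n / n := by
        unfold ww
        refine mul_le_of_le_one_right (div_nonneg ArithmeticFunction.vonMangoldt_nonneg (Nat.cast_nonneg n)) ?_
        have := Pm_le (Real.log n / L)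
        linarith
      calc ww L n * ‖∑ i, (μ i : ℂ) * tc y ν i n‖ ^ 2 ≤ (Λ n / n) * (k : ℝ) ^ 2 :=
            mul_le_mul h6 h5 (sq_nonneg _)
              (div_nonneg ArithmeticFunction.vonMangoldt_nonneg (Nat.cast_nonneg n))
        _ = _ := mul_comm _ _
    refine (Finset.sum_le_sum h3).trans ?_
    rw [← Finset.mul_sum]
    refine mul_le_mul_of_nonneg_left (le_trans ?_ h2) (sq_nonneg _)
    exact Finset.sum_le_sum_of_subset_of_nonneg hsub fun n _ _ =>
      div_nonneg ArithmeticFunction.vonMangoldt_nonneg (Nat.cast_nonneg n)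
  have hsplit := Finset.sum_filter_add_sum_filter_not J Nat.Prime G
  have hεk : ε * (k : ℝ) ^ 2 ≤ c / 4 := by
    rw [hε, div_mul_eq_mul_div, div_le_div_iff₀ (by positivity) (by norm_num)]
    nlinarith [sq_nonneg (k : ℝ)]
  have h9 : ε * (k : ℝ) ^ 2 * L ≤ c / 4 * L := mul_le_mul_of_nonneg_right hεk hL.le
  have h10 : 0 ≤ c * L := by positivity
  linarith

end

end Pool.Agent.H474.SYM
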