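import Pool.Agent.H474.SHP.Sh2a

/-!
# The squares of the kernel, in mean
-/

set_option autoImplicit false
set_option linter.unusedSectionVars false

open Complex Filter Topology Set MeasureTheory
open scoped ComplexConjugate

namespace Pool.Agent.H474.SYM

open Pool.Agent.H474.SHP (pg Gg gw_cnt gwb gw_evn pg_cont pg_even Gg_pos Gg_ge)
open H385 (kapw gw)
open Pool.Agent.Y550.ND (rho phi_eq rho_nonneg kernel_int kernel_cont norm_cexp t_BESS)

section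

variable {γ Λ : ℝ}

/-- pointwise bound -/
lemma pg_pt (h0 : 0 < γ) (hπ : γ < Real.pi) (hΛ : 0 < Λ) (z : ℂ) :
    ‖pg γ Λ z‖ ≤ Gg γ * Real.exp (Λ * |z.im| / 2) * Real.exp (-(z.re ^ 2 - z.im ^ 2) / 4) := by
  unfold pg kapw
  rw [norm_mul]
  have h1 : ‖∫ x in (-1 / 2 : ℝ)..(1 / 2), (gw γ x : ℂ) * cexp (I * (Λ * z) * x)‖ ≤
      Gg γ * Real.exp (Λ * |z.im| / 2) := by
    have h2 : ∀ x ∈ Set.uIoc (-1 / 2 : ℝ) (1 / 2), ‖(gw γ x : ℂ) * cexp (I * (Λ * z) * x)‖ ≤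
        Gg γ * Real.exp (Λ * |z.im| / 2) := by
      intro x hx
      rw [Set.uIoc_of_le (by norm_num)] at hx
      obtain ⟨g1, g2⟩ := gwb h0 hπ x ⟨hx.1.le, hx.2⟩
      rw [norm_mul, Complex.norm_real, Real.norm_of_nonneg g1, Complex.norm_exp]
      have e1 : (I * (Λ * z) * x).re = -(Λ * z.im * x) := by
        simp [mul_assoc]
      rw [e1]
      refine mul_le_mul g2 (Real.exp_le_exp.2 ?_) (Real.exp_pos _).le (Gg_pos h0 hπ).le
      have e2 : |Λ * z.im * x| ≤ Λ * |z.im| * (1 / 2) := by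
        rw [abs_mul, abs_mul, abs_of_pos hΛ]
        refine mul_le_mul_of_nonneg_left ?_ (by positivity)
        rw [abs_le]; constructor <;> linarith [hx.1, hx.2]
      have e3 := neg_abs_le (Λ * z.im * x)
      linarith
    refine (intervalIntegral.norm_integral_le_of_norm_le_const h2).trans (le_of_eq ?_)
    norm_num
  have h3 : ‖cexp (-z ^ 2 / 4)‖ = Real.exp (-(z.re ^ 2 - z.im ^ 2) / 4) := by
    rw [Complex.norm_exp]
    congr 1
    have : (-z ^ 2 / 4 : ℂ) = -(z ^ 2) / ((4 : ℝ) : ℂ) := by push_cast; ring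
    rw [this, Complex.div_ofReal_re, Complex.neg_re, sq z, Complex.mul_re]
    ring
  rw [h3]
  exact mul_le_mul_of_nonneg_right h1 (Real.exp_pos _).le

/-- representation of the kernel -/
lemma pg_rep (h0 : 0 < γ) (hπ : γ < Real.pi) (z : ℂ) :
    ∫ u : ℝ, (rho (gw γ) Λ u : ℂ) * cexp (I * u * z) = pg γ Λ z :=
  phi_eq gw_cnt (gwb h0 hπ) z

/-- exponential moments of the spectral density -/
lemma rho_exp (h0 : 0 < γ) (hπ : γ < Real.pi) (hΛ : 0 < Λ) (b : ℝ) :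
    Integrable (fun u : ℝ => rho (gw γ) Λ u * Real.exp (u * b)) ∧
    ∫ u : ℝ, rho (gw γ) Λ u * Real.exp (u * b) ≤
      Gg γ * Real.exp (Λ * |b| / 2) * Real.exp (b ^ 2 / 4) := by
  have hi := kernel_int (Λ := Λ) gw_cnt (gwb h0 hπ) (-(b : ℂ) * I)
  have e : ∀ u : ℝ, (rho (gw γ) Λ u : ℂ) * cexp (I * u * (-(b : ℂ) * I)) =
      ((rho (gw γ) Λ u * Real.exp (u * b) : ℝ) : ℂ) := by
    intro u
    push_cast
    congr 2
    have hI : I ^ 2 = -1 := I_sq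
    linear_combination (-(u : ℂ) * b) * hI
  have h1 := pg_rep (Λ := Λ) h0 hπ (-(b : ℂ) * I)
  simp_rw [e] at h1 hi
  have hi' : Integrable (fun u : ℝ => rho (gw γ) Λ u * Real.exp (u * b)) := by
    have h := hi.re
    refine h.congr (ae_of_all _ fun u => ?_)
    change (((rho (gw γ) Λ u * Real.exp (u * b) : ℝ) : ℂ)).re = _
    rw [Complex.ofReal_re]
  refine ⟨hi', ?_⟩
  rw [integral_complex_ofReal] at h1
  have h2 := pg_pt h0 hπ hΛ (-(b : ℂ) * I)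
  rw [← h1, Complex.norm_real, Real.norm_eq_abs] at h2
  have e1 : (-(b : ℂ) * I).im = -b := by simp
  have e2 : (-(b : ℂ) * I).re = 0 := by simp
  rw [e1, e2, abs_neg] at h2
  refine (le_abs_self _).trans (h2.trans (le_of_eq ?_))
  congr 2
  ring

/-- the general Bessel inequality in terms of the spectral density -/
lemma bess2 (h0 : 0 < γ) (hπ : γ < Real.pi) (hΛ : 0 < Λ) (z w : ℂ) (hzw : z ≠ w) :
    Integrable (fun s : ℝ => ‖pg γ Λ (z - s) - pg γ Λ (w - s)‖ ^ 2) ∧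
    ∫ s : ℝ, ‖pg γ Λ (z - s) - pg γ Λ (w - s)‖ ^ 2 ≤
      (2 * Real.pi * Gg γ / Λ) * ∫ u : ℝ, rho (gw γ) Λ u *
        ‖cexp (-(I * u * z)) - cexp (-(I * u * w))‖ ^ 2 := by
  classical
  obtain ⟨i1, i2⟩ := t_BESS (gw γ) gw_cnt (gw_evn h0 hπ) (Gg γ) (gwb h0 hπ) Λ hΛ (pg γ Λ)
    (fun z => rfl) {z, w} (fun v => if v = z then 1 else -1)
  have hsum : ∀ f : ℂ → ℂ, ∑ v ∈ ({z, w} : Finset ℂ), f v = f z + f w := fun f =>
    Finset.sum_pair hzw
  have hw : ¬ (w = z) := fun h => hzw h.symm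
  simp only [hsum, if_true, if_neg hw] at i1 i2
  have e1 : ∀ s : ℝ, 1 * pg γ Λ (s - z) + -1 * pg γ Λ (s - w) = pg γ Λ (z - s) - pg γ Λ (w - s) := by
    intro s
    rw [← pg_even Λ (s - z : ℂ), ← pg_even Λ (s - w : ℂ), neg_sub, neg_sub]
    ring
  simp only [e1] at i1 i2
  refine ⟨i1, i2.trans (le_of_eq ?_)⟩
  congr 1
  -- the right side
  have hint : ∀ a b : ℂ, Integrable fun u : ℝ => (rho (gw γ) Λ u : ℂ) * cexp (I * u * (conj b - a)) :=
    fun a b => kernel_int gw_cnt (gwb h0 hπ) _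
  have hval : ∀ a b : ℂ, pg γ Λ (conj b - a) = ∫ u : ℝ, (rho (gw γ) Λ u : ℂ) *
      cexp (I * u * (conj b - a)) := fun a b => (pg_rep h0 hπ _).symm
  have e2 : ∀ u : ℝ, ((rho (gw γ) Λ u * ‖cexp (-(I * u * z)) - cexp (-(I * u * w))‖ ^ 2 : ℝ) : ℂ) =
      (rho (gw γ) Λ u : ℂ) * cexp (I * u * (conj z - z)) - (rho (gw γ) Λ u : ℂ) * cexp (I * u * (conj w - z)) -
      ((rho (gw γ) Λ u : ℂ) * cexp (I * u * (conj z - w)) - (rho (gw γ) Λ u : ℂ) * cexp (I * u * (conj w - w))) := by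
    intro u
    have e3 : ((‖cexp (-(I * u * z)) - cexp (-(I * u * w))‖ ^ 2 : ℝ) : ℂ) =
        (cexp (-(I * u * z)) - cexp (-(I * u * w))) * conj (cexp (-(I * u * z)) - cexp (-(I * u * w))) := by
      rw [Complex.mul_conj, Complex.normSq_eq_norm_sq]
    have e4 : ∀ v : ℂ, conj (cexp (-(I * u * v))) = cexp (I * u * conj v) := by
      intro v
      rw [← Complex.exp_conj]
      congr 1
      simp
    rw [Complex.ofReal_mul, e3, map_sub, e4, e4]
    have e5 : ∀ a b : ℂ, cexp (I * u * (conj b - a)) = cexp (-(I * u * a)) * cexp (I * u * conj b) := by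
      intro a b
      rw [← Complex.exp_add]; congr 1; ring
    rw [e5, e5, e5, e5]
    ring
  have e6 : ((∫ u : ℝ, rho (gw γ) Λ u * ‖cexp (-(I * u * z)) - cexp (-(I * u * w))‖ ^ 2 : ℝ) : ℂ) =
      pg γ Λ (conj z - z) - pg γ Λ (conj w - z) - (pg γ Λ (conj z - w) - pg γ Λ (conj w - w)) := by
    rw [← integral_complex_ofReal]
    simp_rw [e2]
    have s1 := integral_sub ((hint z z).sub (hint z w)) ((hint w z).sub (hint w w))
    simp only [Pi.sub_apply] at s1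
    rw [s1, integral_sub (hint z z) (hint z w), integral_sub (hint w z) (hint w w),
      hval, hval, hval, hval]
  have e7 : ∫ u : ℝ, rho (gw γ) Λ u * ‖cexp (-(I * u * z)) - cexp (-(I * u * w))‖ ^ 2 =
      (pg γ Λ (conj z - z) - pg γ Λ (conj w - z) - (pg γ Λ (conj z - w) - pg γ Λ (conj w - w))).re := by
    rw [← e6, Complex.ofReal_re]
  rw [e7]
  congr 1
  simp only [map_one, map_neg]
  ring

/-- one point -/
lemma bess1 (h0 : 0 < γ) (hπ : γ < Real.pi) (hΛ : 0 < Λ) (z : ℂ) :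
    Integrable (fun s : ℝ => ‖pg γ Λ (z - s)‖ ^ 2) ∧
    ∫ s : ℝ, ‖pg γ Λ (z - s)‖ ^ 2 ≤
      (2 * Real.pi * Gg γ ^ 2 / Λ) * (Real.exp (Λ * |z.im|) * Real.exp (z.im ^ 2)) := by
  obtain ⟨i1, i2⟩ := t_BESS (gw γ) gw_cnt (gw_evn h0 hπ) (Gg γ) (gwb h0 hπ) Λ hΛ (pg γ Λ)
    (fun z => rfl) {z} (fun v => 1)
  simp only [Finset.sum_singleton, one_mul, map_one] at i1 i2
  have e1 : ∀ s : ℝ, pg γ Λ (s - z) = pg γ Λ (z - s) := by
    intro s
    rw [← pg_even Λ (s - z : ℂ), neg_sub]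
  simp only [e1] at i1 i2
  refine ⟨i1, i2.trans ?_⟩
  have h1 := (re_le_norm _).trans (pg_pt h0 hπ hΛ (conj z - z))
  have e2 : (conj z - z).re = 0 := by simp
  have e3 : (conj z - z).im = -(2 * z.im) := by simp; ring
  rw [e2, e3, abs_neg, abs_mul, abs_of_pos (by norm_num : (0:ℝ) < 2)] at h1
  have hG := Gg_pos h0 hπ
  have e4 : Λ * (2 * |z.im|) / 2 = Λ * |z.im| := by ring
  have e5 : -((0:ℝ) ^ 2 - (-(2 * z.im)) ^ 2) / 4 = z.im ^ 2 := by ring
  rw [e4, e5] at h1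
  have h2 : 0 ≤ 2 * Real.pi * Gg γ / Λ := by have := Real.pi_pos; positivity
  refine (mul_le_mul_of_nonneg_left h1 h2).trans (le_of_eq ?_)
  ring

/-- two points -/
lemma bess_diff (h0 : 0 < γ) (hπ : γ < Real.pi) (hΛ : 4 ≤ Λ) {z w : ℂ} {Y : ℝ} (hz : |z.im| ≤ Y)
    (hw : |w.im| ≤ Y) (hY : Y ≤ 1 / 2) (hδ : ‖z - w‖ ≤ 1 / Λ) (hzw : z ≠ w) :
    Integrable (fun s : ℝ => ‖pg γ Λ (z - s) - pg γ Λ (w - s)‖ ^ 2) ∧
    ∫ s : ℝ, ‖pg γ Λ (z - s) - pg γ Λ (w - s)‖ ^ 2 ≤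
      (4 * Real.pi * Gg γ ^ 2 * Real.exp 3) * Λ * ‖z - w‖ ^ 2 * Real.exp (Λ * Y) := by
  have hΛ0 : 0 < Λ := by linarith
  have hY0 : 0 ≤ Y := (abs_nonneg _).trans hz
  obtain ⟨i1, i2⟩ := bess2 h0 hπ hΛ0 z w hzw
  refine ⟨i1, i2.trans ?_⟩
  set δ := ‖z - w‖ with hδd
  have hG := Gg_pos h0 hπ
  set b := 2 * (Y + 2 / Λ) with hb
  have hb0 : 0 ≤ b := by positivity
  obtain ⟨j1, j2⟩ := rho_exp h0 hπ hΛ0 b
  obtain ⟨j3, j4⟩ := rho_exp h0 hπ hΛ0 (-b)
  have hpt : ∀ u : ℝ, rho (gw γ) Λ u * ‖cexp (-(I * u * z)) - cexp (-(I * u * w))‖ ^ 2 ≤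
      (Λ * δ) ^ 2 * (rho (gw γ) Λ u * Real.exp (u * b) + rho (gw γ) Λ u * Real.exp (u * (-b))) := by
    intro u
    have hr := rho_nonneg (Λ := Λ) (gwb h0 hπ) u
    have n1 : ‖cexp (-(I * u * w))‖ ≤ Real.exp (|u| * Y) := by
      rw [Complex.norm_exp]
      apply Real.exp_le_exp.2
      have : (-(I * u * w)).re = u * w.im := by simp [mul_assoc]
      rw [this]
      refine (le_abs_self _).trans ?_
      rw [abs_mul]
      exact mul_le_mul_of_nonneg_left hw (abs_nonneg _)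
    have n2 : ‖cexp (-(I * u * (z - w))) - 1‖ ≤ |u| * δ * Real.exp (|u| * δ) := by
      have h3 := Complex.norm_exp_sub_sum_le_norm_mul_exp (-(I * u * (z - w))) 1
      simp only [Finset.sum_range_one, pow_zero, Nat.factorial_zero, Nat.cast_one, div_one, pow_one] at h3
      have h4 : ‖(-(I * u * (z - w)) : ℂ)‖ = |u| * δ := by
        rw [norm_neg, norm_mul, norm_mul, Complex.norm_I, one_mul, Complex.norm_real, Real.norm_eq_abs]
      rw [h4] at h3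
      exact h3
    have n3 : cexp (-(I * u * z)) - cexp (-(I * u * w)) =
        cexp (-(I * u * w)) * (cexp (-(I * u * (z - w))) - 1) := by
      rw [mul_sub, ← Complex.exp_add, mul_one]
      congr 2; ring
    have n4 : |u| * δ * Real.exp (|u| * δ) ≤ (Λ * δ) * (Real.exp (|u| / Λ) * Real.exp (|u| / Λ)) := by
      have h5 : |u| * δ ≤ |u| / Λ := by
        calc |u| * δ ≤ |u| * (1 / Λ) := mul_le_mul_of_nonneg_left hδ (abs_nonneg _)
          _ = _ := by ring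
      have h6 : |u| * δ = (Λ * δ) * (|u| / Λ) := by field_simp
      have h7 : |u| / Λ ≤ Real.exp (|u| / Λ) := by linarith [Real.add_one_le_exp (|u| / Λ)]
      have h8 : Real.exp (|u| * δ) ≤ Real.exp (|u| / Λ) := Real.exp_le_exp.2 h5
      have h9 : 0 ≤ |u| / Λ := by positivity
      calc |u| * δ * Real.exp (|u| * δ) = ((Λ * δ) * (|u| / Λ)) * Real.exp (|u| * δ) := by rw [← h6]
        _ ≤ ((Λ * δ) * Real.exp (|u| / Λ)) * Real.exp (|u| / Λ) := by gcongr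
        _ = _ := by ring
    have n5 : ‖cexp (-(I * u * z)) - cexp (-(I * u * w))‖ ≤ (Λ * δ) * Real.exp (|u| * (Y + 2 / Λ)) := by
      rw [n3, norm_mul]
      calc _ ≤ Real.exp (|u| * Y) * ((Λ * δ) * (Real.exp (|u| / Λ) * Real.exp (|u| / Λ))) :=
            mul_le_mul n1 (n2.trans n4) (norm_nonneg _) (Real.exp_pos _).le
        _ = (Λ * δ) * (Real.exp (|u| * Y) * (Real.exp (|u| / Λ) * Real.exp (|u| / Λ))) := by ring
        _ = _ := by rw [← Real.exp_add, ← Real.exp_add]; congr 2; ring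
    have n6 := pow_le_pow_left₀ (norm_nonneg _) n5 2
    have n7 : Real.exp (|u| * (Y + 2 / Λ)) ^ 2 ≤ Real.exp (u * b) + Real.exp (u * (-b)) := by
      rw [← Real.exp_nat_mul]
      have e : ((2 : ℕ) : ℝ) * (|u| * (Y + 2 / Λ)) = |u| * b := by rw [hb]; push_cast; ring
      rw [e]
      rcases abs_cases u with ⟨h, -⟩ | ⟨h, -⟩
      · rw [h]; linarith [Real.exp_pos (u * (-b))]
      · rw [h]
        have : -u * b = u * (-b) := by ring
        rw [this]; linarith [Real.exp_pos (u * b)]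
    calc rho (gw γ) Λ u * ‖cexp (-(I * u * z)) - cexp (-(I * u * w))‖ ^ 2 ≤
        rho (gw γ) Λ u * ((Λ * δ) * Real.exp (|u| * (Y + 2 / Λ))) ^ 2 := mul_le_mul_of_nonneg_left n6 hr
      _ = (Λ * δ) ^ 2 * (rho (gw γ) Λ u * Real.exp (|u| * (Y + 2 / Λ)) ^ 2) := by ring
      _ ≤ (Λ * δ) ^ 2 * (rho (gw γ) Λ u * (Real.exp (u * b) + Real.exp (u * (-b)))) := by gcongr
      _ = _ := by ring
  have hmono : ∫ u : ℝ, rho (gw γ) Λ u * ‖cexp (-(I * u * z)) - cexp (-(I * u * w))‖ ^ 2 ≤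
      ∫ u : ℝ, (Λ * δ) ^ 2 * (rho (gw γ) Λ u * Real.exp (u * b) + rho (gw γ) Λ u * Real.exp (u * (-b))) := by
    refine integral_mono_of_nonneg (ae_of_all _ fun u => ?_) ((j1.add j3).const_mul _) (ae_of_all _ hpt)
    exact mul_nonneg (rho_nonneg (gwb h0 hπ) u) (sq_nonneg _)
  rw [integral_const_mul, integral_add j1 j3] at hmono
  rw [abs_neg, neg_sq] at j4
  rw [abs_of_nonneg hb0] at j2 j4
  have hb1 : b ^ 2 / 4 ≤ 1 := by
    have h1 : 2 / Λ ≤ 1 / 2 := by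
      rw [div_le_div_iff₀ hΛ0 (by norm_num)]; linarith
    have h2 : b ≤ 2 := by rw [hb]; linarith
    nlinarith
  have hb2 : Λ * b / 2 = Λ * Y + 2 := by rw [hb]; field_simp
  have hfin : ∫ u : ℝ, rho (gw γ) Λ u * ‖cexp (-(I * u * z)) - cexp (-(I * u * w))‖ ^ 2 ≤
      (Λ * δ) ^ 2 * (2 * (Gg γ * (Real.exp (Λ * Y) * Real.exp 3))) := by
    refine hmono.trans (mul_le_mul_of_nonneg_left ?_ (sq_nonneg _))
    have h3 : Gg γ * Real.exp (Λ * b / 2) * Real.exp (b ^ 2 / 4) ≤ Gg γ * (Real.exp (Λ * Y) * Real.exp 3) := by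
      rw [hb2, mul_assoc, ← Real.exp_add, ← Real.exp_add]
      refine mul_le_mul_of_nonneg_left (Real.exp_le_exp.2 (by linarith)) hG.le
    linarith
  have h2 : 0 ≤ 2 * Real.pi * Gg γ / Λ := by have := Real.pi_pos; positivity
  refine (mul_le_mul_of_nonneg_left hfin h2).trans (le_of_eq ?_)
  field_simp
  ring

end

end Pool.Agent.H474.SYM
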