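import Pool.Graph.R_pool_sql_team_seeded_620a6dc7.helper24_UT_.Zsx
import Pool.Graph.R_pool_sql_team_seeded_620a6dc7.helper24_UT_.T1
import Pool.Graph.R_pool_sql_team_seeded_620a6dc7.helper24_UT_.Rs
import Pool.Graph.R_pool_sql_team_seeded_620a6dc7.helper24_UT_.Rz
import Pool.Graph.R_pool_sql_team_seeded_620a6dc7.helper24_UT_.Fb
import Pool.Graph.R_pool_sql_team_seeded_620a6dc7.helper24_UT_.T341
import Pool.Graph.R_pool_sql_team_seeded_620a6dc7.helper24_UT_.Conv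
import Pool.Graph.R_pool_sql_team_seeded_620a6dc7.helper24_UT_.Gb
import Pool.Graph.R_pool_sql_team_seeded_620a6dc7.helper24_UT_.Riesz
import Pool.Graph.R_pool_sql_team_seeded_620a6dc7.helper24_UT_.Pg
import Pool.Graph.R_pool_sql_team_seeded_620a6dc7.helper24_UT_.P1
import Pool.Graph.R_seed8.H373R2.T7.LamMaj
import Pool.Agent.H474.SYM.Abl

/-!
# Sums over prime powers with periodic multiplicative coefficients, uniformly in the twist
-/

set_option autoImplicit false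
set_option linter.unusedSectionVars false

open Complex MeasureTheory Set Filter Topology
open Pool.Agent.helper24_UT (S_P1 S_T1 S_GB S_PG CM tw)

namespace Pool.Agent.H474.SYM

theorem tt_T1 : S_T1 := Pool.Agent.helper24_UT.T1.main Pool.Agent.helper24_UT.Zsx.main
theorem tt_GB : S_GB := Pool.Agent.helper24_UT.Gb.main Pool.Agent.helper24_UT.Rs.main
  Pool.Agent.helper24_UT.Rz.main (Pool.Agent.helper24_UT.Fb.main Pool.Agent.helper24_UT.Rz.main)
  Pool.Agent.helper24_UT.T341.main Pool.Agent.helper24_UT.Conv.main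
theorem tt_PG : S_PG := Pool.Agent.helper24_UT.Pg.main tt_GB Pool.Agent.helper24_UT.Riesz.main
theorem tt_P1 : S_P1 := Pool.Agent.helper24_UT.P1.main tt_T1 tt_PG

/-- periodic completely multiplicative functions -/
structure Pg (q : ℕ) (g : ℕ → ℂ) : Prop where
  q1 : 1 ≤ q
  cm : CM g
  per : ∀ n, g (n + q) = g n
  cop : ∀ n, ¬ n.Coprime q → g n = 0

/-- the mean over the reduced residue classes -/
noncomputable def dl (q : ℕ) (g : ℕ → ℂ) : ℂ := (∑ r ∈ Finset.range q, g r) / (Nat.totient q : ℂ)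

/-- the coefficients -/
noncomputable def vg (g : ℕ → ℂ) (n : ℕ) : ℂ := (ArithmeticFunction.vonMangoldt n : ℂ) * g n

lemma vg_zero (g : ℕ → ℂ) : vg g 0 = 0 := by unfold vg; simp

lemma Icc0 (c : ℕ → ℂ) (h0 : c 0 = 0) (N : ℕ) : ∑ k ∈ Finset.Icc 0 N, c k = ∑ k ∈ Finset.Icc 1 N, c k := by
  symm
  refine Finset.sum_subset (fun n hn => ?_) fun n hn hn' => ?_
  · rw [Finset.mem_Icc] at hn ⊢; omega
  · rw [Finset.mem_Icc] at hn hn'
    have : n = 0 := by omega
    rw [this, h0]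

/-- the prime number theorem -/
lemma pnt_g {q : ℕ} {g : ℕ → ℂ} (hg : Pg q g) (U : ℕ) : ∃ N0 : ℕ, ∀ N : ℕ, N0 ≤ N →
    ‖(∑ n ∈ Finset.Icc 1 N, vg g n) - dl q g * N‖ ≤ q * (N / Real.log N ^ U) := by
  obtain ⟨N1, h1⟩ := Pool.Agent.H373R2.T7.lam_ap 1 U
  obtain ⟨N2, h2⟩ := eventually_atTop.1 ((Real.tendsto_log_atTop.comp
    (tendsto_natCast_atTop_atTop (R := ℝ))).eventually_ge_atTop (q : ℝ))
  refine ⟨max N1 N2, fun N hN => ?_⟩
  have h3 := h1 N ((le_max_left _ _).trans hN) q hg.q1 (by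
    rw [pow_one]; exact h2 N ((le_max_right _ _).trans hN))
  have hq : 0 < q := hg.q1
  have hper : Function.Periodic g q := hg.per
  have e1 : ∑ n ∈ Finset.Icc 1 N, vg g n = ∑ r ∈ Finset.range q,
      g r * ((∑ n ∈ (Finset.Icc 1 N).filter (fun n => n ≡ r [MOD q]), ArithmeticFunction.vonMangoldt n : ℝ) : ℂ) := by
    rw [← Finset.sum_fiberwise_of_maps_to (s := Finset.Icc 1 N) (t := Finset.range q) (g := fun n => n % q)
      (fun n _ => Finset.mem_range.2 (Nat.mod_lt _ hq))]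
    refine Finset.sum_congr rfl fun r hr => ?_
    rw [Complex.ofReal_sum, Finset.mul_sum]
    have e2 : (Finset.Icc 1 N).filter (fun n => n % q = r) =
        (Finset.Icc 1 N).filter (fun n => n ≡ r [MOD q]) := by
      refine Finset.filter_congr fun n _ => ?_
      unfold Nat.ModEq
      rw [Nat.mod_eq_of_lt (Finset.mem_range.1 hr)]
    rw [e2]
    refine Finset.sum_congr rfl fun n hn => ?_
    have h4 := (Finset.mem_filter.1 hn).2
    have h5 : g n = g r := by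
      rw [← hper.map_mod_nat n, ← hper.map_mod_nat r, h4]
    unfold vg
    rw [h5, mul_comm]
  have e3 : dl q g * N = ∑ r ∈ Finset.range q, g r * ((if r.Coprime q then (N : ℝ) / (Nat.totient q : ℝ) else 0 : ℝ) : ℂ) := by
    unfold dl
    rw [div_mul_eq_mul_div, Finset.sum_mul, Finset.sum_div]
    refine Finset.sum_congr rfl fun r _ => ?_
    split_ifs with h
    · push_cast; ring
    · rw [hg.cop r h]; simp
  rw [e1, e3, ← Finset.sum_sub_distrib]
  refine (norm_sum_le _ _).trans ?_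
  have h6 : ∀ r ∈ Finset.range q, ‖g r * ((∑ n ∈ (Finset.Icc 1 N).filter (fun n => n ≡ r [MOD q]),
      ArithmeticFunction.vonMangoldt n : ℝ) : ℂ) -
      g r * ((if r.Coprime q then (N : ℝ) / (Nat.totient q : ℝ) else 0 : ℝ) : ℂ)‖ ≤ N / Real.log N ^ U := by
    intro r _
    rw [← mul_sub, ← Complex.ofReal_sub, norm_mul, Complex.norm_real, Real.norm_eq_abs]
    have h7 := h3 r N le_rfl
    calc ‖g r‖ * _ ≤ 1 * (N / Real.log N ^ U) := mul_le_mul (hg.cm.norm_le r) h7 (abs_nonneg _) zero_le_one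
      _ = _ := one_mul _
  refine (Finset.sum_le_sum h6).trans (le_of_eq ?_)
  rw [Finset.sum_const, Finset.card_range, nsmul_eq_mul]

lemma Wt_tw (L τ : ℝ) (n : ℕ) : Wt L τ n = Wt L 0 n * tw τ n := by
  unfold Wt tw Pool.Agent.H376R2.MR.er
  rw [Complex.ofReal_zero, mul_zero, zero_mul, neg_zero, Complex.exp_zero, mul_one]
  congr 2
  push_cast; ring

lemma floor_exp {L : ℝ} (hL : 8 ≤ L) : Real.exp (L / 8) ≤ (⌊Real.exp (L / 4)⌋₊ : ℝ) := by
  have h1 := Nat.lt_floor_add_one (Real.exp (L / 4))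
  have h2 : Real.exp (L / 4) = Real.exp (L / 8) * Real.exp (L / 8) := by
    rw [← Real.exp_add]; congr 1; ring
  have h3 : L / 8 + 1 ≤ Real.exp (L / 8) := Real.add_one_le_exp _
  have h4 : 1 ≤ L / 8 := by linarith
  nlinarith

/-- **uniformity** -/
theorem unif {q : ℕ} {g : ℕ → ℂ} (hg : Pg q g) (A : ℕ) {ε : ℝ} (hε : 0 < ε) :
    ∀ᶠ L : ℝ in atTop, ∀ τ : ℝ, |τ| ≤ Real.exp (A * L) →
      ‖(∑ n ∈ Finset.Ioc ⌊Real.exp (L / 4)⌋₊ ⌊Real.exp (3 * L / 4)⌋₊, Wt L τ n * vg g n) -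
        dl q g * (L * Mx L τ)‖ ≤ ε * L := by
  obtain ⟨η, hη0, hη1, H⟩ := tt_P1
  obtain ⟨K, L0, hL0, H1⟩ := H A 1 1
  set δ := dl q g with hδ
  obtain ⟨N0, hN0⟩ := pnt_g hg (K + 2)
  -- eventual inequalities
  have t1 : ∀ᶠ L : ℝ in atTop, L ^ (1 - η) ≤ L / 8 := by
    have h1 : Tendsto (fun L : ℝ => L ^ η) atTop atTop := tendsto_rpow_atTop hη0
    filter_upwards [h1.eventually_ge_atTop 8, eventually_gt_atTop 0] with L h2 h3
    rw [Real.rpow_sub h3, Real.rpow_one, div_le_div_iff₀ (by positivity) (by norm_num)]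
    nlinarith
  have t2 : ∀ᶠ L : ℝ in atTop, 1 ≤ ε / 2 * L := by
    filter_upwards [eventually_ge_atTop (2 / ε)] with L hL
    rw [div_le_iff₀ hε] at hL; linarith
  have t3 : ∀ᶠ L : ℝ in atTop, ‖δ‖ ≤ ε / 2 * L := by
    filter_upwards [eventually_ge_atTop (2 * ‖δ‖ / ε)] with L hL
    rw [div_le_iff₀ hε] at hL; linarith
  have t4 : ∀ᶠ L : ℝ in atTop, (N0 : ℝ) ≤ Real.exp (L / 8) := by
    have : Tendsto (fun L : ℝ => Real.exp (L / 8)) atTop atTop :=
      Real.tendsto_exp_atTop.comp (tendsto_id.atTop_div_const (by norm_num))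
    exact this.eventually_ge_atTop _
  have t5 : ∀ᶠ L : ℝ in atTop, 2 * q * 8 ^ (K + 2) / L ≤ ε / 2 * L := by
    filter_upwards [eventually_ge_atTop (1 : ℝ), eventually_ge_atTop (2 * (2 * q * 8 ^ (K + 2)) / ε)] with L h1 h2
    rw [div_le_iff₀ hε] at h2
    rw [div_le_iff₀ (by linarith)]
    have h3 : ε / 2 * L ≤ ε / 2 * L * L := le_mul_of_one_le_right (by positivity) h1
    linarith
  have t6 : ∀ᶠ L : ℝ in atTop, ‖δ‖ * (2 * (L ^ (K + 1) * Real.exp (-(L / 4)))) ≤ ε / 2 * L := by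
    have h1 : Tendsto (fun x : ℝ => x ^ (K + 1) * Real.exp (-x)) atTop (𝓝 0) :=
      Real.tendsto_pow_mul_exp_neg_atTop_nhds_zero _
    have h2 := h1.comp (tendsto_id.atTop_div_const (show (0:ℝ) < 4 by norm_num) : Tendsto (fun L : ℝ => L / 4) atTop atTop)
    have h3 : Tendsto (fun L : ℝ => ‖δ‖ * (2 * (4 ^ (K + 1) * ((L / 4) ^ (K + 1) * Real.exp (-(L / 4)))))) atTop (𝓝 0) := by
      have := ((h2.const_mul (4 ^ (K + 1) : ℝ)).const_mul 2).const_mul ‖δ‖
      simpa using this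
    filter_upwards [h3.eventually (gt_mem_nhds (show (0:ℝ) < 1 by norm_num)), t2] with L h4 h5
    refine le_trans (le_of_eq ?_) (h4.le.trans h5)
    rw [div_pow]; field_simp
  filter_upwards [t1, t2, t3, t4, t5, t6, eventually_ge_atTop (max L0 8), eventually_ge_atTop (q : ℝ)] with
    L t1 t2 t3 t4 t5 t6 hL hLq
  intro τ hτ
  have hL8 : 8 ≤ L := (le_max_right _ _).trans hL
  have hLL : L0 ≤ L := (le_max_left _ _).trans hL
  have hLp : 0 < L := by linarith
  have hfl := floor_exp hL8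
  by_cases hbig : L ^ K ≤ |τ| ∧ 1 ≤ |τ|
  · -- large twist
    obtain ⟨hb1, hb2⟩ := hbig
    have hM : ∀ t ∈ Icc (Real.exp (L / 4)) (Real.exp (3 * L / 4)),
        ‖(∑ k ∈ Finset.Icc 0 ⌊t⌋₊, (tw τ k * vg g k)) - 0 * (t : ℂ)‖ ≤ 1 / L * t := by
      intro t ht
      have ht0 : 0 < t := (Real.exp_pos _).trans_le ht.1
      rw [zero_mul, sub_zero, Icc0 _ (by rw [vg_zero, mul_zero])]
      have h1 : Real.exp (L / 8) ≤ (⌊t⌋₊ : ℝ) := hfl.trans (by exact_mod_cast Nat.floor_le_floor ht.1)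
      have h2 : (⌊t⌋₊ : ℝ) ≤ t := Nat.floor_le ht0.le
      have h3 := H1 L hLL q hg.q1 (by rw [pow_one]; exact hLq) g hg.cm hg.per τ hb1 hτ ⌊t⌋₊
        ((Real.exp_le_exp.2 t1).trans h1) (h2.trans (ht.2.trans (Real.exp_le_exp.2 (by linarith))))
      have e1 : ∑ k ∈ Finset.Icc 1 ⌊t⌋₊, tw τ k * vg g k =
          ∑ n ∈ Finset.Icc 1 ⌊t⌋₊, (ArithmeticFunction.vonMangoldt n : ℂ) * g n * tw τ n := by
        refine Finset.sum_congr rfl fun n _ => ?_
        unfold vg; ring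
      rw [e1]
      refine h3.trans ?_
      rw [pow_one, one_div, div_eq_inv_mul]
      exact mul_le_mul_of_nonneg_left h2 (by positivity)
    have h1 := abel_W (by linarith : 1 ≤ L) 0 (fun k => tw τ k * vg g k) 0 hM
    rw [zero_mul, sub_zero, abs_zero, add_zero, mul_one, one_div_mul_cancel hLp.ne'] at h1
    have e2 : ∑ n ∈ Finset.Ioc ⌊Real.exp (L / 4)⌋₊ ⌊Real.exp (3 * L / 4)⌋₊, Wt L τ n * vg g n =
        ∑ k ∈ Finset.Ioc ⌊Real.exp (L / 4)⌋₊ ⌊Real.exp (3 * L / 4)⌋₊, Wt L 0 k * (tw τ k * vg g k) := by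
      refine Finset.sum_congr rfl fun n _ => ?_
      rw [Wt_tw]; ring
    rw [e2]
    refine (norm_sub_le _ _).trans ?_
    have h3 : ‖δ * (L * Mx L τ)‖ ≤ ‖δ‖ := by
      have hτ0 : τ ≠ 0 := by
        rintro rfl
        rw [abs_zero] at hb2; linarith
      have h4 := Mx_le hLp hτ0
      rw [norm_mul, norm_mul, Complex.norm_real, Real.norm_of_nonneg hLp.le]
      refine mul_le_of_le_one_right (norm_nonneg _) ?_
      calc L * ‖Mx L τ‖ ≤ L * (1 / (L * |τ|)) := mul_le_mul_of_nonneg_left h4 hLp.le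
        _ = 1 / |τ| := by field_simp
        _ ≤ 1 := by rw [div_le_one (by linarith)]; exact hb2
    linarith
  · -- small twist
    have hτK : |τ| ≤ L ^ K := by
      by_contra h
      push Not at h
      have : 1 ≤ L ^ K := one_le_pow₀ (by linarith)
      exact hbig ⟨h.le, by linarith⟩
    set M := q * (8 / L) ^ (K + 2) + ‖δ‖ * Real.exp (-(L / 4)) with hMd
    have hM : ∀ t ∈ Icc (Real.exp (L / 4)) (Real.exp (3 * L / 4)),
        ‖(∑ k ∈ Finset.Icc 0 ⌊t⌋₊, vg g k) - δ * (t : ℂ)‖ ≤ M * t := by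
      intro t ht
      have ht0 : 0 < t := (Real.exp_pos _).trans_le ht.1
      rw [Icc0 _ (vg_zero g)]
      have h1 : Real.exp (L / 8) ≤ (⌊t⌋₊ : ℝ) := hfl.trans (by exact_mod_cast Nat.floor_le_floor ht.1)
      have h2 : (⌊t⌋₊ : ℝ) ≤ t := Nat.floor_le ht0.le
      have h2' : t < (⌊t⌋₊ : ℝ) + 1 := Nat.lt_floor_add_one t
      have h3 := hN0 ⌊t⌋₊ (by exact_mod_cast t4.trans h1)
      have hlog : L / 8 ≤ Real.log (⌊t⌋₊ : ℝ) := by
        rw [Real.le_log_iff_exp_le ((Real.exp_pos _).trans_le h1)]; exact h1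
      have e1 : (∑ k ∈ Finset.Icc 1 ⌊t⌋₊, vg g k) - δ * (t : ℂ) =
          ((∑ k ∈ Finset.Icc 1 ⌊t⌋₊, vg g k) - δ * (⌊t⌋₊ : ℂ)) + δ * (((⌊t⌋₊ : ℝ) - t : ℝ) : ℂ) := by
        push_cast; ring
      rw [e1, hMd, add_mul]
      refine (norm_add_le _ _).trans (add_le_add (h3.trans ?_) ?_)
      · rw [mul_assoc]
        refine mul_le_mul_of_nonneg_left ?_ (Nat.cast_nonneg _)
        have h4 : (⌊t⌋₊ : ℝ) / Real.log (⌊t⌋₊ : ℝ) ^ (K + 2) ≤ t / (L / 8) ^ (K + 2) := by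
          gcongr
        refine h4.trans (le_of_eq ?_)
        rw [div_pow, div_pow]; field_simp
      · rw [norm_mul, Complex.norm_real, Real.norm_eq_abs, mul_assoc]
        refine mul_le_mul_of_nonneg_left ?_ (norm_nonneg _)
        have h5 : |(⌊t⌋₊ : ℝ) - t| ≤ 1 := by rw [abs_le]; constructor <;> linarith
        refine h5.trans ?_
        have h6 : Real.exp (-(L / 4)) * Real.exp (L / 4) = 1 := by
          rw [← Real.exp_add]; simp
        calc (1 : ℝ) = Real.exp (-(L / 4)) * Real.exp (L / 4) := h6.symm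
          _ ≤ _ := mul_le_mul_of_nonneg_left ht.1 (Real.exp_pos _).le
    refine (abel_W (by linarith : 1 ≤ L) τ (vg g) δ hM).trans ?_
    have hM0 : 0 ≤ M := by positivity
    have h1K : 1 ≤ L ^ K := one_le_pow₀ (by linarith)
    have h7 : M * (1 + |τ|) * L ≤ M * (2 * L ^ K) * L := by
      have : 1 + |τ| ≤ 2 * L ^ K := by linarith
      gcongr
    refine h7.trans ?_
    have e3 : M * (2 * L ^ K) * L = 2 * q * 8 ^ (K + 2) / L + ‖δ‖ * (2 * (L ^ (K + 1) * Real.exp (-(L / 4)))) := by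
      rw [hMd, div_pow]
      field_simp
      ring
    rw [e3]
    linarith

end Pool.Agent.H474.SYM
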