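import Pool.Agent.H474.SYM.Ker

/-!
# Test functions from the kernel
-/

set_option autoImplicit false
set_option linter.unusedSectionVars false

open Complex Filter Topology Set MeasureTheory
open scoped ComplexConjugate

namespace Pool.Agent.H474.SYM

open Pool.Agent.H474.SHP (pg Gg gw_cnt gwb gw_evn pg_cont pg_even Gg_pos Gg_ge)
open H385 (kapw gw)

/-- the constant -/
noncomputable def Kc (γ : ℝ) : ℝ :=
  2 * Real.pi * Gg γ ^ 2 * Real.exp 3 + 4 * Real.pi * Gg γ ^ 2 * Real.exp 1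

section

variable {γ Λ : ℝ}

lemma Kc_pos (h0 : 0 < γ) (hπ : γ < Real.pi) : 0 < Kc γ := by
  unfold Kc
  have := Gg_pos h0 hπ
  have := Real.pi_pos
  positivity

lemma sq_one (h0 : 0 < γ) (hπ : γ < Real.pi) (hΛ : 0 < Λ) {z : ℂ} (hz : |z.im| ≤ 1 / 2) :
    Integrable (fun s : ℝ => ‖pg γ Λ (z - s)‖ ^ 2) ∧
    ∫ s : ℝ, ‖pg γ Λ (z - s)‖ ^ 2 ≤ (2 * Real.pi * Gg γ ^ 2 * Real.exp 1) / Λ * Real.exp (Λ * |z.im|) := by
  obtain ⟨i1, i2⟩ := bess1 h0 hπ hΛ z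
  refine ⟨i1, i2.trans ?_⟩
  have h1 : z.im ^ 2 ≤ 1 := by
    rw [← sq_abs]
    have := abs_nonneg z.im
    nlinarith
  have h2 : Real.exp (z.im ^ 2) ≤ Real.exp 1 := Real.exp_le_exp.2 h1
  have hG := Gg_pos h0 hπ
  have := Real.pi_pos
  calc (2 * Real.pi * Gg γ ^ 2 / Λ) * (Real.exp (Λ * |z.im|) * Real.exp (z.im ^ 2)) ≤
      (2 * Real.pi * Gg γ ^ 2 / Λ) * (Real.exp (Λ * |z.im|) * Real.exp 1) := by gcongr
    _ = _ := by ring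

lemma sq_diff (h0 : 0 < γ) (hπ : γ < Real.pi) (hΛ : 4 ≤ Λ) {z w : ℂ} {Y : ℝ} (hz : |z.im| ≤ Y)
    (hw : |w.im| ≤ Y) (hY : Y ≤ 1 / 2) :
    Integrable (fun s : ℝ => ‖pg γ Λ (z - s) ^ 2 - pg γ Λ (w - s) ^ 2‖) ∧
    ∫ s : ℝ, ‖pg γ Λ (z - s) ^ 2 - pg γ Λ (w - s) ^ 2‖ ≤ Kc γ * ‖z - w‖ * Real.exp (Λ * Y) := by
  have hΛ0 : 0 < Λ := by linarith
  have hK := Kc_pos h0 hπ
  have hG := Gg_pos h0 hπ
  have hpi := Real.pi_pos
  obtain ⟨a1, a2⟩ := sq_one h0 hπ hΛ0 (hz.trans hY)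
  obtain ⟨b1, b2⟩ := sq_one h0 hπ hΛ0 (hw.trans hY)
  have ea : Real.exp (Λ * |z.im|) ≤ Real.exp (Λ * Y) := Real.exp_le_exp.2 (by gcongr)
  have eb : Real.exp (Λ * |w.im|) ≤ Real.exp (Λ * Y) := Real.exp_le_exp.2 (by gcongr)
  set K2 := 2 * Real.pi * Gg γ ^ 2 * Real.exp 1 with hK2
  have hK20 : 0 < K2 := by positivity
  have a3 : ∫ s : ℝ, ‖pg γ Λ (z - s)‖ ^ 2 ≤ K2 / Λ * Real.exp (Λ * Y) :=
    a2.trans (mul_le_mul_of_nonneg_left ea (by positivity))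
  have b3 : ∫ s : ℝ, ‖pg γ Λ (w - s)‖ ^ 2 ≤ K2 / Λ * Real.exp (Λ * Y) :=
    b2.trans (mul_le_mul_of_nonneg_left eb (by positivity))
  have hcont : Continuous fun s : ℝ => pg γ Λ (z - s) ^ 2 - pg γ Λ (w - s) ^ 2 := by
    have := pg_cont (γ := γ) Λ
    fun_prop
  have hint : Integrable (fun s : ℝ => ‖pg γ Λ (z - s) ^ 2 - pg γ Λ (w - s) ^ 2‖) := by
    refine (a1.add b1).mono' hcont.norm.aestronglyMeasurable (ae_of_all _ fun s => ?_)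
    rw [norm_norm]
    refine (norm_sub_le _ _).trans (le_of_eq ?_)
    rw [norm_pow, norm_pow]; rfl
  refine ⟨hint, ?_⟩
  by_cases hzw : z = w
  · rw [hzw]; simp
  have hδ0 : 0 < ‖z - w‖ := norm_pos_iff.2 (sub_ne_zero.2 hzw)
  set δ := ‖z - w‖ with hδd
  by_cases hδ : δ ≤ 1 / Λ
  · obtain ⟨d1, d2⟩ := bess_diff h0 hπ hΛ hz hw hY hδ hzw
    set t := 1 / (Λ * δ) with ht
    have ht0 : 0 < t := by positivity
    have hpt : ∀ s : ℝ, ‖pg γ Λ (z - s) ^ 2 - pg γ Λ (w - s) ^ 2‖ ≤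
        t / 2 * ‖pg γ Λ (z - s) - pg γ Λ (w - s)‖ ^ 2 +
          (1 / t) * (‖pg γ Λ (z - s)‖ ^ 2 + ‖pg γ Λ (w - s)‖ ^ 2) := by
      intro s
      set p := pg γ Λ (z - s)
      set q := pg γ Λ (w - s)
      have e1 : p ^ 2 - q ^ 2 = (p - q) * (p + q) := by ring
      rw [e1, norm_mul]
      have e2 : ‖p + q‖ ^ 2 ≤ 2 * (‖p‖ ^ 2 + ‖q‖ ^ 2) := by
        have h1 := norm_add_le p q
        have h2 := pow_le_pow_left₀ (norm_nonneg _) h1 2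
        nlinarith [sq_nonneg (‖p‖ - ‖q‖)]
      set x := ‖p - q‖
      set y := ‖p + q‖
      have e3 : x * y ≤ t / 2 * x ^ 2 + 1 / (2 * t) * y ^ 2 := by
        have : t / 2 * x ^ 2 + 1 / (2 * t) * y ^ 2 - x * y = 1 / (2 * t) * (t * x - y) ^ 2 := by
          field_simp; ring
        have h3 : 0 ≤ 1 / (2 * t) * (t * x - y) ^ 2 := by positivity
        linarith
      refine e3.trans (add_le_add le_rfl ?_)
      calc 1 / (2 * t) * y ^ 2 ≤ 1 / (2 * t) * (2 * (‖p‖ ^ 2 + ‖q‖ ^ 2)) := by gcongr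
        _ = _ := by field_simp
    have ab : Integrable (fun s : ℝ => ‖pg γ Λ (z - s)‖ ^ 2 + ‖pg γ Λ (w - s)‖ ^ 2) := a1.add b1
    have h1 : ∫ s : ℝ, ‖pg γ Λ (z - s) ^ 2 - pg γ Λ (w - s) ^ 2‖ ≤ ∫ s : ℝ,
        (t / 2 * ‖pg γ Λ (z - s) - pg γ Λ (w - s)‖ ^ 2 +
          (1 / t) * (‖pg γ Λ (z - s)‖ ^ 2 + ‖pg γ Λ (w - s)‖ ^ 2)) :=
      integral_mono hint ((d1.const_mul (t / 2)).add (ab.const_mul (1 / t))) hpt
    rw [integral_add (d1.const_mul (t / 2)) (ab.const_mul (1 / t)), integral_const_mul,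
      integral_const_mul, integral_add a1 b1] at h1
    refine h1.trans ?_
    have h2 : t / 2 * ∫ s : ℝ, ‖pg γ Λ (z - s) - pg γ Λ (w - s)‖ ^ 2 ≤
        t / 2 * ((4 * Real.pi * Gg γ ^ 2 * Real.exp 3) * Λ * δ ^ 2 * Real.exp (Λ * Y)) := by gcongr
    have h3 : 1 / t * ((∫ s : ℝ, ‖pg γ Λ (z - s)‖ ^ 2) + ∫ s : ℝ, ‖pg γ Λ (w - s)‖ ^ 2) ≤
        1 / t * (K2 / Λ * Real.exp (Λ * Y) + K2 / Λ * Real.exp (Λ * Y)) := by gcongr
    refine (add_le_add h2 h3).trans (le_of_eq ?_)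
    rw [ht, hK2]
    unfold Kc
    field_simp
    ring
  · push Not at hδ
    have h1 : ∫ s : ℝ, ‖pg γ Λ (z - s) ^ 2 - pg γ Λ (w - s) ^ 2‖ ≤
        ∫ s : ℝ, (‖pg γ Λ (z - s)‖ ^ 2 + ‖pg γ Λ (w - s)‖ ^ 2) := by
      refine integral_mono hint (a1.add b1) fun s => ?_
      refine (norm_sub_le _ _).trans (le_of_eq ?_)
      rw [norm_pow, norm_pow]
    rw [integral_add a1 b1] at h1
    have h2 : 2 * (K2 / Λ) ≤ Kc γ * δ := by
      have h3 : 1 / Λ ≤ δ := hδ.le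
      have h4 : 2 * K2 ≤ Kc γ := by
        unfold Kc
        rw [hK2]
        have : 0 < 2 * Real.pi * Gg γ ^ 2 * Real.exp 3 := by positivity
        linarith
      calc 2 * (K2 / Λ) = (2 * K2) * (1 / Λ) := by ring
        _ ≤ Kc γ * δ := mul_le_mul h4 h3 (by positivity) hK.le
    have h5 := Real.exp_pos (Λ * Y)
    calc _ ≤ _ := h1
      _ ≤ 2 * (K2 / Λ) * Real.exp (Λ * Y) := by linarith
      _ ≤ _ := mul_le_mul_of_nonneg_right h2 h5.le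

/-- the function attached to a weight -/
noncomputable def ff (γ Λ : ℝ) (u : ℝ → ℂ) (z : ℂ) : ℂ := Λ * ∫ s : ℝ, u s * pg γ Λ (z - s) ^ 2

lemma sq_int (h0 : 0 < γ) (hπ : γ < Real.pi) (hΛ : 0 < Λ) (z : ℂ) :
    Integrable (fun s : ℝ => pg γ Λ (z - s) ^ 2) := by
  obtain ⟨a1, -⟩ := bess1 h0 hπ hΛ z
  refine a1.mono' ?_ (ae_of_all _ fun s => ?_)
  · have : Continuous fun s : ℝ => pg γ Λ (z - s) ^ 2 := by
      have := pg_cont (γ := γ) Λ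
      fun_prop
    exact this.aestronglyMeasurable
  · rw [norm_pow]

variable {u : ℝ → ℂ} (hu : Measurable u) (hu1 : ∀ s, ‖u s‖ ≤ 1)

include hu hu1

lemma u_int (h0 : 0 < γ) (hπ : γ < Real.pi) (hΛ : 0 < Λ) (z : ℂ) :
    Integrable (fun s : ℝ => u s * pg γ Λ (z - s) ^ 2) :=
  (sq_int h0 hπ hΛ z).bdd_mul hu.aestronglyMeasurable (ae_of_all _ hu1)

lemma ff_bd (h0 : 0 < γ) (hπ : γ < Real.pi) (hΛ : 0 < Λ) {z : ℂ} (hz : |z.im| ≤ 1 / 2) :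
    ‖ff γ Λ u z‖ ≤ Kc γ * Real.exp (Λ * |z.im|) := by
  unfold ff
  rw [norm_mul, Complex.norm_real, Real.norm_of_nonneg hΛ.le]
  obtain ⟨a1, a2⟩ := sq_one h0 hπ hΛ hz
  have h1 : ‖∫ s : ℝ, u s * pg γ Λ (z - s) ^ 2‖ ≤ ∫ s : ℝ, ‖pg γ Λ (z - s)‖ ^ 2 := by
    refine norm_integral_le_of_norm_le a1 (ae_of_all _ fun s => ?_)
    rw [norm_mul, norm_pow]
    have := hu1 s
    have h2 : 0 ≤ ‖pg γ Λ (z - s)‖ ^ 2 := sq_nonneg _
    nlinarith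
  have hG := Gg_pos h0 hπ
  have hpi := Real.pi_pos
  have h3 := mul_le_mul_of_nonneg_left (h1.trans a2) hΛ.le
  refine h3.trans ?_
  have e : Λ * (2 * Real.pi * Gg γ ^ 2 * Real.exp 1 / Λ * Real.exp (Λ * |z.im|)) =
      2 * Real.pi * Gg γ ^ 2 * Real.exp 1 * Real.exp (Λ * |z.im|) := by field_simp
  rw [e]
  refine mul_le_mul_of_nonneg_right ?_ (Real.exp_pos _).le
  unfold Kc
  have h4 : 0 < 2 * Real.pi * Gg γ ^ 2 * Real.exp 3 := by positivity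
  have h5 : 0 < 2 * Real.pi * Gg γ ^ 2 * Real.exp 1 := by positivity
  linarith

lemma ff_lip (h0 : 0 < γ) (hπ : γ < Real.pi) (hΛ : 4 ≤ Λ) {z w : ℂ} {Y : ℝ} (hz : |z.im| ≤ Y)
    (hw : |w.im| ≤ Y) (hY : Y ≤ 1 / 2) :
    ‖ff γ Λ u z - ff γ Λ u w‖ ≤ Kc γ * Real.exp (Λ * Y) * Λ * ‖z - w‖ := by
  have hΛ0 : 0 < Λ := by linarith
  obtain ⟨d1, d2⟩ := sq_diff h0 hπ hΛ hz hw hY
  unfold ff
  rw [← mul_sub, ← integral_sub (u_int hu hu1 h0 hπ hΛ0 z) (u_int hu hu1 h0 hπ hΛ0 w), norm_mul,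
    Complex.norm_real, Real.norm_of_nonneg hΛ0.le]
  have h1 : ‖∫ s : ℝ, (u s * pg γ Λ (z - s) ^ 2 - u s * pg γ Λ (w - s) ^ 2)‖ ≤
      ∫ s : ℝ, ‖pg γ Λ (z - s) ^ 2 - pg γ Λ (w - s) ^ 2‖ := by
    refine norm_integral_le_of_norm_le d1 (ae_of_all _ fun s => ?_)
    rw [← mul_sub, norm_mul]
    have := hu1 s
    have h2 : 0 ≤ ‖pg γ Λ (z - s) ^ 2 - pg γ Λ (w - s) ^ 2‖ := norm_nonneg _
    nlinarith
  refine (mul_le_mul_of_nonneg_left (h1.trans d2) hΛ0.le).trans (le_of_eq ?_)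
  ring

/-- decay away from the support -/
lemma ff_far (h0 : 0 < γ) (hπ : γ < Real.pi) (hΛ : 0 < Λ) {R : ℝ} (hR : 0 ≤ R)
    (hu0 : ∀ s, R < |s| → u s = 0) {z : ℂ} (hz : |z.im| ≤ 1 / 2) (hx : 2 * R ≤ |z.re|) :
    ‖ff γ Λ u z‖ ≤ Λ * (2 * R * (Gg γ ^ 2 * Real.exp (Λ / 2) * Real.exp (1 - R ^ 2 / 2))) := by
  unfold ff
  rw [norm_mul, Complex.norm_real, Real.norm_of_nonneg hΛ.le]
  refine mul_le_mul_of_nonneg_left ?_ hΛ.le
  have hG := Gg_pos h0 hπ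
  have e1 : ∫ s : ℝ, u s * pg γ Λ (z - s) ^ 2 = ∫ s in Icc (-R) R, u s * pg γ Λ (z - s) ^ 2 := by
    rw [setIntegral_eq_integral_of_forall_compl_eq_zero]
    intro s hs
    rw [hu0 s, zero_mul]
    by_contra h
    push Not at h
    exact hs (abs_le.1 h)
  rw [e1]
  have h1 : ∀ s ∈ Icc (-R) R, ‖u s * pg γ Λ (z - s) ^ 2‖ ≤
      Gg γ ^ 2 * Real.exp (Λ / 2) * Real.exp (1 - R ^ 2 / 2) := by
    intro s hs
    rw [norm_mul, norm_pow]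
    have h2 := pg_pt h0 hπ hΛ (z - s)
    have e2 : (z - s : ℂ).im = z.im := by simp
    have e3 : (z - s : ℂ).re = z.re - s := by simp
    rw [e2, e3] at h2
    have h3 : R ^ 2 ≤ (z.re - s) ^ 2 := by
      rw [← sq_abs (z.re - s)]
      refine pow_le_pow_left₀ hR ?_ 2
      have h4 : |s| ≤ R := abs_le.2 hs
      have h5 := abs_sub_abs_le_abs_sub z.re s
      linarith
    have h6 : z.im ^ 2 ≤ 1 := by
      rw [← sq_abs]
      have := abs_nonneg z.im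
      nlinarith
    have h7 : ‖pg γ Λ (z - s)‖ ≤ Gg γ * (Real.exp (Λ / 4) * Real.exp (1 / 2 - R ^ 2 / 4)) := by
      refine h2.trans ?_
      rw [mul_assoc]
      refine mul_le_mul_of_nonneg_left ?_ hG.le
      rw [← Real.exp_add, ← Real.exp_add]
      apply Real.exp_le_exp.2
      have h8 : Λ * |z.im| ≤ Λ * (1 / 2) := mul_le_mul_of_nonneg_left hz hΛ.le
      linarith
    have h8 := pow_le_pow_left₀ (norm_nonneg _) h7 2
    have e4 : (Gg γ * (Real.exp (Λ / 4) * Real.exp (1 / 2 - R ^ 2 / 4))) ^ 2 =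
        Gg γ ^ 2 * Real.exp (Λ / 2) * Real.exp (1 - R ^ 2 / 2) := by
      rw [mul_pow, mul_pow, ← Real.exp_nat_mul, ← Real.exp_nat_mul, mul_assoc]
      congr 3 <;> · push_cast; ring_nf
    rw [e4] at h8
    calc ‖u s‖ * ‖pg γ Λ (z - s)‖ ^ 2 ≤ 1 * ‖pg γ Λ (z - s)‖ ^ 2 :=
          mul_le_mul_of_nonneg_right (hu1 s) (sq_nonneg _)
      _ ≤ _ := by rw [one_mul]; exact h8
  refine (norm_setIntegral_le_of_norm_le_const (by simp) h1).trans (le_of_eq ?_)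
  rw [Real.volume_real_Icc_of_le (by linarith)]
  ring

end

end Pool.Agent.H474.SYM
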